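import Pool.Agent.N145.SX.All3

/-!
Varieties dominated by the product of a variety and a curve: the Kodaira dimension is the dimension of
the canonical image.
-/

set_option autoImplicit false
set_option linter.overlappingInstances false
set_option linter.unusedSectionVars false
set_option linter.unusedVariables false
set_option maxHeartbeats 4000000
set_option synthInstance.maxHeartbeats 400000

open Polynomial FF IntermediateField Module

namespace Pool.Agent.N145.SX

open Pool.Agent.W603.LV Pool.Agent.W619.PQ Pool.Agent.N145.PC Pool.Agent.N145.PL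
open Pool.Agent.W602.GT (Divisorial RegAt IsPluri DerReg DerLog LogAt KodGe LogSec Psef)
open Pool.Agent.Y184.NT (trForm trForm_pluri)
open Pool.Agent.R882.LT (SecAt)

open scoped Classical

theorem canGe_mono {L : Type} [Field L] [Algebra ℂ L] {N d e : ℕ} (hde : e ≤ d)
    (h : CanGe L N d) : CanGe L N e := by
  obtain ⟨ω, hω, D, hD, hind⟩ := h
  have hle : e + 1 ≤ d + 1 := by omega
  refine ⟨fun j : Fin (e + 1) => ω (Fin.castLE hle j), fun j => hω (Fin.castLE hle j), D, hD, ?_⟩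
  have h1 := hind.comp (Fin.castLE hde) (Fin.castLE_injective hde)
  exact h1

section

variable {K : Type} [Field K] [Algebra ℂ K] {n : ℕ} {L : Type} [Field L] [Algebra ℂ L]
  [Algebra L K] [IsScalarTower ℂ L K] [FiniteDimensional L K]

/-- **Uniruled, or many canonical forms.** -/
theorem dichotomyC (hsec : S_SEC) (hclosed : S_CLOSED) (herase : S_ERASE)
    [hess : Algebra.EssFiniteType ℂ K] {E C : IntermediateField ℂ K} [Algebra.EssFiniteType ℂ E]
    [IsFF ℂ C] (hsup : E ⊔ C = ⊤) (hE : Algebra.trdeg ℂ E = n)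
    (hK : Algebra.trdeg ℂ K = (n + 1 : ℕ)) {x : Fin n → E} (hx : IsTranscendenceBasis ℂ x)
    {g : ℕ} (hsep : SepX x (fun _ => False) g)
    (hd : 2 * finrank L (IntermediateField.adjoin L (E : Set K)) < g) :
    IsUniruled ℂ L (n + 1) ∨ CanGe L (n + 1) n := by
  have hL : Algebra.trdeg ℂ L = (n + 1 : ℕ) := Pool.Agent.Y184.NT.trdeg_below (K := K) hK
  have hessL : Algebra.EssFiniteType ℂ L := Pool.Agent.TH466.QG.ess_below (K := K)
  obtain ⟨t, ht⟩ := IsFF.exists_transcendental (k := ℂ) (K := C)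
  obtain ⟨D0, hD0⟩ := exists_D ht
  obtain ⟨hna, -, hcl⟩ := hclosed K n E C hsup hE hK
  have hBd : ∀ Q : Place ℂ K, ¬ BdX (K := K) (E := E) (C := C) (fun _ => False)
      (∅ : Set (Place ℂ C)) Q := by
    rintro Q (⟨_, _, h3, -⟩ | ⟨_, h3, -⟩)
    · exact h3
    · exact h3
  obtain ⟨y, G, h, hy, hG, hh, hreg, hval⟩ := exists_traceX (L := L) (BL := fun _ => False) hsec hE
    hK hx (fun _ => False) ht (basis_zz hK hx (hna t ht)) hD0 (∅ : Set (Place ℂ C))
    fun P Q e h1 h2 => hBd Q h2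
  have her := herase K n E C hsup hE hK x hx t ht D0 hD0 (fun _ => False) ∅
    (fun P hP => absurd hP (Set.notMem_empty P)) L (fun _ => False)
    (fun P Q e h1 h2 => absurd h2 id) h hval
  have hfin : (∀ φ ∈ HL D0 (∅ : Set (Place ℂ C)),
      Algebra.trace (IntermediateField.adjoin L (E : Set K)) K (h * (φ : K)) = 0) →
      IsUniruled ℂ L (n + 1) := by
    intro h0
    obtain ⟨M, i1, i2, φ, h1, h2, -⟩ := her h0
    exact ⟨M, i1, i2, h1, h2, ⟨φ⟩⟩
  obtain ⟨τ0⟩ : Nonempty (K →ₐ[L] AlgebraicClosure L) :=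
    ⟨IsAlgClosed.lift (R := L) (M := AlgebraicClosure L) (S := K)⟩
  have hT' : IsScalarTower ℂ L (AlgebraicClosure L) := inferInstance
  let I := {p : E × C // p.1 ∈ HX x (fun _ => False) ∧ p.2 ∈ HL D0 (∅ : Set (Place ℂ C))}
  obtain ⟨T, hT⟩ : ∃ T : I → L, ∀ p, T p =
    Algebra.trace L K (h * (algebraMap E K p.1.1 * algebraMap C K p.1.2)) := ⟨_, fun _ => rfl⟩
  by_cases hT0 : ∃ p, T p ≠ 0
  swap
  · left
    push Not at hT0
    refine hfin fun φ hφ => ?_
    refine rel_oneI hsep (by omega) (H := {z | ∃ φ ∈ HL D0 (∅ : Set (Place ℂ C)), z = (φ : K)})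
      (fun f hf φ hφ => ?_) ⟨φ, hφ, rfl⟩
    obtain ⟨ψ, hψ, rfl⟩ := hφ
    have h1 := hT0 ⟨(f, ψ), hf, hψ⟩
    rw [hT] at h1
    exact h1
  · obtain ⟨p1, hp1⟩ := hT0
    obtain ⟨Ω', iF, iA, iC, i1, i2, lam, hlam, hlamT, hpts⟩ := exists_pts T (f1 := p1) hp1
    rcases rel_twoI hsep hd (H := {z | ∃ φ ∈ HL D0 (∅ : Set (Place ℂ C)), z = (φ : K)}) (h := h)
      hlam (fun f hf φ hφ => by
        obtain ⟨ψ, hψ, rfl⟩ := hφ
        have h1 := hlamT ⟨(f, ψ), hf, hψ⟩
        rw [hT] at h1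
        exact h1) τ0 with ⟨τ, hτ⟩ | h2
    · right
      have hind : AlgebraicIndependent ℂ fun l : Fin n => algebraMap E K (x l) :=
        hx.1.map' (f := IsScalarTower.toAlgHom ℂ E K) (algebraMap E K).injective
      refine canGe_of_alg hL hG T ⟨p1, hp1⟩ (fun p P hP => ?_) (trdeg_adj hind) fun l => ?_
      · rw [hT]
        exact (hreg p.1.1 p.2.1 p.1.2 p.2.2 P hP).2 (fun h => h)
      · exact alg_back τ0 (hpts _ _ (hτ (x l)).symm)
    · exact Or.inl (hfin fun φ hφ => h2 _ ⟨φ, hφ, rfl⟩)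

/-- **The Kodaira dimension is the dimension of the canonical image.** -/
theorem abundance_all [Algebra.EssFiniteType ℂ K] {E C : IntermediateField ℂ K}
    [Algebra.EssFiniteType ℂ E] [IsFF ℂ C] (hsup : E ⊔ C = ⊤) (hE : Algebra.trdeg ℂ E = n)
    (hK : Algebra.trdeg ℂ K = (n + 1 : ℕ)) {x : Fin n → E} (hx : IsTranscendenceBasis ℂ x)
    {g : ℕ} (hsep : SepX x (fun _ => False) g)
    (hd : 2 * finrank L (IntermediateField.adjoin L (E : Set K)) < g) :
    [Psef ℂ L (n + 1) (fun _ => False), KodGe ℂ L (n + 1) (fun _ => False) n,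
      ¬ IsUniruled ℂ L (n + 1)].TFAE ∧
    ∀ j : ℕ, KodGe ℂ L (n + 1) (fun _ => False) j ↔ CanGe L (n + 1) j := by
  have hL : Algebra.trdeg ℂ L = (n + 1 : ℕ) := Pool.Agent.Y184.NT.trdeg_below (K := K) hK
  have hessL : Algebra.EssFiniteType ℂ L := Pool.Agent.TH466.QG.ess_below (K := K)
  have h13 : Psef ℂ L (n + 1) (fun _ => False) → ¬ IsUniruled ℂ L (n + 1) := fun h h' =>
    (Pool.Agent.W619.Y.uniruled_neg (n + 1) hL h').1 ((Pool.Agent.TH466.QG.psef_iff (n + 1)).1 h)
  have h32 : ¬ IsUniruled ℂ L (n + 1) → CanGe L (n + 1) n := fun h =>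
    (dichotomyC sec closed erase hsup hE hK hx hsep hd).resolve_left h
  constructor
  · tfae_have 1 → 3 := h13
    tfae_have 3 → 2 := fun h => kodGe_of_canGe (h32 h)
    tfae_have 2 → 1 := psef_of_kodGe'
    tfae_finish
  · intro j
    refine ⟨fun h => ?_, kodGe_of_canGe⟩
    have h1 : CanGe L (n + 1) n := h32 (h13 (psef_of_kodGe' h))
    rcases lt_trichotomy j (n + 1) with hj | hj | hj
    · exact canGe_mono (by omega) h1
    · subst hj
      exact ((lang_all (L := L) hsup hE hK hx hsep hd).out 0 1).1 h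
    · exfalso
      obtain ⟨w, hw, ω, hω, D, hD, hind⟩ := h
      have h2 := hind.lift_cardinalMk_le_trdeg
      rw [hL] at h2
      simp only [Cardinal.mk_fin, Cardinal.lift_natCast] at h2
      have h3 : j ≤ n + 1 := by exact_mod_cast h2
      omega

end

end Pool.Agent.N145.SX
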