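import Pool.Agent.N145.SX.Fin
import Pool.Agent.N123.SX.PULL
import Pool.Agent.N221.SX.SEC
import Pool.Agent.N160.SX.CLOSED
import Pool.Agent.N279.SX.FIB
import Pool.Agent.N603.SX.ERASE
import Pool.Agent.N545.SX.GEO
import Pool.Agent.N281.SX.REGF
import Pool.Agent.N438.SX.CST1
import Pool.Agent.N438.SX.CST
import Pool.Agent.N277.SX.GT
import Pool.Agent.N999.SX.Str

/-!
Varieties dominated by the product of a variety and a curve: all parts together.
-/

set_option autoImplicit false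
set_option linter.overlappingInstances false
set_option linter.unusedSectionVars false
set_option linter.unusedVariables false
set_option maxHeartbeats 4000000
set_option synthInstance.maxHeartbeats 400000

open Polynomial FF IntermediateField Module

namespace Pool.Agent.N145.SX

open Pool.Agent.W603.LV Pool.Agent.W619.PQ Pool.Agent.N145.PC Pool.Agent.N145.PL
open Pool.Agent.W602.GT (Divisorial RegAt IsPluri DerReg DerLog LogAt KodGe LogSec Psef)
open Pool.Agent.R882.LT (SecAt LogGenusZero)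
open Pool.Agent.W619.PL (IsA1Uniruled)

theorem sec : S_SEC := Pool.Agent.N221.SX.SEC Pool.Agent.N123.SX.PULL

theorem closed : S_CLOSED := Pool.Agent.N160.SX.CLOSED

theorem fib : S_FIB := Pool.Agent.N279.SX.FIB closed

theorem erase : S_ERASE := Pool.Agent.N603.SX.ERASE closed fib

theorem geo : S_GEO := Pool.Agent.N545.SX.GEO closed fib

theorem cst : S_CST := Pool.Agent.N438.SX.CST (Pool.Agent.N438.SX.CST1 Pool.Agent.N281.SX.REGF)

theorem str : S_STR := Pool.Agent.N999.SX.STR cst Pool.Agent.N277.SX.GT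

section

variable {K : Type} [Field K] [Algebra ℂ K] {n : ℕ} {L : Type} [Field L] [Algebra ℂ L]
  [Algebra L K] [IsScalarTower ℂ L K] [FiniteDimensional L K]

theorem structure_all [Algebra.EssFiniteType ℂ K] {E C : IntermediateField ℂ K}
    [Algebra.EssFiniteType ℂ E] [IsFF ℂ C]
    (hsup : E ⊔ C = ⊤) (hE : Algebra.trdeg ℂ E = n) (hK : Algebra.trdeg ℂ K = (n + 1 : ℕ))
    {x : Fin n → E} (hx : IsTranscendenceBasis ℂ x) {g : ℕ} (hsep : SepX x (fun _ => False) g)
    (hd : 2 * finrank L (IntermediateField.adjoin L (E : Set K)) < g) :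
    KodGe ℂ L (n + 1) (fun _ => False) n ∨ ∃ N : IntermediateField ℂ L,
      (∀ z : L, IsAlgebraic N z → z ∈ N) ∧ Algebra.trdeg ℂ N = n ∧
      KodGe ℂ N n (fun _ => False) n ∧ ∃ (M : Type) (_ : Field M) (_ : Algebra N M),
        Algebra.IsAlgebraic N M ∧ Nonempty (L →ₐ[N] RatFunc M) :=
  structureX sec closed geo str hsup hE hK hx hsep hd

theorem dichotomy_all [Algebra.EssFiniteType ℂ K] {E C : IntermediateField ℂ K}
    [Algebra.EssFiniteType ℂ E] [IsFF ℂ C]
    (hsup : E ⊔ C = ⊤) (hE : Algebra.trdeg ℂ E = n) (hK : Algebra.trdeg ℂ K = (n + 1 : ℕ))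
    {x : Fin n → E} (hx : IsTranscendenceBasis ℂ x) {BX : Place ℂ E → Prop}
    {B : Set (Place ℂ C)} (hBf : B.Finite) {BL : Place ℂ L → Prop}
    (hB : ∀ (P : Place ℂ L) (Q : Place ℂ K) (e : ℕ), Over Q P e → (BL P ↔ BdX BX B Q))
    {g : ℕ} (hsep : SepX x BX g)
    (hd : 2 * finrank L (IntermediateField.adjoin L (E : Set K)) < g) :
    [Psef ℂ L (n + 1) BL, KodGe ℂ L (n + 1) BL n, ¬ IsA1Uniruled ℂ L (n + 1) BL].TFAE := by
  have hL : Algebra.trdeg ℂ L = (n + 1 : ℕ) := Pool.Agent.Y184.NT.trdeg_below (K := K) hK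
  have hessL : Algebra.EssFiniteType ℂ L := Pool.Agent.TH466.QG.ess_below (K := K)
  have h := dichotomyX sec closed erase hsup hE hK hx hBf hB hsep hd
  tfae_have 1 → 3 := fun h1 h2 => not_psef_of_a1 hL h2 h1
  tfae_have 3 → 2 := fun h1 => h.resolve_left h1
  tfae_have 2 → 1 := psef_of_kodGe'
  tfae_finish

theorem genus_all [Algebra.EssFiniteType ℂ K] {E C : IntermediateField ℂ K}
    [Algebra.EssFiniteType ℂ E] [IsFF ℂ C]
    (hsup : E ⊔ C = ⊤) (hE : Algebra.trdeg ℂ E = n) (hK : Algebra.trdeg ℂ K = (n + 1 : ℕ))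
    {x : Fin n → E} (hx : IsTranscendenceBasis ℂ x) {BX : Place ℂ E → Prop}
    {B : Set (Place ℂ C)} (hBf : B.Finite) {BL : Place ℂ L → Prop}
    (hB : ∀ (P : Place ℂ L) (Q : Place ℂ K) (e : ℕ), Over Q P e → (BL P ↔ BdX BX B Q))
    {g : ℕ} (hsep : SepX x BX g)
    (hd : finrank L (IntermediateField.adjoin L (E : Set K)) < g) :
    [LogGenusZero L (n + 1) BL, ¬ KodGe ℂ L (n + 1) BL 0, ¬ Psef ℂ L (n + 1) BL,
      IsA1Uniruled ℂ L (n + 1) BL].TFAE := by
  have hL : Algebra.trdeg ℂ L = (n + 1 : ℕ) := Pool.Agent.Y184.NT.trdeg_below (K := K) hK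
  have hessL : Algebra.EssFiniteType ℂ L := Pool.Agent.TH466.QG.ess_below (K := K)
  exact tfaeL hL (one_fibreX sec closed erase hsup hE hK hx hBf hB hsep hd)

end

end Pool.Agent.N145.SX
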