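import Pool.Agent.N145.SX.All
import Pool.Agent.N27.SX.Cstr
import Pool.Agent.N615.SX.ALG
import Pool.Agent.N999.SX.FG
import Pool.Agent.N297.SX.Uni

/-!
Varieties covered by unirational varieties with a multivalued map to a variety whose canonical forms
separate points: all parts together.
-/

set_option autoImplicit false
set_option linter.overlappingInstances false

namespace Pool.Agent.N145.SX

theorem uni : S_UNI :=
  Pool.Agent.N297.SX.UNI (Pool.Agent.N27.SX.cstr cst) Pool.Agent.N615.SX.ALG Pool.Agent.N999.SX.FG
    (GT2 Pool.Agent.N123.SX.PULL)

end Pool.Agent.N145.SX
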