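import Pool.Agent.N145.SX.Tri
import Pool.Agent.N999.SX.Str

/-!
Varieties dominated by the product of a variety and a curve: the canonical map, and fibrations in
curves of genus at most one.
-/

set_option autoImplicit false
set_option linter.overlappingInstances false
set_option linter.unusedSectionVars false
set_option linter.unusedVariables false
set_option maxHeartbeats 4000000
set_option synthInstance.maxHeartbeats 400000

open Polynomial FF IntermediateField Module

namespace Pool.Agent.N145.SX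

open Pool.Agent.W603.LV Pool.Agent.W619.PQ Pool.Agent.N145.PC Pool.Agent.N145.PL
open Pool.Agent.W602.GT (Divisorial RegAt IsPluri DerReg DerLog LogAt KodGe LogSec Psef)
open Pool.Agent.Y184.NT (trForm trForm_pluri)
open Pool.Agent.R882.LT (SecAt LogGenusZero)

open scoped Classical

section

variable {K : Type} [Field K] [Algebra ℂ K] {n : ℕ} {L : Type} [Field L] [Algebra ℂ L]
  [Algebra L K] [IsScalarTower ℂ L K] [FiniteDimensional L K]

/-- **The canonical map.** -/
theorem langX (hsec : S_SEC) (hclosed : S_CLOSED) (hgeo : S_GEO) (hcst : S_CST) (hgt : S_GT)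
    (hcov : S_COV) (hfg : S_FG) (hgt2 : S_GT2)
    [hess : Algebra.EssFiniteType ℂ K] {E C : IntermediateField ℂ K} [Algebra.EssFiniteType ℂ E]
    [IsFF ℂ C] (hsup : E ⊔ C = ⊤) (hE : Algebra.trdeg ℂ E = n)
    (hK : Algebra.trdeg ℂ K = (n + 1 : ℕ)) {x : Fin n → E} (hx : IsTranscendenceBasis ℂ x) {g : ℕ}
    (hsep : SepX x (fun _ => False) g)
    (hd : 2 * finrank L (IntermediateField.adjoin L (E : Set K)) < g) :
    CanGe L (n + 1) (n + 1) ∨
    ∃ N : IntermediateField ℂ L, (∀ z : L, IsAlgebraic N z → z ∈ N) ∧ Algebra.trdeg ℂ N = n ∧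
      KodGe ℂ N n (fun _ => False) n ∧ GeoFib L N := by
  have hL : Algebra.trdeg ℂ L = (n + 1 : ℕ) := Pool.Agent.Y184.NT.trdeg_below (K := K) hK
  have hessL : Algebra.EssFiniteType ℂ L := Pool.Agent.TH466.QG.ess_below (K := K)
  obtain ⟨t, ht⟩ := IsFF.exists_transcendental (k := ℂ) (K := C)
  obtain ⟨D0, hD0⟩ := exists_D ht
  obtain ⟨hna, -, hcl⟩ := hclosed K n E C hsup hE hK
  obtain ⟨y, G, h, hy, hG, hh, hreg, hval⟩ := exists_traceX (L := L) (BL := fun _ => False) hsec hE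
    hK hx (fun _ => False) ht (basis_zz hK hx (hna t ht)) hD0 (∅ : Set (Place ℂ C))
    fun P Q e h1 h2 => by
      rcases h2 with ⟨_, _, h3, -⟩ | ⟨_, h3, -⟩
      · exact h3
      · exact h3
  have hge := hgeo K n E C hsup hE hK x hx t ht D0 hD0 L h hval
  have hfin : (∀ φ ∈ HL D0 (∅ : Set (Place ℂ C)),
      Algebra.trace (IntermediateField.adjoin L (E : Set K)) K (h * (φ : K)) = 0) →
      ∃ N : IntermediateField ℂ L,
      (∀ z : L, IsAlgebraic N z → z ∈ N) ∧ Algebra.trdeg ℂ N = n ∧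
      KodGe ℂ N n (fun _ => False) n ∧ GeoFib L N := by
    intro h0
    obtain ⟨s, hs, hsL⟩ := hge h0
    have hconst := Pool.Agent.N999.SX.const_E hcst E hE hx hsep hd hs hsL
    have hfirst : ∀ z ∈ E, IsAlgebraic (E.comap (IsScalarTower.toAlgHom ℂ L K)) z := fun z hz =>
      alg_of_const E hcl fun τ => hconst τ z hz
    obtain ⟨h2, h3⟩ := Pool.Agent.N999.SX.base hgt E hE hcl hx hsep hd hfirst
    refine ⟨_, fun z hz => closed_comap _ hcl hz, h2, h3, ?_⟩
    refine hcov K n E C hsup hE hK x hx t ht D0 hD0 L h hval 0 (fun φ hφ => ⟨0, ?_⟩) _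
      (fun z hz => isAlgebraic_algebraMap (⟨algebraMap L K z, hz⟩ : E)) hfirst
    rw [h0 φ hφ]
    simp
  obtain ⟨τ0⟩ : Nonempty (K →ₐ[L] AlgebraicClosure L) :=
    ⟨IsAlgClosed.lift (R := L) (M := AlgebraicClosure L) (S := K)⟩
  have hT' : IsScalarTower ℂ L (AlgebraicClosure L) := inferInstance
  by_cases hz : ∀ φ ∈ HL D0 (∅ : Set (Place ℂ C)),
      Algebra.trace (IntermediateField.adjoin L (E : Set K)) K (h * (φ : K)) = 0
  · exact Or.inr (hfin hz)
  push Not at hz
  obtain ⟨ψ0, hψ0, hS0⟩ := hz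
  let I := {p : E × C // p.1 ∈ HX x (fun _ => False) ∧ p.2 ∈ HL D0 (∅ : Set (Place ℂ C))}
  obtain ⟨T, hT⟩ : ∃ T : I → L, ∀ p, T p =
    Algebra.trace L K (h * (algebraMap E K p.1.1 * algebraMap C K p.1.2)) := ⟨_, fun _ => rfl⟩
  obtain ⟨p1, hp1⟩ : ∃ p, T p ≠ 0 := by
    by_contra hT0
    push Not at hT0
    apply hS0
    refine rel_oneI hsep (by omega) (H := {z | ∃ φ ∈ HL D0 (∅ : Set (Place ℂ C)), z = (φ : K)})
      (fun f hf φ hφ => ?_) ⟨ψ0, hψ0, rfl⟩
    obtain ⟨ψ, hψ, rfl⟩ := hφ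
    have h1 := hT0 ⟨(f, ψ), hf, hψ⟩
    rw [hT] at h1
    exact h1
  obtain ⟨Ω', iF, iA, iC, i1, i2, lam, hlam, hlamT, hpts⟩ := exists_pts T (f1 := p1) hp1
  have hlamT' : ∀ f ∈ HX x (fun _ => False),
      ∀ φ ∈ {z : K | ∃ φ ∈ HL D0 (∅ : Set (Place ℂ C)), z = (φ : K)},
      i2 (algebraMap L (AlgebraicClosure L) (Algebra.trace L K (h * (algebraMap E K f * φ)))) =
      lam * i1 (algebraMap L (AlgebraicClosure L)
        (Algebra.trace L K (h * (algebraMap E K f * φ)))) := by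
    intro f hf φ hφ
    obtain ⟨ψ, hψ, rfl⟩ := hφ
    have h1 := hlamT ⟨(f, ψ), hf, hψ⟩
    rw [hT] at h1
    exact h1
  rcases rel_twoI hsep hd (H := {z | ∃ φ ∈ HL D0 (∅ : Set (Place ℂ C)), z = (φ : K)}) (h := h)
      hlam hlamT' τ0 with ⟨τ, hτ⟩ | h2
  swap
  · exact absurd (h2 _ ⟨ψ0, hψ0, rfl⟩) hS0
  have hEset : (E : Set K) = Set.range (algebraMap E K) := by
    ext z
    exact ⟨fun hz => ⟨⟨z, hz⟩, rfl⟩, by rintro ⟨y, rfl⟩; exact y.2⟩
  -- the functions of `X` are algebraic over the ratios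
  have hEalg : ∀ z : E, IsAlgebraic (Rt T) (z : K) := fun z =>
    alg_back τ0 (hpts _ _ (hτ z).symm)
  -- the general case
  have hgen : ∀ u : K, ¬ IsAlgebraic E u → IsAlgebraic (Rt T) u → CanGe L (n + 1) (n + 1) := by
    intro u hu hu'
    refine canGe_of_alg hL hG T ⟨p1, hp1⟩ (fun p P hP => ?_) (trdeg_adj (indep_snoc hx hu))
      fun j => ?_
    · rw [hT]
      exact (hreg p.1.1 p.2.1 p.1.2 p.2.2 P hP).2 (fun h => h)
    · induction j using Fin.lastCases with
      | last =>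
        rw [Fin.snoc_last]
        exact hu'
      | cast i =>
        rw [Fin.snoc_castSucc]
        exact hEalg (x i)
  by_cases hex : ∃ u : K, ¬ IsAlgebraic E u ∧ IsAlgebraic (Rt T) u
  · obtain ⟨u, hu, hu'⟩ := hex
    exact Or.inl (hgen u hu hu')
  push Not at hex
  have hall : ∀ u : K, IsAlgebraic (Rt T) u → u ∈ E := fun u hu => by
    by_contra hcon
    exact hex u (fun h => hcon (hcl u h)) hu
  -- the ratios of the traces
  have hrat : ∀ φ ∈ HL D0 (∅ : Set (Place ℂ C)), ∃ c : E,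
      ((Algebra.trace (IntermediateField.adjoin L (E : Set K)) K (h * (φ : K)) :
        IntermediateField.adjoin L (E : Set K)) : K) = (c : K) *
      ((Algebra.trace (IntermediateField.adjoin L (E : Set K)) K (h * (ψ0 : K)) :
        IntermediateField.adjoin L (E : Set K)) : K) := by
    intro φ hφ
    have hr : ∀ ψ ∈ HL D0 (∅ : Set (Place ℂ C)),
        i2 (τ ((Algebra.trace (IntermediateField.adjoin L (E : Set K)) K (h * (ψ : K)) :
          IntermediateField.adjoin L (E : Set K)) : K)) =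
        lam * i1 (τ0 ((Algebra.trace (IntermediateField.adjoin L (E : Set K)) K (h * (ψ : K)) :
          IntermediateField.adjoin L (E : Set K)) : K)) := by
      intro ψ hψ
      rw [hEset] at hd ⊢
      exact rel_two2 E hsep hd (H := {z | ∃ φ ∈ HL D0 (∅ : Set (Place ℂ C)), z = (φ : K)})
        (h := h) hlam hlamT' τ0 τ hτ ⟨ψ, hψ, rfl⟩
    obtain ⟨a, ha⟩ : ∃ a : K, a = ((Algebra.trace (IntermediateField.adjoin L (E : Set K)) K
      (h * (φ : K)) : IntermediateField.adjoin L (E : Set K)) : K) := ⟨_, rfl⟩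
    obtain ⟨b, hb⟩ : ∃ b : K, b = ((Algebra.trace (IntermediateField.adjoin L (E : Set K)) K
      (h * (ψ0 : K)) : IntermediateField.adjoin L (E : Set K)) : K) := ⟨_, rfl⟩
    have hb0 : b ≠ 0 := by
      rw [hb]
      intro h0
      exact hS0 (Subtype.ext h0)
    have h1 := hr φ hφ
    have h2 := hr ψ0 hψ0
    rw [← ha] at h1 ⊢
    rw [← hb] at h2 ⊢
    have h3 : i1 (τ0 (a / b)) = i2 (τ (a / b)) := by
      rw [map_div₀, map_div₀, map_div₀, map_div₀, h1, h2, mul_div_mul_left _ _ hlam]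
    have h4 := hall _ (alg_back τ0 (hpts _ _ h3))
    exact ⟨⟨a / b, h4⟩, (div_mul_cancel₀ a hb0).symm⟩
  -- the base
  obtain ⟨N, hN⟩ : ∃ N : IntermediateField ℂ L, N = (algebraicClosure (Rt T) L).restrictScalars ℂ :=
    ⟨_, rfl⟩
  have hNmem : ∀ z : L, z ∈ N ↔ IsAlgebraic (Rt T) z := by
    intro z
    rw [hN, mem_restrictScalars]
    exact mem_algebraicClosure_iff
  have hRN : Rt T ≤ N := fun z hz => (hNmem z).2 (isAlgebraic_algebraMap (⟨z, hz⟩ : Rt T))
  have hNcl : ∀ z : L, IsAlgebraic N z → z ∈ N := by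
    intro z hz
    rw [hNmem]
    subst hN
    have h1 : IsAlgebraic (algebraicClosure (Rt T) L) z := hz
    exact h1.restrictScalars (Rt T)
  have hNE : ∀ z ∈ N, algebraMap L K z ∈ E := by
    intro z hz
    have h7 : IsAlgebraic (Rt T) (algebraMap L K z) := ((hNmem z).1 hz).algebraMap
    exact hall _ h7
  have hEN : ∀ z ∈ E, IsAlgebraic N z := by
    intro z hz
    obtain ⟨p, hp0, hp⟩ := hEalg ⟨z, hz⟩
    let f : Rt T →+* N := (IntermediateField.inclusion hRN).toRingHom
    refine ⟨p.map f, (Polynomial.map_ne_zero_iff f.injective).2 hp0, ?_⟩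
    rw [Polynomial.aeval_def, Polynomial.eval₂_map]
    exact hp
  let ι : N →ₐ[ℂ] E :=
    { toFun := fun z => ⟨algebraMap L K (z : L), hNE z z.2⟩
      map_one' := Subtype.ext (by simp)
      map_mul' := fun a b => Subtype.ext (by simp)
      map_zero' := Subtype.ext (by simp)
      map_add' := fun a b => Subtype.ext (by simp)
      commutes' := fun c => Subtype.ext (by
        change algebraMap L K (algebraMap ℂ L c) = algebraMap ℂ K c
        rw [← IsScalarTower.algebraMap_apply]) }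
  have hNtr : Algebra.trdeg ℂ N ≤ n := by
    rw [← hE]
    exact trdeg_le_of_injective ι ι.injective
  obtain ⟨h5, h6⟩ := Pool.Agent.N297.SX.baseKod hfg hgt2 E hE x hx hsep hd N hNcl hEN hNtr
  refine Or.inr ⟨N, hNcl, h5, h6, ?_⟩
  exact hcov K n E C hsup hE hK x hx t ht D0 hD0 L h hval _ hrat N
    (fun z hz => isAlgebraic_algebraMap (⟨algebraMap L K z, hNE z hz⟩ : E)) hEN

end

end Pool.Agent.N145.SX
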