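import Pool.Agent.N145.SX.Rev
import Pool.Agent.N145.SX.Lang

/-!
Varieties dominated by the product of a variety and a curve: general type, and coverings by curves of
genus at most one.
-/

set_option autoImplicit false
set_option linter.overlappingInstances false
set_option linter.unusedSectionVars false
set_option linter.unusedVariables false
set_option maxHeartbeats 4000000
set_option synthInstance.maxHeartbeats 400000

open Polynomial FF IntermediateField Module

namespace Pool.Agent.N145.SX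

open Pool.Agent.W603.LV Pool.Agent.W619.PQ Pool.Agent.N145.PC Pool.Agent.N145.PL
open Pool.Agent.W602.GT (Divisorial RegAt IsPluri DerReg KodGe LogSec)

/-- the variety with the function field `L`, of dimension `n + 1`, is covered by an `n`-dimensional
family of curves of genus at most one -/
def Cov1 (L : Type) [Field L] [Algebra ℂ L] (n : ℕ) : Prop :=
  ∃ (Λ F : Type) (_ : Field Λ) (_ : Field F) (_ : Algebra ℂ Λ) (_ : Algebra ℂ F)
    (_ : Algebra Λ F) (_ : IsScalarTower ℂ Λ F) (_ : IsAlgClosed Λ) (_ : IsFF Λ F),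
    Algebra.trdeg ℂ Λ = n ∧ GLO Λ F ∧ Nonempty (L →ₐ[ℂ] F)

variable {L : Type} [Field L] [Algebra ℂ L]

theorem not_gt_of_cov1 [Algebra.EssFiniteType ℂ L] {n : ℕ}
    (hL : Algebra.trdeg ℂ L = (n + 1 : ℕ)) (h : Cov1 L n) :
    ¬ KodGe ℂ L (n + 1) (fun _ => False) (n + 1) := by
  obtain ⟨Λ, F, _, _, _, _, _, _, _, _, hΛ, hglo, ⟨φ⟩⟩ := h
  let _ : Algebra L F := φ.toRingHom.toAlgebra
  have hT : IsScalarTower ℂ L F := IsScalarTower.of_algebraMap_eq fun c => (φ.commutes c).symm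
  exact not_gt_of_cover hL hΛ hglo

/-- the fibres of a fibration cover the variety -/
theorem cov1_of_fib {n : ℕ} {N : IntermediateField ℂ L} (hN : Algebra.trdeg ℂ N = n)
    (h : GeoFib L N) : Cov1 L n := by
  obtain ⟨Λ, F, iΛ, iF, iNΛ, iNF, iΛF, iT, iC, ialg, iFF, ψ, -, hglo⟩ := h
  let a1 : Algebra ℂ Λ := ((algebraMap N Λ).comp (algebraMap ℂ N)).toAlgebra
  let a2 : Algebra ℂ F := ((algebraMap Λ F).comp (algebraMap ℂ Λ)).toAlgebra
  have t1 : IsScalarTower ℂ Λ F := IsScalarTower.of_algebraMap_eq fun c => rfl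
  have t2 : IsScalarTower ℂ N Λ := IsScalarTower.of_algebraMap_eq fun c => rfl
  refine ⟨Λ, F, iΛ, iF, a1, a2, iΛF, t1, iC, iFF, ?_, hglo, ⟨⟨ψ.toRingHom, fun c => ?_⟩⟩⟩
  · have h1 := trdeg_add_eq ℂ N (A := Λ)
    have h2 : Algebra.trdeg N Λ = 0 := by
      rw [trdeg_eq_zero_iff]
      exact ialg
    rw [h2, add_zero, hN] at h1
    exact h1.symm
  · have h1 := ψ.commutes (algebraMap ℂ N c)
    change ψ (algebraMap ℂ L c) = _
    have h2 : (algebraMap N L) (algebraMap ℂ N c) = algebraMap ℂ L c := rfl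
    rw [← h2, h1, IsScalarTower.algebraMap_apply N Λ F]
    rfl

theorem kodGe_of_canGe {N d : ℕ} (h : CanGe L N d) : KodGe ℂ L N (fun _ => False) d := by
  obtain ⟨ω, hω, D, hD, hind⟩ := h
  exact ⟨1, one_pos, ω, fun j => ⟨(hω j).1, fun P hP D' hD' => (hω j).2 P hP D' fun i =>
    Pool.Agent.TH466.QG.derReg_of_log (hD' i), fun P hP _ => (hω j).2 P hP⟩, D, hD, hind⟩

/-- **General type, the canonical map, and coverings by curves of genus at most one.** -/
theorem lang_tfae (hsec : S_SEC) (hclosed : S_CLOSED) (hgeo : S_GEO) (hcst : S_CST) (hgt : S_GT)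
    (hcov : S_COV) (hfg : S_FG) (hgt2 : S_GT2) {K : Type} [Field K] [Algebra ℂ K]
    [hess : Algebra.EssFiniteType ℂ K] {n : ℕ} [Algebra L K] [IsScalarTower ℂ L K]
    [FiniteDimensional L K] {E C : IntermediateField ℂ K} [Algebra.EssFiniteType ℂ E]
    [IsFF ℂ C] (hsup : E ⊔ C = ⊤) (hE : Algebra.trdeg ℂ E = n)
    (hK : Algebra.trdeg ℂ K = (n + 1 : ℕ)) {x : Fin n → E} (hx : IsTranscendenceBasis ℂ x) {g : ℕ}
    (hsep : SepX x (fun _ => False) g)
    (hd : 2 * finrank L (IntermediateField.adjoin L (E : Set K)) < g) :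
    [KodGe ℂ L (n + 1) (fun _ => False) (n + 1), CanGe L (n + 1) (n + 1), ¬ Cov1 L n,
      ¬ ∃ N : IntermediateField ℂ L, (∀ z : L, IsAlgebraic N z → z ∈ N) ∧ Algebra.trdeg ℂ N = n ∧
      KodGe ℂ N n (fun _ => False) n ∧ GeoFib L N].TFAE := by
  have hL : Algebra.trdeg ℂ L = (n + 1 : ℕ) := Pool.Agent.Y184.NT.trdeg_below (K := K) hK
  have hessL : Algebra.EssFiniteType ℂ L := Pool.Agent.TH466.QG.ess_below (K := K)
  tfae_have 1 → 3 := fun h hc => not_gt_of_cov1 hL hc h
  tfae_have 3 → 4 := fun h hf => by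
    obtain ⟨N, -, hN, -, hG⟩ := hf
    exact h (cov1_of_fib hN hG)
  tfae_have 4 → 2 := fun h => by
    rcases langX hsec hclosed hgeo hcst hgt hcov hfg hgt2 hsup hE hK hx hsep hd with h1 | h1
    · exact h1
    · exact absurd h1 h
  tfae_have 2 → 1 := kodGe_of_canGe
  tfae_finish

end Pool.Agent.N145.SX
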