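import Pool.Agent.N145.SX.All
import Pool.Agent.N145.SX.Cover
import Pool.Agent.N273.SX.FIB1
import Pool.Agent.N459.SX.COV
import Pool.Agent.N999.SX.FG

/-!
Varieties dominated by the product of a variety and a curve, general type, and coverings by curves of
genus at most one: all parts together.
-/

set_option autoImplicit false
set_option linter.overlappingInstances false
set_option linter.unusedSectionVars false
set_option linter.unusedVariables false
set_option maxHeartbeats 4000000
set_option synthInstance.maxHeartbeats 400000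

open Polynomial FF IntermediateField Module

namespace Pool.Agent.N145.SX

open Pool.Agent.W603.LV Pool.Agent.W619.PQ Pool.Agent.N145.PC Pool.Agent.N145.PL
open Pool.Agent.W602.GT (Divisorial RegAt IsPluri DerReg KodGe LogSec GeneralType)

theorem cov : S_COV := Pool.Agent.N459.SX.COV closed (Pool.Agent.N273.SX.FIB1 closed)

theorem lang_all {K : Type} [Field K] [Algebra ℂ K] [Algebra.EssFiniteType ℂ K] {n : ℕ}
    {L : Type} [Field L] [Algebra ℂ L] [Algebra L K] [IsScalarTower ℂ L K]
    [FiniteDimensional L K] {E C : IntermediateField ℂ K} [Algebra.EssFiniteType ℂ E]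
    [IsFF ℂ C] (hsup : E ⊔ C = ⊤) (hE : Algebra.trdeg ℂ E = n)
    (hK : Algebra.trdeg ℂ K = (n + 1 : ℕ)) {x : Fin n → E} (hx : IsTranscendenceBasis ℂ x) {g : ℕ}
    (hsep : SepX x (fun _ => False) g)
    (hd : 2 * finrank L (IntermediateField.adjoin L (E : Set K)) < g) :
    [KodGe ℂ L (n + 1) (fun _ => False) (n + 1), CanGe L (n + 1) (n + 1), ¬ Cov1 L n,
      ¬ ∃ N : IntermediateField ℂ L, (∀ z : L, IsAlgebraic N z → z ∈ N) ∧ Algebra.trdeg ℂ N = n ∧
      KodGe ℂ N n (fun _ => False) n ∧ GeoFib L N].TFAE :=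
  lang_tfae sec closed geo cst Pool.Agent.N277.SX.GT cov Pool.Agent.N999.SX.FG
    (GT2 Pool.Agent.N123.SX.PULL) hsup hE hK hx hsep hd

/-- general type -/
theorem kodGe_iff {L : Type} [Field L] [Algebra ℂ L] {w : ℕ} (hL : Algebra.trdeg ℂ L = w) :
    KodGe ℂ L w (fun _ => False) w ↔ GeneralType ℂ L w := by
  constructor
  · rintro ⟨N, hN, ω, hω, D, hD, hind⟩
    exact ⟨hL, N, hN, ω, fun j => (hω j).1, fun P hP j => (hω j).2.2 P hP (fun h => h), D, hD,
      hind⟩
  · rintro ⟨-, N, hN, ω, h1, h2, D, hD, hind⟩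
    exact ⟨N, hN, ω, fun j => ⟨h1 j, fun P hP D' hD' => h2 P hP j D' fun i =>
      Pool.Agent.TH466.QG.derReg_of_log (hD' i), fun P hP _ => h2 P hP j⟩, D, hD, hind⟩

end Pool.Agent.N145.SX
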