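import Pool.Agent.N145.SX.Stm

/-!
Varieties dominated by products of several varieties and a curve: statements.
-/

set_option autoImplicit false
set_option linter.overlappingInstances false
set_option linter.unusedSectionVars false

open Polynomial FF IntermediateField Module

namespace Pool.Agent.N145.SX

open Pool.Agent.W603.LV Pool.Agent.W619.PQ Pool.Agent.N145.PC Pool.Agent.N145.PL
open Pool.Agent.W602.GT (Divisorial RegAt IsPluri DerReg DerLog LogAt KodGe LogSec)
open Pool.Agent.Y184.NT (trForm)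
open Pool.Agent.R882.LT (SecAt)

/-- **Products of logarithmic canonical forms on two varieties.** -/
def S_SEC2 : Prop :=
  ∀ (K E F : Type) [Field K] [Field E] [Field F] [Algebra ℂ K] [Algebra ℂ E] [Algebra ℂ F]
    [Algebra E K] [Algebra F K] [IsScalarTower ℂ E K] [IsScalarTower ℂ F K]
    [Algebra.EssFiniteType ℂ E] [Algebra.EssFiniteType ℂ F] (m n : ℕ), Algebra.trdeg ℂ E = m →
    Algebra.trdeg ℂ F = n → Algebra.trdeg ℂ K = (m + n : ℕ) →
    ∀ x : Fin m → E, IsTranscendenceBasis ℂ x → ∀ y : Fin n → F, IsTranscendenceBasis ℂ y →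
    ∀ (BX : Place ℂ E → Prop) (BY : Place ℂ F → Prop), ∀ f ∈ HX x BX, ∀ g ∈ HX y BY,
    algebraMap E K f * algebraMap F K g ∈ HX (Fin.append (fun i => algebraMap E K (x i))
      (fun j => algebraMap F K (y j))) (fun Q : Place ℂ K =>
        (∃ (P : Place ℂ E) (e : ℕ), BX P ∧ Over Q P e) ∨
        ∃ (P : Place ℂ F) (e : ℕ), BY P ∧ Over Q P e)

end Pool.Agent.N145.SX
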