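import Pool.Agent.N145.SX.Stm3

/-!
Curves of genus at most one.
-/

set_option autoImplicit false
set_option linter.overlappingInstances false
set_option linter.unusedSectionVars false
set_option linter.unusedVariables false
set_option maxHeartbeats 4000000
set_option synthInstance.maxHeartbeats 400000

open Polynomial FF IntermediateField Module

namespace Pool.Agent.N145.SX

open Pool.Agent.W603.LV Pool.Agent.W619.PQ Pool.Agent.N145.PC Pool.Agent.N145.PL
open Pool.Agent.W602.GT (Divisorial RegAt IsPluri DerReg DerLog LogAt KodGe LogSec)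

section

variable {Λ F : Type} [Field Λ] [Field F] [Algebra Λ F]

/-- a form on a multiple of a derivation -/
theorem pluri_smul {ω : (Fin 1 → Derivation Λ F F) → F} (hω : IsPluri 1 ω) (u : F)
    (D : Derivation Λ F F) : ω (fun _ => u • D) = u * ω (fun _ => D) := by
  have h1 := hω (Matrix.of fun _ _ => u) (fun _ => D)
  have h2 : (fun i : Fin 1 => ∑ j : Fin 1, (Matrix.of fun _ _ => u : Matrix (Fin 1) (Fin 1) F) i j •
      D) = fun _ => u • D := by
    funext i
    simp
  rw [h2, pow_one, Matrix.det_unique] at h1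
  exact h1

variable [CharZero Λ] [IsAlgClosed Λ] [IsFF Λ F]

/-- the value of a regular differential -/
theorem val_mem {ω : (Fin 1 → Derivation Λ F F) → F} (hω : IsPluri 1 ω)
    (hreg : ∀ P : Place Λ F, RegAt P ω) {D : Derivation Λ F F} (hD : D ≠ 0) :
    ω (fun _ => D) ∈ HL D (∅ : Set (Place Λ F)) := by
  intro P
  have hπ := ord_unif P
  have h0 := der_pi_ne_zero hD P hπ
  obtain ⟨D1, hD1⟩ : ∃ D1, D1 = (D (unif P))⁻¹ • D := ⟨_, rfl⟩
  have h1 : D1 (unif P) = 1 := by
    rw [hD1]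
    simp [h0]
  have h2 : D = D (unif P) • D1 := by
    rw [hD1, smul_smul, mul_inv_cancel₀ h0, one_smul]
  have h3 : P.Reg (ω (fun _ => D1)) := hreg P _ fun _ f hf => der_reg P hπ D1 h1 hf
  have h4 : ω (fun _ => D) = D (unif P) * ω (fun _ => D1) := by
    conv_lhs => rw [h2]
    exact pluri_smul hω _ _
  have h5 : bd (∅ : Set (Place Λ F)) P = 0 := by
    unfold bd
    rw [if_neg (Set.notMem_empty P)]
  rw [h4, h5, sub_zero]
  have h6 : Ge P (vo P D) (D (unif P)) := Or.inr le_rfl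
  have h7 : Ge P 0 (ω (fun _ => D1)) := h3
  simpa using h6.mul h7

/-- **Curves of genus at most one.** -/
theorem prop_of_glo (h : GLO Λ F) {ω₁ ω₂ : (Fin 1 → Derivation Λ F F) → F} (h1 : IsPluri 1 ω₁)
    (hr1 : ∀ P : Place Λ F, RegAt P ω₁) (h2 : IsPluri 1 ω₂) (hr2 : ∀ P : Place Λ F, RegAt P ω₂) :
    ∃ a b : Λ, (a ≠ 0 ∨ b ≠ 0) ∧ ∀ D, algebraMap Λ F a * ω₁ D = algebraMap Λ F b * ω₂ D := by
  obtain ⟨x, hx⟩ := IsFF.exists_transcendental (k := Λ) (K := F)
  obtain ⟨D, hD⟩ := exists_D (k := Λ) hx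
  have hD0 : D ≠ 0 := by
    rintro rfl
    exact zero_ne_one hD
  obtain ⟨a, b, hab, he⟩ := h D hD0 _ (val_mem h1 hr1 hD0) _ (val_mem h2 hr2 hD0)
  refine ⟨a, b, hab, fun D' => ?_⟩
  obtain ⟨u, hu⟩ := der_smul (D' := D' 0) hD0
  have h3 : D' = fun _ => u • D := by
    funext i
    rw [Subsingleton.elim i 0, hu]
  rw [h3, pluri_smul h1, pluri_smul h2]
  linear_combination u * he

end

end Pool.Agent.N145.SX
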