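import Pool.Agent.N145.SX.GT2

/-!
Separation of points by canonical forms, without coordinates.
-/

set_option autoImplicit false
set_option linter.overlappingInstances false
set_option linter.unusedSectionVars false
set_option linter.unusedVariables false
set_option maxHeartbeats 4000000
set_option synthInstance.maxHeartbeats 400000

open Polynomial FF IntermediateField Module

namespace Pool.Agent.N145.SX

open Pool.Agent.W603.LV Pool.Agent.W619.PQ Pool.Agent.N145.PC Pool.Agent.N145.PL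
open Pool.Agent.W602.GT (Divisorial RegAt IsPluri DerReg DerLog LogAt KodGe LogSec Psef)
open Pool.Agent.Y184.NT (trForm trForm_pluri)
open Pool.Agent.R882.LT (SecAt LogGenusZero)

section

variable {E : Type} [Field E] [Algebra ℂ E] {m : ℕ} {x : Fin m → E}
  {D : Fin m → Derivation ℂ E E}

/-- dual derivations are linearly independent -/
theorem dual_indep (hD : ∀ i j, D i (x j) = if i = j then 1 else 0) : LinearIndependent E D := by
  classical
  rw [Fintype.linearIndependent_iff]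
  intro c hc i
  have h1 : (∑ j, c j • D j : Derivation ℂ E E) (x i) = 0 := by
    rw [hc]
    rfl
  have h2 : (∑ j, c j • D j : Derivation ℂ E E) (x i) = ∑ j, c j * D j (x i) :=
    Pool.Agent.W73.PG.PULL.sum_app _ _ _
  rw [h2] at h1
  simp only [hD, mul_ite, mul_one, mul_zero, Finset.sum_ite_eq', Finset.mem_univ, if_true] at h1
  exact h1

/-- a form in coordinates -/
theorem form_coord (hx : IsTranscendenceBasis ℂ x)
    (hD : ∀ i j, D i (x j) = if i = j then 1 else 0) {ω : (Fin m → Derivation ℂ E E) → E}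
    (hω : IsPluri 1 ω) : trForm x (ω D) = ω := by
  funext D'
  rw [Pool.Agent.Y172.pluri_coord hx hD hω D', pow_one]
  rfl

/-- **Separation of points in coordinates.** -/
theorem sepX_of (hx : IsTranscendenceBasis ℂ x) (hD : ∀ i j, D i (x j) = if i = j then 1 else 0)
    {BX : Place ℂ E → Prop} {r : ℕ}
    (h : ∀ (Ω : Type) [Field Ω] [Algebra ℂ Ω] [IsAlgClosed Ω] (A : Finset (E →ₐ[ℂ] Ω)),
      A.card ≤ r → ∀ c : (E →ₐ[ℂ] Ω) → Ω,
      (∀ ω, LogSec ℂ E m 1 BX ω → ∑ σ ∈ A, c σ * σ (ω D) = 0) → ∀ σ ∈ A, c σ = 0) :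
    SepX x BX (r + 1) := by
  intro Ω _ _ _ A hA c hc
  refine h Ω A (by omega) c fun ω hω => hc _ fun P hP => ?_
  rw [form_coord hx hD hω.1]
  exact ⟨hω.2.1 P hP, hω.2.2 P hP⟩

/-- the same for the regular canonical forms -/
theorem sepX_of' (hx : IsTranscendenceBasis ℂ x) (hD : ∀ i j, D i (x j) = if i = j then 1 else 0)
    {r : ℕ}
    (h : ∀ (Ω : Type) [Field Ω] [Algebra ℂ Ω] [IsAlgClosed Ω] (A : Finset (E →ₐ[ℂ] Ω)),
      A.card ≤ r → ∀ c : (E →ₐ[ℂ] Ω) → Ω,
      (∀ ω, IsPluri 1 ω → (∀ P : Place ℂ E, Divisorial m P → RegAt P ω) →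
        ∑ σ ∈ A, c σ * σ (ω D) = 0) → ∀ σ ∈ A, c σ = 0) :
    SepX x (fun _ => False) (r + 1) :=
  sepX_of hx hD fun Ω _ _ _ A hA c hc => h Ω A hA c fun ω h1 h2 => hc ω
    ⟨h1, fun P hP D' hD' => h2 P hP D' fun i => Pool.Agent.TH466.QG.derReg_of_log (hD' i),
      fun P hP _ => h2 P hP⟩

end

end Pool.Agent.N145.SX
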