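import Pool.Agent.N145.SX.Conv
import Pool.Agent.N145.PC.Dual
import Pool.Agent.W619.PQ.Genus
import Pool.Agent.W619.PQ.Curve

/-!
Curves of genus at most one: vector fields and pluricanonical forms.
-/

set_option autoImplicit false
set_option linter.overlappingInstances false
set_option linter.unusedSectionVars false
set_option linter.unusedVariables false
set_option maxHeartbeats 4000000
set_option synthInstance.maxHeartbeats 400000

open Polynomial FF IntermediateField Module

namespace Pool.Agent.N145.SX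

open Pool.Agent.W603.LV Pool.Agent.W619.PQ Pool.Agent.N145.PC Pool.Agent.N145.PL

section

variable {Λ F : Type} [Field Λ] [Field F] [Algebra Λ F] [CharZero Λ] [IsAlgClosed Λ] [IsFF Λ F]

/-- a function with one simple pole is a coordinate on the line -/
theorem rational_of_pole {b : F} {P : Place Λ F} (hb : P.ord b = -1)
    (hb' : ∀ Q : Place Λ F, Q ≠ P → 0 ≤ Q.ord b) : ∃ t : F, Λ⟮t⟯ = ⊤ := by
  have hbt : Transcendental Λ b := P.transcendental_of_ord_ne (by omega)
  obtain ⟨T, hT, hT2⟩ := poles (k := Λ) (K := F) hbt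
  have hTP : T = {P} := by
    ext Q
    rw [hT, Finset.mem_singleton]
    constructor
    · intro h
      by_contra hne
      have := hb' Q hne
      omega
    · rintro rfl
      omega
  rw [hTP, Finset.sum_singleton, hb, deg_one] at hT2
  refine ⟨b, ?_⟩
  rw [← IntermediateField.finrank_eq_one_iff_eq_top, ← hT2]
  rfl

theorem mem_HL_empty {D : Derivation Λ F F} {f : F} :
    f ∈ HL D (∅ : Set (Place Λ F)) ↔ ∀ P : Place Λ F, Ge P (vo P D) f := by
  have h5 : ∀ P : Place Λ F, bd (∅ : Set (Place Λ F)) P = 0 := by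
    intro P
    unfold bd
    rw [if_neg (Set.notMem_empty P)]
  constructor
  · intro h P
    have h1 := h P
    rwa [h5, sub_zero] at h1
  · intro h P
    rw [h5, sub_zero]
    exact h P

/-- **Curves of genus at most one** are rational or have a vector field without zeros and poles -/
theorem flat_of_glo (h : GLO Λ F) :
    (∃ t : F, Λ⟮t⟯ = ⊤) ∨ ∃ D : Derivation Λ F F, D ≠ 0 ∧ ∀ Q : Place Λ F, vo Q D = 0 := by
  by_cases hrat : ∃ t : F, Λ⟮t⟯ = ⊤
  · exact Or.inl hrat
  right
  obtain ⟨f1, hf10, hf1⟩ := exists_regular (k := Λ) (F := F) hrat der_ne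
  obtain ⟨D1, hD1⟩ : ∃ D1, D1 = f1⁻¹ • der Λ F := ⟨_, rfl⟩
  have hD10 : D1 ≠ 0 := by
    rw [hD1]
    exact smul_ne_zero (inv_ne_zero hf10) der_ne
  have hvo : ∀ Q : Place Λ F, vo Q D1 ≤ 0 := by
    intro Q
    rw [hD1, vo_smul Q der_ne (inv_ne_zero hf10), Q.ord_inv]
    have := hf1 Q
    omega
  refine ⟨D1, hD10, fun P0 => ?_⟩
  by_contra hne
  have hlt : vo P0 D1 < 0 := lt_of_le_of_ne (hvo P0) hne
  apply hrat
  obtain ⟨x, hx⟩ : ∃ x, x = unif P0 := ⟨_, rfl⟩
  have hx1 : P0.ord x = 1 := by rw [hx]; exact ord_unif P0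
  have hxt : Transcendental Λ x := P0.transcendental_of_ord_ne (by omega)
  obtain ⟨D2, hD2⟩ := exists_D (k := Λ) hxt
  have hD20 : D2 ≠ 0 := by
    rintro rfl
    simp at hD2
  obtain ⟨u, hu⟩ := der_smul (D' := D1) hD20
  have hu0 : u ≠ 0 := by
    rintro rfl
    rw [zero_smul] at hu
    exact hD10 hu
  have hvo2 : vo P0 D2 = 0 := by
    have h1 : vo P0 D2 = P0.ord (D2 (unif P0)) := rfl
    rw [h1, ← hx, hD2, P0.ord_one]
  have hvu : P0.ord u < 0 := by
    have h1 := vo_smul P0 hD20 hu0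
    rw [← hu, hvo2, add_zero] at h1
    omega
  have h1mem : (1 : F) ∈ HL D1 (∅ : Set (Place Λ F)) := by
    rw [mem_HL_empty]
    intro Q
    right
    rw [Q.ord_one]
    exact hvo Q
  obtain ⟨g, hg1, hg2⟩ := dual hxt hD2 {P0} (fun _ => 0) (fun P hP => by
    rw [Finset.mem_singleton] at hP
    rw [hP, map_zero, sub_zero]
    exact hx1) (fun _ => 1) (by
    intro f hf hf0 v hv
    rw [Finset.sum_singleton, one_mul]
    have hmem : u * f ∈ HL D1 (∅ : Set (Place Λ F)) := by
      rw [mem_HL_empty]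
      intro Q
      right
      rw [hu, vo_smul Q hD20 hu0, Q.ord_mul hu0 hf0]
      have := hf Q
      omega
    obtain ⟨a, b, hab, he⟩ := h D1 hD10 _ hmem _ h1mem
    rw [mul_one] at he
    have hb : b ≠ 0 := by
      rintro rfl
      rw [map_zero] at he
      rcases mul_eq_zero.1 he with h1 | h1
      · rw [map_eq_zero] at h1
        rcases hab with h2 | h2
        · exact h2 h1
        · exact h2 rfl
      · exact mul_ne_zero hu0 hf0 h1
    have ha : a ≠ 0 := by
      rintro rfl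
      rw [map_zero, zero_mul] at he
      exact hb (by simpa using he.symm)
    have h2 : P0.ord (algebraMap Λ F a * (u * f)) = 0 := by
      rw [he, P0.ord_const hb]
    rw [P0.ord_mul (by simpa using ha) (mul_ne_zero hu0 hf0), P0.ord_mul hu0 hf0,
      P0.ord_const ha] at h2
    have h3 : Ge P0 1 f := Or.inr (by omega)
    have h4 : Ge P0 1 (algebraMap Λ F (v P0)) := by
      have h5 := h3.sub (hv P0 (Finset.mem_singleton_self _))
      simpa using h5
    exact const_eq_zero P0 h4)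
  have hg : P0.ord g = -1 := hg1 P0 (Finset.mem_singleton_self _) one_ne_zero
  have hg0 : g ≠ 0 := by
    rintro rfl
    rw [P0.ord_zero] at hg
    omega
  refine rational_of_pole hg fun Q hQ => ?_
  exact (hg2 Q (by rwa [Finset.mem_singleton])).resolve_left hg0

/-- a function without poles is constant -/
theorem const_of_reg {f : F} (hf : ∀ Q : Place Λ F, Ge Q 0 f) : ∃ c : Λ, f = algebraMap Λ F c := by
  by_contra hcon
  have ht : Transcendental Λ f := by
    intro halg
    apply hcon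
    have h2 := IsAlgClosed.degree_eq_one_of_irreducible Λ (minpoly.irreducible halg.isIntegral)
    obtain ⟨c, hc⟩ := minpoly.mem_range_of_degree_eq_one Λ f h2
    exact ⟨c, hc.symm⟩
  have hfin := IsFF.finite ht
  obtain ⟨S, hS, hS2⟩ := poles (k := Λ) (K := F) ht
  have hpos : 0 < Module.finrank Λ⟮f⟯ F := Module.finrank_pos
  obtain ⟨P, hP⟩ : S.Nonempty := by
    rw [Finset.nonempty_iff_ne_empty]
    rintro rfl
    rw [Finset.sum_empty] at hS2
    omega
  have hf0 : f ≠ 0 := by
    rintro rfl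
    exact ht isAlgebraic_zero
  have h1 := (hf P).resolve_left hf0
  have h2 := (hS P).1 hP
  omega

/-- **Pluricanonical forms on curves of genus at most one.** -/
theorem pluri_of_flat (h : (∃ t : F, Λ⟮t⟯ = ⊤) ∨ ∃ D : Derivation Λ F F, D ≠ 0 ∧
    ∀ Q : Place Λ F, vo Q D = 0) {D : Derivation Λ F F} (hD : D ≠ 0) {N : ℕ} (hN : 0 < N)
    {f g : F} (hf : ∀ Q : Place Λ F, Ge Q (N * vo Q D) f)
    (hg : ∀ Q : Place Λ F, Ge Q (N * vo Q D) g) :
    ∃ a b : Λ, (a ≠ 0 ∨ b ≠ 0) ∧ algebraMap Λ F a * f = algebraMap Λ F b * g := by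
  classical
  rcases h with ⟨t, ht⟩ | ⟨D1, hD1, hvo⟩
  · have key : ∀ f : F, (∀ Q : Place Λ F, Ge Q (N * vo Q D) f) → f = 0 := by
      intro f hf
      by_contra hf0
      obtain ⟨T, hT⟩ : ∃ T : Finset (Place Λ F), T = (vo_finite hD).toFinset ∪
        (finite_support (k := Λ) f).toFinset := ⟨_, rfl⟩
      have h1 := canDeg_finset (k := Λ) hD T (fun P hP => by
        rw [hT, Finset.mem_union, Set.Finite.mem_toFinset]
        exact Or.inl hP)
      have h2 := sum_ord_finset (k := Λ) f T (fun P hP => by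
        rw [hT, Finset.mem_union, Set.Finite.mem_toFinset, Set.Finite.mem_toFinset]
        exact Or.inr hP)
      rw [canDeg_rational ht] at h1
      have h3 : ∑ P ∈ T, (N : ℤ) * vo P D ≤ ∑ P ∈ T, P.ord f :=
        Finset.sum_le_sum fun P _ => (hf P).resolve_left hf0
      rw [← Finset.mul_sum, h1, h2] at h3
      have h4 : (0 : ℤ) < N := by exact_mod_cast hN
      linarith
    exact ⟨1, 1, Or.inl one_ne_zero, by rw [key f hf, key g hg]⟩
  · obtain ⟨u, hu⟩ := der_smul (D' := D) hD1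
    have hu0 : u ≠ 0 := by
      rintro rfl
      rw [zero_smul] at hu
      exact hD hu
    have key : ∀ f : F, (∀ Q : Place Λ F, Ge Q (N * vo Q D) f) →
        ∃ c : Λ, f = algebraMap Λ F c * u ^ N := by
      intro f hf
      obtain ⟨c, hc⟩ := const_of_reg (Λ := Λ) (f := f * (u ^ N)⁻¹) (fun Q => by
        have h1 := hf Q
        rw [hu, vo_smul Q hD1 hu0, hvo Q, add_zero] at h1
        have h2 : Ge Q (-(N * Q.ord u)) (u ^ N)⁻¹ := by
          right
          rw [Q.ord_inv, Q.ord_pow]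
        have h3 := h1.mul h2
        simpa using h3)
      refine ⟨c, ?_⟩
      rw [← hc, mul_assoc, inv_mul_cancel₀ (pow_ne_zero _ hu0), mul_one]
    obtain ⟨c, hc⟩ := key f hf
    obtain ⟨d, hd⟩ := key g hg
    by_cases hcd : c = 0 ∧ d = 0
    · exact ⟨1, 1, Or.inl one_ne_zero, by rw [hc, hd, hcd.1, hcd.2]⟩
    · refine ⟨d, c, ?_, by rw [hc, hd]; ring⟩
      by_cases hc0 : c = 0
      · left
        intro hd0
        exact hcd ⟨hc0, hd0⟩
      · exact Or.inr hc0

theorem pluri_of_glo (h : GLO Λ F) {D : Derivation Λ F F} (hD : D ≠ 0) {N : ℕ} (hN : 0 < N)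
    {f g : F} (hf : ∀ Q : Place Λ F, Ge Q (N * vo Q D) f)
    (hg : ∀ Q : Place Λ F, Ge Q (N * vo Q D) g) :
    ∃ a b : Λ, (a ≠ 0 ∨ b ≠ 0) ∧ algebraMap Λ F a * f = algebraMap Λ F b * g :=
  pluri_of_flat (flat_of_glo h) hD hN hf hg

/-- the converse of `flat_of_glo` -/
theorem glo_of_flat (h : (∃ t : F, Λ⟮t⟯ = ⊤) ∨ ∃ D : Derivation Λ F F, D ≠ 0 ∧
    ∀ Q : Place Λ F, vo Q D = 0) : GLO Λ F := by
  intro D hD f hf g hg
  rw [mem_HL_empty] at hf hg
  exact pluri_of_flat h hD one_pos (fun Q => by simpa using hf Q) fun Q => by simpa using hg Q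

/-- vector fields without zeros and poles -/
theorem flat_iff {D : Derivation Λ F F} :
    (∀ w : Place Λ F, ∀ t : F, w.ord t = 1 → D t ≠ 0 ∧ w.ord (D t) = 0) ↔
      D ≠ 0 ∧ ∀ Q : Place Λ F, vo Q D = 0 := by
  constructor
  · intro h
    obtain ⟨w, -⟩ := exists_place (k := Λ) (K := F)
    refine ⟨?_, fun Q => (h Q (unif Q) (ord_unif Q)).2⟩
    rintro rfl
    exact (h w (unif w) (ord_unif w)).1 rfl
  · rintro ⟨h0, h⟩ w t ht
    refine ⟨der_pi_ne_zero h0 w ht, ?_⟩
    rw [vo_eq w ht h0]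
    exact h w

end

end Pool.Agent.N145.SX
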