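import Pool.Agent.N145.SX.Rel

/-!
Varieties dominated by the product of a variety and a curve: the theorems.
-/

set_option autoImplicit false
set_option linter.overlappingInstances false
set_option linter.unusedSectionVars false
set_option linter.unusedVariables false
set_option maxHeartbeats 4000000
set_option synthInstance.maxHeartbeats 400000

open Polynomial FF IntermediateField Module

namespace Pool.Agent.N145.SX

open Pool.Agent.W603.LV Pool.Agent.W619.PQ Pool.Agent.N145.PC Pool.Agent.N145.PL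
open Pool.Agent.W602.GT (Divisorial RegAt IsPluri DerReg DerLog LogAt KodGe LogSec Psef)
open Pool.Agent.Y184.NT (trForm trForm_pluri)
open Pool.Agent.R882.LT (SecAt LogGenusZero)
open Pool.Agent.W619.PL (IsA1Uniruled)

open scoped Classical

section

/-- the coordinates on the product are a transcendence basis -/
theorem basis_zz {K : Type} [Field K] [Algebra ℂ K] {n : ℕ} {E C : IntermediateField ℂ K}
    (hK : Algebra.trdeg ℂ K = (n + 1 : ℕ)) {x : Fin n → E} (hx : IsTranscendenceBasis ℂ x) {t : C}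
    (ht : ¬ IsAlgebraic E (t : K)) : IsTranscendenceBasis ℂ (zz K x t) := by
  have h1 : AlgebraicIndependent E (fun _ : Fin 1 => (t : K)) := by
    rw [algebraicIndependent_unique_type_iff]
    exact ht
  have h2 := hx.1.sumElim_comp h1
  let e : Fin (n + 1) → Fin 1 ⊕ Fin n := Fin.lastCases (Sum.inl 0) Sum.inr
  have he1 : e (Fin.last n) = Sum.inl 0 := Fin.lastCases_last
  have he2 : ∀ i : Fin n, e i.castSucc = Sum.inr i := fun i => Fin.lastCases_castSucc _
  have he : Function.Injective e := by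
    intro a b hab
    induction a using Fin.lastCases with
    | last =>
      induction b using Fin.lastCases with
      | last => rfl
      | cast j =>
        rw [he1, he2] at hab
        cases hab
    | cast i =>
      induction b using Fin.lastCases with
      | last =>
        rw [he1, he2] at hab
        cases hab
      | cast j =>
        rw [he2, he2] at hab
        rw [Sum.inr_injective hab]
  have h3 := h2.comp e he
  have h4 : (Sum.elim (fun _ : Fin 1 => (t : K)) (algebraMap E K ∘ x)) ∘ e = zz K x t := by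
    funext i
    rw [Function.comp_apply]
    unfold zz
    induction i using Fin.lastCases with
    | last =>
      rw [he1, Fin.snoc_last]
      rfl
    | cast i =>
      rw [he2, Fin.snoc_castSucc]
      rfl
  rw [h4] at h3
  refine h3.isTranscendenceBasis_of_lift_trdeg_le_of_finite ?_
  rw [hK]
  simp

variable {K : Type} [Field K] [Algebra ℂ K] {n : ℕ} {L : Type} [Field L] [Algebra ℂ L]
  [Algebra L K] [IsScalarTower ℂ L K] [FiniteDimensional L K]

theorem rel_oneI {E : IntermediateField ℂ K} {x : Fin n → E} {BX : Place ℂ E → Prop} {g : ℕ}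
    (hsep : SepX x BX g)
    (hd : finrank L (IntermediateField.adjoin L (E : Set K)) < g) {H : Set K} {h : K}
    (hT : ∀ f ∈ HX x BX, ∀ φ ∈ H, Algebra.trace L K (h * (algebraMap E K f * φ)) = 0)
    {φ : K} (hφ : φ ∈ H) :
    Algebra.trace (IntermediateField.adjoin L (E : Set K)) K (h * φ) = 0 := by
  have hE : (E : Set K) = Set.range (algebraMap E K) := by
    ext z
    exact ⟨fun hz => ⟨⟨z, hz⟩, rfl⟩, by rintro ⟨y, rfl⟩; exact y.2⟩
  rw [hE] at hd ⊢
  exact rel_one E hsep hd hT hφ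

theorem rel_twoI {E : IntermediateField ℂ K} {x : Fin n → E} {BX : Place ℂ E → Prop} {g : ℕ}
    (hsep : SepX x BX g)
    (hd : 2 * finrank L (IntermediateField.adjoin L (E : Set K)) < g) {H : Set K} {h : K}
    {Ω' : Type} [Field Ω'] [Algebra ℂ Ω'] [IsAlgClosed Ω']
    {i1 i2 : AlgebraicClosure L →ₐ[ℂ] Ω'} {lam : Ω'} (hlam : lam ≠ 0)
    (hT : ∀ f ∈ HX x BX, ∀ φ ∈ H,
      i2 (algebraMap L (AlgebraicClosure L) (Algebra.trace L K (h * (algebraMap E K f * φ)))) =
      lam * i1 (algebraMap L (AlgebraicClosure L)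
        (Algebra.trace L K (h * (algebraMap E K f * φ)))))
    (τ0 : K →ₐ[L] AlgebraicClosure L) :
    (∃ τ : K →ₐ[L] AlgebraicClosure L, ∀ z : E, i2 (τ z) = i1 (τ0 z)) ∨
      ∀ φ ∈ H, Algebra.trace (IntermediateField.adjoin L (E : Set K)) K (h * φ) = 0 := by
  have hE : (E : Set K) = Set.range (algebraMap E K) := by
    ext z
    exact ⟨fun hz => ⟨⟨z, hz⟩, rfl⟩, by rintro ⟨y, rfl⟩; exact y.2⟩
  rw [hE] at hd ⊢
  exact rel_two E hsep hd hlam hT τ0

/-- **Varieties without logarithmic canonical forms.** -/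
theorem one_fibreX (hsec : S_SEC) (hclosed : S_CLOSED) (herase : S_ERASE)
    [hess : Algebra.EssFiniteType ℂ K] {E C : IntermediateField ℂ K} [Algebra.EssFiniteType ℂ E] [IsFF ℂ C]
    (hsup : E ⊔ C = ⊤) (hE : Algebra.trdeg ℂ E = n) (hK : Algebra.trdeg ℂ K = (n + 1 : ℕ))
    {x : Fin n → E} (hx : IsTranscendenceBasis ℂ x) {BX : Place ℂ E → Prop}
    {B : Set (Place ℂ C)} (hBf : B.Finite) {BL : Place ℂ L → Prop}
    (hB : ∀ (P : Place ℂ L) (Q : Place ℂ K) (e : ℕ), Over Q P e → (BL P ↔ BdX BX B Q))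
    {g : ℕ} (hsep : SepX x BX g)
    (hd : finrank L (IntermediateField.adjoin L (E : Set K)) < g)
    (hz : LogGenusZero L (n + 1) BL) : IsA1Uniruled ℂ L (n + 1) BL := by
  obtain ⟨t, ht, hBt⟩ := exists_xB hBf
  obtain ⟨D0, hD0⟩ := exists_D ht
  obtain ⟨hna, -, hcl⟩ := hclosed K n E C hsup hE hK
  obtain ⟨y, G, h, hy, hG, hh, hreg, hval⟩ := exists_traceX (L := L) hsec hE hK hx BX ht
    (basis_zz hK hx (hna t ht)) hD0 B fun P Q e h1 h2 => (hB P Q e h1).2 h2
  have hθE : ∀ t, trForm y t G = t := by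
    intro t
    have h1 : (Matrix.of fun i j => G i (y j) : Matrix (Fin (n + 1)) (Fin (n + 1)) L) = 1 := by
      ext i j
      rw [Matrix.of_apply, hG, Matrix.one_apply]
    rw [trForm, h1, Matrix.det_one, one_mul]
  refine herase K n E C hsup hE hK x hx t ht D0 hD0 BX B hBt L BL
    (fun P Q e h1 h2 => (hB P Q e h1).1 h2) h hval fun φ hφ => ?_
  refine rel_oneI hsep hd (H := {z | ∃ φ ∈ HL D0 B, z = (φ : K)}) (fun f hf φ hφ => ?_)
    ⟨φ, hφ, rfl⟩
  obtain ⟨ψ, hψ, rfl⟩ := hφ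
  have h1 := hz (trForm y (Algebra.trace L K (h * (algebraMap E K f * algebraMap C K ψ))))
    ⟨trForm_pluri y _, fun P hP => (hreg f hf ψ hψ P hP).1,
      fun P hP hB => (hreg f hf ψ hψ P hP).2 hB⟩ G
  rwa [hθE] at h1

/-- **The logarithmic dichotomy.** -/
theorem dichotomyX (hsec : S_SEC) (hclosed : S_CLOSED) (herase : S_ERASE)
    [hess : Algebra.EssFiniteType ℂ K] {E C : IntermediateField ℂ K} [Algebra.EssFiniteType ℂ E] [IsFF ℂ C]
    (hsup : E ⊔ C = ⊤) (hE : Algebra.trdeg ℂ E = n) (hK : Algebra.trdeg ℂ K = (n + 1 : ℕ))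
    {x : Fin n → E} (hx : IsTranscendenceBasis ℂ x) {BX : Place ℂ E → Prop}
    {B : Set (Place ℂ C)} (hBf : B.Finite) {BL : Place ℂ L → Prop}
    (hB : ∀ (P : Place ℂ L) (Q : Place ℂ K) (e : ℕ), Over Q P e → (BL P ↔ BdX BX B Q))
    {g : ℕ} (hsep : SepX x BX g)
    (hd : 2 * finrank L (IntermediateField.adjoin L (E : Set K)) < g) :
    IsA1Uniruled ℂ L (n + 1) BL ∨ KodGe ℂ L (n + 1) BL n := by
  have hL : Algebra.trdeg ℂ L = (n + 1 : ℕ) := Pool.Agent.Y184.NT.trdeg_below (K := K) hK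
  have hessL : Algebra.EssFiniteType ℂ L := Pool.Agent.TH466.QG.ess_below (K := K)
  obtain ⟨t, ht, hBt⟩ := exists_xB hBf
  obtain ⟨D0, hD0⟩ := exists_D ht
  obtain ⟨hna, -, hcl⟩ := hclosed K n E C hsup hE hK
  obtain ⟨y, G, h, hy, hG, hh, hreg, hval⟩ := exists_traceX (L := L) hsec hE hK hx BX ht
    (basis_zz hK hx (hna t ht)) hD0 B fun P Q e h1 h2 => (hB P Q e h1).2 h2
  have her := herase K n E C hsup hE hK x hx t ht D0 hD0 BX B hBt L BL
    (fun P Q e h1 h2 => (hB P Q e h1).1 h2) h hval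
  obtain ⟨τ0⟩ : Nonempty (K →ₐ[L] AlgebraicClosure L) :=
    ⟨IsAlgClosed.lift (R := L) (M := AlgebraicClosure L) (S := K)⟩
  have hT' : IsScalarTower ℂ L (AlgebraicClosure L) := inferInstance
  let I := {p : E × C // p.1 ∈ HX x BX ∧ p.2 ∈ HL D0 B}
  obtain ⟨T, hT⟩ : ∃ T : I → L, ∀ p, T p =
    Algebra.trace L K (h * (algebraMap E K p.1.1 * algebraMap C K p.1.2)) := ⟨_, fun _ => rfl⟩
  by_cases hT0 : ∃ p, T p ≠ 0
  swap
  · left
    push Not at hT0
    refine her fun φ hφ => ?_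
    refine rel_oneI hsep (by omega) (H := {z | ∃ φ ∈ HL D0 B, z = (φ : K)})
      (fun f hf φ hφ => ?_) ⟨φ, hφ, rfl⟩
    obtain ⟨ψ, hψ, rfl⟩ := hφ
    have h1 := hT0 ⟨(f, ψ), hf, hψ⟩
    rw [hT] at h1
    exact h1
  · obtain ⟨p1, hp1⟩ := hT0
    obtain ⟨Ω', iF, iA, iC, i1, i2, lam, hlam, hlamT, hpts⟩ := exists_pts T (f1 := p1) hp1
    rcases rel_twoI hsep hd (H := {z | ∃ φ ∈ HL D0 B, z = (φ : K)}) (h := h) hlam
      (fun f hf φ hφ => by
        obtain ⟨ψ, hψ, rfl⟩ := hφ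
        have h1 := hlamT ⟨(f, ψ), hf, hψ⟩
        rw [hT] at h1
        exact h1) τ0 with ⟨τ, hτ⟩ | h2
    · right
      have hind : AlgebraicIndependent ℂ fun l : Fin n => algebraMap E K (x l) :=
        hx.1.map' (f := IsScalarTower.toAlgHom ℂ E K) (algebraMap E K).injective
      refine kodGe_of_algL hL hG T ⟨p1, hp1⟩ (fun p P hP => ?_) (trdeg_adj hind) fun l => ?_
      · rw [hT]
        exact hreg p.1.1 p.2.1 p.1.2 p.2.2 P hP
      · exact alg_back τ0 (hpts _ _ (hτ (x l)).symm)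
    · exact Or.inl (her fun φ hφ => h2 _ ⟨φ, hφ, rfl⟩)

/-- **The structure theorem.** -/
theorem structureX (hsec : S_SEC) (hclosed : S_CLOSED) (hgeo : S_GEO) (hstr : S_STR)
    [hess : Algebra.EssFiniteType ℂ K] {E C : IntermediateField ℂ K} [Algebra.EssFiniteType ℂ E] [IsFF ℂ C]
    (hsup : E ⊔ C = ⊤) (hE : Algebra.trdeg ℂ E = n) (hK : Algebra.trdeg ℂ K = (n + 1 : ℕ))
    {x : Fin n → E} (hx : IsTranscendenceBasis ℂ x) {g : ℕ} (hsep : SepX x (fun _ => False) g)
    (hd : 2 * finrank L (IntermediateField.adjoin L (E : Set K)) < g) :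
    KodGe ℂ L (n + 1) (fun _ => False) n ∨ ∃ N : IntermediateField ℂ L,
      (∀ z : L, IsAlgebraic N z → z ∈ N) ∧ Algebra.trdeg ℂ N = n ∧
      KodGe ℂ N n (fun _ => False) n ∧ ∃ (M : Type) (_ : Field M) (_ : Algebra N M),
        Algebra.IsAlgebraic N M ∧ Nonempty (L →ₐ[N] RatFunc M) := by
  have hL : Algebra.trdeg ℂ L = (n + 1 : ℕ) := Pool.Agent.Y184.NT.trdeg_below (K := K) hK
  have hessL : Algebra.EssFiniteType ℂ L := Pool.Agent.TH466.QG.ess_below (K := K)
  obtain ⟨t, ht⟩ := IsFF.exists_transcendental (k := ℂ) (K := C)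
  obtain ⟨D0, hD0⟩ := exists_D ht
  obtain ⟨hna, -, hcl⟩ := hclosed K n E C hsup hE hK
  obtain ⟨y, G, h, hy, hG, hh, hreg, hval⟩ := exists_traceX (L := L) (BL := fun _ => False) hsec hE
    hK hx (fun _ => False) ht (basis_zz hK hx (hna t ht)) hD0 (∅ : Set (Place ℂ C))
    fun P Q e h1 h2 => by
      rcases h2 with ⟨_, _, h3, -⟩ | ⟨_, h3, -⟩
      · exact h3
      · exact h3
  have hge := hgeo K n E C hsup hE hK x hx t ht D0 hD0 L h hval
  have hfin : (∀ φ ∈ HL D0 (∅ : Set (Place ℂ C)),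
      Algebra.trace (IntermediateField.adjoin L (E : Set K)) K (h * (φ : K)) = 0) →
      ∃ N : IntermediateField ℂ L,
      (∀ z : L, IsAlgebraic N z → z ∈ N) ∧ Algebra.trdeg ℂ N = n ∧
      KodGe ℂ N n (fun _ => False) n ∧ ∃ (M : Type) (_ : Field M) (_ : Algebra N M),
        Algebra.IsAlgebraic N M ∧ Nonempty (L →ₐ[N] RatFunc M) := by
    intro h0
    obtain ⟨s, hs, hsL⟩ := hge h0
    exact hstr K n E hE hK hcl x hx g hsep L hd s hs hsL
  obtain ⟨τ0⟩ : Nonempty (K →ₐ[L] AlgebraicClosure L) :=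
    ⟨IsAlgClosed.lift (R := L) (M := AlgebraicClosure L) (S := K)⟩
  have hT' : IsScalarTower ℂ L (AlgebraicClosure L) := inferInstance
  let I := {p : E × C // p.1 ∈ HX x (fun _ => False) ∧ p.2 ∈ HL D0 (∅ : Set (Place ℂ C))}
  obtain ⟨T, hT⟩ : ∃ T : I → L, ∀ p, T p =
    Algebra.trace L K (h * (algebraMap E K p.1.1 * algebraMap C K p.1.2)) := ⟨_, fun _ => rfl⟩
  by_cases hT0 : ∃ p, T p ≠ 0
  swap
  · right
    push Not at hT0
    refine hfin fun φ hφ => ?_
    refine rel_oneI hsep (by omega) (H := {z | ∃ φ ∈ HL D0 (∅ : Set (Place ℂ C)), z = (φ : K)})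
      (fun f hf φ hφ => ?_) ⟨φ, hφ, rfl⟩
    obtain ⟨ψ, hψ, rfl⟩ := hφ
    have h1 := hT0 ⟨(f, ψ), hf, hψ⟩
    rw [hT] at h1
    exact h1
  · obtain ⟨p1, hp1⟩ := hT0
    obtain ⟨Ω', iF, iA, iC, i1, i2, lam, hlam, hlamT, hpts⟩ := exists_pts T (f1 := p1) hp1
    rcases rel_twoI hsep hd (H := {z | ∃ φ ∈ HL D0 (∅ : Set (Place ℂ C)), z = (φ : K)}) (h := h)
      hlam (fun f hf φ hφ => by
        obtain ⟨ψ, hψ, rfl⟩ := hφ
        have h1 := hlamT ⟨(f, ψ), hf, hψ⟩
        rw [hT] at h1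
        exact h1) τ0 with ⟨τ, hτ⟩ | h2
    · left
      have hind : AlgebraicIndependent ℂ fun l : Fin n => algebraMap E K (x l) :=
        hx.1.map' (f := IsScalarTower.toAlgHom ℂ E K) (algebraMap E K).injective
      refine kodGe_of_algL hL hG T ⟨p1, hp1⟩ (fun p P hP => ?_) (trdeg_adj hind) fun l => ?_
      · rw [hT]
        exact hreg p.1.1 p.2.1 p.1.2 p.2.2 P hP
      · exact alg_back τ0 (hpts _ _ (hτ (x l)).symm)
    · exact Or.inr (hfin fun φ hφ => h2 _ ⟨φ, hφ, rfl⟩)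

end

end Pool.Agent.N145.SX
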