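import Pool.Agent.N145.SX.Stm2
import Pool.Agent.N145.SX.Main

/-!
Images of generically finite covers of varieties whose canonical forms separate points are of general
type.
-/

set_option autoImplicit false
set_option linter.overlappingInstances false
set_option linter.unusedSectionVars false
set_option linter.unusedVariables false
set_option maxHeartbeats 4000000
set_option synthInstance.maxHeartbeats 400000

open Polynomial FF IntermediateField Module

namespace Pool.Agent.N145.SX

open Pool.Agent.W603.LV Pool.Agent.W619.PQ Pool.Agent.N145.PC Pool.Agent.N145.PL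
open Pool.Agent.W602.GT (Divisorial RegAt IsPluri DerReg DerLog LogAt KodGe LogSec Psef)
open Pool.Agent.Y184.NT (trForm trForm_pluri)
open Pool.Agent.R882.LT (SecAt LogGenusZero)

/-- **Images of generically finite covers are of general type.** -/
theorem GT2 (hpull : S_PULL) : S_GT2 := by
  classical
  intro N K E _ _ _ _ _ _ _ _ _ _ _ _ _ m hE hK x hx g hsep hd
  have hN : Algebra.trdeg ℂ N = m := Pool.Agent.Y184.NT.trdeg_below (K := K) hK
  have hessN : Algebra.EssFiniteType ℂ N := Pool.Agent.TH466.QG.ess_below (K := K)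
  obtain ⟨M, hM⟩ : ∃ M, M = IntermediateField.adjoin N (Set.range (algebraMap E K)) := ⟨_, rfl⟩
  have hT1 : IsScalarTower ℂ M K := IsScalarTower.of_algebraMap_eq fun z => rfl
  have hess1 : Algebra.EssFiniteType ℂ M := Pool.Agent.TH466.QG.ess_below (K := K)
  have htr1 : Algebra.trdeg ℂ M = m := Pool.Agent.Y184.NT.trdeg_below (K := K) hK
  obtain ⟨y, G, hy, hG⟩ := Pool.Agent.Y172.exists_crd hN
  choose G1 hG1 using fun i => Pool.Agent.Y172.exists_lift (L := M) hN (G i)
  choose G' hG' using fun i => Pool.Agent.Y172.exists_lift (L := K) htr1 (G1 i)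
  have hGG : ∀ i f, G' i (algebraMap N K f) = algebraMap N K (G i f) := by
    intro i f
    have h1 := hG' i (algebraMap N M f)
    rw [hG1] at h1
    exact h1
  have hyK : IsTranscendenceBasis ℂ (fun j => algebraMap N K (y j)) := hy.algebraMap_comp
  have hGK := Pool.Agent.Y172.lift_dual hG hGG
  have hind : AlgebraicIndependent ℂ fun l : Fin m => algebraMap E K (x l) :=
    hx.1.map' (f := IsScalarTower.toAlgHom ℂ E K) (algebraMap E K).injective
  have hz : IsTranscendenceBasis ℂ fun l : Fin m => algebraMap E K (x l) := by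
    refine hind.isTranscendenceBasis_of_lift_trdeg_le_of_finite ?_
    rw [hK]
    simp
  obtain ⟨h, hdef⟩ : ∃ h, h = (Matrix.of fun i j => G' i (algebraMap E K (x j)) :
    Matrix (Fin m) (Fin m) K).det := ⟨_, rfl⟩
  have hmem : ∀ z : E, algebraMap E K z ∈ M := by
    intro z
    rw [hM]
    exact IntermediateField.subset_adjoin _ _ ⟨z, rfl⟩
  have hhM : h ∈ M := by
    rw [hdef]
    have h1 : (Matrix.of fun i j => G' i (algebraMap E K (x j)) : Matrix (Fin m) (Fin m) K) =
        (algebraMap M K).mapMatrix
          (Matrix.of fun i j => G1 i ⟨algebraMap E K (x j), hmem (x j)⟩) := by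
      ext i j
      rw [RingHom.mapMatrix_apply, Matrix.map_apply, Matrix.of_apply, Matrix.of_apply]
      exact hG' i ⟨algebraMap E K (x j), hmem (x j)⟩
    rw [h1, ← RingHom.map_det]
    exact (Matrix.det _ : M).2
  have hval : ∀ g : K, trForm (fun l => algebraMap E K (x l)) g G' = h * g := by
    intro g
    rw [trForm, hdef]
  have hh : h ≠ 0 := by
    intro h0
    choose Z hZ using fun i : Fin m => Pool.Agent.W602.GT.exists_der _ hz
      fun j => if i = j then (1 : K) else 0
    have h1 := Pool.Agent.Y172.pluri_coord hyK hGK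
      (trForm_pluri (fun l => algebraMap E K (x l)) (1 : K)) Z
    rw [hval, h0, zero_mul, mul_zero] at h1
    have h2 : (Matrix.of fun i j => Z i (algebraMap E K (x j)) : Matrix (Fin m) (Fin m) K) = 1 := by
      ext i j
      rw [Matrix.of_apply, hZ, Matrix.one_apply]
    rw [trForm, h2, Matrix.det_one, one_mul] at h1
    exact one_ne_zero h1
  have htrM : Algebra.trace M K h ≠ 0 := by
    have h1 : h = algebraMap M K ⟨h, hhM⟩ := rfl
    rw [h1, Algebra.trace_algebraMap]
    have hc : CharZero M := charZero_of_injective_algebraMap (algebraMap ℂ M).injective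
    rw [nsmul_eq_mul]
    refine mul_ne_zero ?_ ?_
    · have : 0 < finrank M K := finrank_pos
      exact_mod_cast this.ne'
    · intro h2
      exact hh (congrArg Subtype.val h2)
  -- the traces
  let I := {f : E // f ∈ HX x (fun _ => False)}
  obtain ⟨T, hT⟩ : ∃ T : I → N, ∀ p, T p = Algebra.trace N K (h * (algebraMap E K p.1 * 1)) :=
    ⟨_, fun _ => rfl⟩
  have hreg : ∀ p (P : Place ℂ N), Divisorial m P →
      SecAt (fun _ => False) P (trForm y (T p)) := by
    intro p P hP
    rw [hT, mul_one, ← hval]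
    refine Pool.Agent.R882.LT.trForm_sec (BK := fun _ => False) (BL := fun _ => False) hN hy hG hGG
      _ (trForm_pluri _ _) (fun _ _ _ _ h => h) (fun Q hQ => ⟨fun D hD => ?_, fun _ D hD => ?_⟩) P
      hP
    · exact hpull E K m m hE hK x hx _ p.1 p.2 Q hQ D (Or.inl hD)
    · exact hpull E K m m hE hK x hx _ p.1 p.2 Q hQ D (Or.inr ⟨fun ⟨_, _, h, _⟩ => h, hD⟩)
  obtain ⟨τ0⟩ : Nonempty (K →ₐ[N] AlgebraicClosure N) :=
    ⟨IsAlgClosed.lift (R := N) (M := AlgebraicClosure N) (S := K)⟩
  have hT' : IsScalarTower ℂ N (AlgebraicClosure N) := inferInstance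
  have hT0 : ∃ p, T p ≠ 0 := by
    by_contra h0
    push Not at h0
    have hd1 : finrank N (IntermediateField.adjoin N (Set.range (algebraMap E K))) < g := by omega
    have h1 := rel_one E hsep hd1 (H := {1}) (h := h) (fun f hf φ hφ => by
      rw [Set.mem_singleton_iff] at hφ
      subst hφ
      have h1 := h0 ⟨f, hf⟩
      rw [hT] at h1
      exact h1) (Set.mem_singleton 1)
    rw [mul_one, ← hM] at h1
    exact htrM h1
  obtain ⟨p1, hp1⟩ := hT0
  obtain ⟨Ω', iF, iA, iC, i1, i2, lam, hlam, hlamT, hpts⟩ := exists_pts T (f1 := p1) hp1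
  rcases rel_two E hsep hd (H := {1}) (h := h) hlam (fun f hf φ hφ => by
      rw [Set.mem_singleton_iff] at hφ
      subst hφ
      have h1 := hlamT ⟨f, hf⟩
      rw [hT] at h1
      exact h1) τ0 with ⟨τ, hτ⟩ | h2
  · refine kodGe_of_algL hN hG T ⟨p1, hp1⟩ (fun p P hP => hreg p P hP) (trdeg_adj hind)
      fun l => ?_
    exact alg_back τ0 (hpts _ _ (hτ (x l)).symm)
  · have h1 := h2 1 (Set.mem_singleton 1)
    rw [mul_one, ← hM] at h1
    exact absurd h1 htrM

end Pool.Agent.N145.SX
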