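import Pool.Agent.N145.SX.All
import Pool.Agent.R882.GLb

/-!
Varieties of geometric genus zero dominated by the product of a variety and a curve: the fibration.
-/

set_option autoImplicit false
set_option linter.overlappingInstances false
set_option linter.unusedSectionVars false
set_option linter.unusedVariables false
set_option maxHeartbeats 4000000
set_option synthInstance.maxHeartbeats 400000

open Polynomial FF IntermediateField Module

namespace Pool.Agent.N145.SX

open Pool.Agent.W603.LV Pool.Agent.W619.PQ Pool.Agent.N145.PC Pool.Agent.N145.PL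
open Pool.Agent.W602.GT (Divisorial RegAt IsPluri DerReg DerLog LogAt KodGe LogSec Psef)
open Pool.Agent.Y184.NT (trForm trForm_pluri trForm_reg)
open Pool.Agent.R882.LT (SecAt LogGenusZero)
open Pool.Agent.N277.SX (pts emb emb_mem card_pts sum_pts)

open scoped Classical

/-- the only canonical form is zero -/
def PGZ (L : Type) [Field L] [Algebra ℂ L] (n : ℕ) : Prop :=
  ∀ ω : (Fin n → Derivation ℂ L L) → L, IsPluri 1 ω →
    (∀ P : Place ℂ L, Divisorial n P → RegAt P ω) → ∀ D, ω D = 0

/-- **Canonical forms on the image.** -/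
theorem pg_pos {N E : Type} [Field N] [Field E] [Algebra ℂ N] [Algebra ℂ E] [Algebra N E]
    [IsScalarTower ℂ N E] [FiniteDimensional N E] [Algebra.EssFiniteType ℂ E] {m : ℕ}
    (hm : Algebra.trdeg ℂ E = m) {x : Fin m → E} (hx : IsTranscendenceBasis ℂ x) {g : ℕ}
    (hsep : SepX x (fun _ => False) g) (hdeg : finrank N E < g) : ¬ PGZ N m := by
  intro hz
  have hessN : Algebra.EssFiniteType ℂ N := Pool.Agent.TH466.QG.ess_below (K := E)
  have hN : Algebra.trdeg ℂ N = m := Pool.Agent.Y184.NT.trdeg_below (K := E) hm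
  obtain ⟨y, G, hy, hG⟩ := Pool.Agent.Y172.exists_crd hN
  choose G' hG' using fun i => Pool.Agent.Y172.exists_lift (L := E) hN (G i)
  have hGE := Pool.Agent.Y172.lift_dual hG hG'
  obtain ⟨h, hdef⟩ : ∃ h, h = (Matrix.of fun i j => G' i (x j) :
    Matrix (Fin m) (Fin m) E).det := ⟨_, rfl⟩
  have hh : h ≠ 0 := by
    intro h0
    rw [hdef] at h0
    obtain ⟨v, hv, hv0⟩ := Matrix.exists_vecMul_eq_zero_iff.2 h0
    have happ : ∀ z : E, (∑ i, v i • G' i : Derivation ℂ E E) z = ∑ i, v i * G' i z := by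
      intro z
      have h1 := map_sum (Derivation.coeFnAddMonoidHom (R := ℂ) (A := E) (M := E))
        (fun i => v i • G' i) Finset.univ
      have h2 := congrFun h1 z
      rw [Finset.sum_apply] at h2
      exact h2
    have h1 : (∑ i, v i • G' i : Derivation ℂ E E) = 0 := by
      apply Pool.Agent.Y888.NT.der_ext' x hx
      intro j
      rw [happ]
      exact congrFun hv0 j
    apply hv
    funext j
    have h2 := happ (algebraMap N E (y j))
    rw [h1] at h2
    have h3 : ∑ i, v i * G' i (algebraMap N E (y j)) = v j := by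
      rw [Finset.sum_eq_single j]
      · rw [hGE, if_pos rfl, mul_one]
      · intro i _ hi
        rw [hGE, if_neg hi, mul_zero]
      · intro hj
        exact absurd (Finset.mem_univ j) hj
    rw [h3] at h2
    exact h2.symm
  have hθE : ∀ t, trForm y t G = t := by
    intro t
    have h1 : (Matrix.of fun i j => G i (y j) : Matrix (Fin m) (Fin m) N) = 1 := by
      ext i j
      rw [Matrix.of_apply, hG, Matrix.one_apply]
    rw [trForm, h1, Matrix.det_one, one_mul]
  obtain ⟨T, hT⟩ : ∃ T : {f : E // f ∈ HX x (fun _ => False)} → N,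
    ∀ f, T f = Algebra.trace N E (h * (f : E)) := ⟨_, fun _ => rfl⟩
  have hreg : ∀ f, ∀ P : Place ℂ N, Divisorial m P → RegAt P (trForm y (T f)) := by
    intro f P hP
    have h1 := trForm_reg hN hy hG hG' (trForm x (f : E)) (trForm_pluri x _)
      (fun Q hQ => (f.2 Q hQ).2 not_false) P hP
    rw [hT, hdef]
    exact h1
  obtain ⟨τ0⟩ : Nonempty (E →ₐ[N] AlgebraicClosure N) :=
    ⟨IsAlgClosed.lift (R := N) (M := AlgebraicClosure N) (S := E)⟩
  have hcon : ∀ f, T f = 0 := by
    intro f
    have h1 := hz (trForm y (T f)) (trForm_pluri y _) (hreg f) G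
    rwa [hθE] at h1
  have h1 := hsep (AlgebraicClosure N) (pts (E := E) (AlgHom.id ℂ (AlgebraicClosure N)))
    (lt_of_le_of_lt (card_pts _) hdeg) (fun σ => σ h) (by
      intro f hf
      have h2 := sum_pts (AlgHom.id ℂ (AlgebraicClosure N)) (h * f)
      have h3 := hcon ⟨f, hf⟩
      rw [hT] at h3
      rw [h3, map_zero, map_zero] at h2
      rw [← h2]
      exact Finset.sum_congr rfl fun σ _ => (map_mul σ h f).symm) _
    (emb_mem (AlgHom.id ℂ (AlgebraicClosure N)) τ0)
  have h2 : τ0 h = 0 := h1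
  exact hh (by simpa using h2)

section

variable {K : Type} [Field K] [Algebra ℂ K] [Algebra.EssFiniteType ℂ K]
  {L : Type} [Field L] [Algebra ℂ L] [Algebra L K] [IsScalarTower ℂ L K]
  [FiniteDimensional L K]

/-- the functions of `E` are constant on rational curves -/
theorem const_E1 {n : ℕ} (E : IntermediateField ℂ K)
    [hess : Algebra.EssFiniteType ℂ E] (hE : Algebra.trdeg ℂ E = n)
    {x : Fin n → E} (hx : IsTranscendenceBasis ℂ x) {g : ℕ} (hsep : SepX x (fun _ => False) g)
    (hdeg : finrank L (IntermediateField.adjoin L (E : Set K)) < g) {s : AlgebraicClosure K}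
    (hs : Transcendental (algebraicClosure E (AlgebraicClosure K)) s)
    (hL : ∀ z : L, algebraMap K (AlgebraicClosure K) (algebraMap L K z) ∈
      IntermediateField.adjoin (algebraicClosure E (AlgebraicClosure K)) {s}) :
    ∀ τ : K →ₐ[L] AlgebraicClosure K, ∀ z ∈ E, τ z ∈ algebraicClosure E (AlgebraicClosure K) := by
  intro τ z hz
  let Λ := algebraicClosure E (AlgebraicClosure K)
  have hΛ : IsAlgClosed Λ := (algebraicClosure.isAlgClosure E (AlgebraicClosure K)).isAlgClosed
  have hTΛ : IsScalarTower ℂ Λ (AlgebraicClosure K) := IsScalarTower.of_algebraMap_eq fun z => by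
    rw [IsScalarTower.algebraMap_apply ℂ K (AlgebraicClosure K)]
    rfl
  have hTE : IsScalarTower ℂ E Λ := IsScalarTower.of_algebraMap_eq fun z => by
    apply Subtype.ext
    rfl
  have hΛtr : Algebra.trdeg ℂ Λ = n := by
    have h1 := trdeg_add_eq ℂ E (A := Λ)
    have h2 : Algebra.trdeg E Λ = 0 := by
      rw [trdeg_eq_zero_iff]
      infer_instance
    rw [h2, add_zero, hE] at h1
    exact h1.symm
  obtain ⟨A, hA⟩ : ∃ A, A = IntermediateField.adjoin L (E : Set K) := ⟨_, rfl⟩
  rw [← hA] at hdeg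
  have hτL : ∀ a : L, τ (algebraMap L K a) ∈ IntermediateField.adjoin Λ {s} := by
    intro a
    rw [AlgHom.commutes, IsScalarTower.algebraMap_apply L K (AlgebraicClosure K)]
    exact hL a
  obtain ⟨hf1, hf2⟩ := adj_le (A0 := L) (A := A) (R := Λ⟮s⟯)
    ((τ : K →+* AlgebraicClosure K).comp (algebraMap A K))
    (fun a => ⟨⟨τ (algebraMap L K a), hτL a⟩, rfl⟩)
  let φ : E →ₐ[ℂ] AlgebraicClosure K := (τ.restrictScalars ℂ).comp E.val
  have hle : IntermediateField.adjoin Λ⟮s⟯ (Set.range φ) ≤ IntermediateField.adjoin Λ⟮s⟯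
      (Set.range ((τ : K →+* AlgebraicClosure K).comp (algebraMap A K))) := by
    apply IntermediateField.adjoin.mono
    rintro _ ⟨w, rfl⟩
    exact ⟨⟨(w : K), by rw [hA]; exact IntermediateField.subset_adjoin _ _ w.2⟩, rfl⟩
  have hfin : FiniteDimensional Λ⟮s⟯ (IntermediateField.adjoin Λ⟮s⟯ (Set.range φ)) :=
    FiniteDimensional.of_injective (IntermediateField.inclusion hle).toLinearMap
      (IntermediateField.inclusion hle).injective
  have hfr : finrank Λ⟮s⟯ (IntermediateField.adjoin Λ⟮s⟯ (Set.range φ)) ≤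
      finrank Λ⟮s⟯ (IntermediateField.adjoin Λ⟮s⟯
        (Set.range ((τ : K →+* AlgebraicClosure K).comp (algebraMap A K)))) :=
    IntermediateField.finrank_le_of_le_right hle
  have h1 := cst E Λ (AlgebraicClosure K) n n hE hΛtr x hx g hsep s hs φ hfin (by omega) ⟨z, hz⟩
  have h2 : IsAlgebraic E (τ z) := h1.restrictScalars E
  exact mem_algebraicClosure_iff.2 h2

/-- the base of the fibration -/
theorem base1 {n : ℕ} (E : IntermediateField ℂ K)
    [hess : Algebra.EssFiniteType ℂ E] (hE : Algebra.trdeg ℂ E = n)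
    (hcl : ∀ z : K, IsAlgebraic E z → z ∈ E)
    {x : Fin n → E} (hx : IsTranscendenceBasis ℂ x) {g : ℕ} (hsep : SepX x (fun _ => False) g)
    (hdeg : finrank L (IntermediateField.adjoin L (E : Set K)) < g)
    (hfirst : ∀ z ∈ E, IsAlgebraic (E.comap (IsScalarTower.toAlgHom ℂ L K)) z) :
    Algebra.trdeg ℂ (E.comap (IsScalarTower.toAlgHom ℂ L K)) = n ∧
    0 < relfinrank ((E.comap (IsScalarTower.toAlgHom ℂ L K)).map
      (IsScalarTower.toAlgHom ℂ L K)) E ∧
    relfinrank ((E.comap (IsScalarTower.toAlgHom ℂ L K)).map (IsScalarTower.toAlgHom ℂ L K)) E ≤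
      finrank L (IntermediateField.adjoin L (E : Set K)) ∧
    ¬ PGZ (E.comap (IsScalarTower.toAlgHom ℂ L K)) n := by
  obtain ⟨N, hN⟩ : ∃ N, N = E.comap (IsScalarTower.toAlgHom ℂ L K) := ⟨_, rfl⟩
  have hclN : ∀ z : L, IsAlgebraic N z → z ∈ N := by
    intro z hz
    subst hN
    exact closed_comap E hcl hz
  have hNB' : ∀ z ∈ N, algebraMap L K z ∈ E := by
    intro z hz
    rw [hN] at hz
    exact hz
  have hNB : ∀ z : N, algebraMap L K z ∈ E := fun z => hNB' z z.2
  rw [← hN] at hfirst ⊢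
  let iB : Algebra N E := (RingHom.mk ⟨⟨fun z => ⟨algebraMap L K z, hNB z⟩,
    Subtype.ext (map_one (algebraMap L K))⟩, fun a b => Subtype.ext (map_mul (algebraMap L K) _ _)⟩
    (Subtype.ext (map_zero (algebraMap L K))) (fun a b => Subtype.ext (map_add (algebraMap L K) _ _))
    : N →+* E).toAlgebra
  have hBK : IsScalarTower N E K := IsScalarTower.of_algebraMap_eq fun _ => rfl
  have hCB : IsScalarTower ℂ N E := IsScalarTower.of_algebraMap_eq fun c =>
    Subtype.ext (IsScalarTower.algebraMap_apply ℂ L K c)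
  have hBalg : Algebra.IsAlgebraic N E := by
    constructor
    intro b
    exact (isAlgebraic_algebraMap_iff (R := N) (algebraMap E K).injective).1 (hfirst _ b.2)
  have hBess' : Algebra.EssFiniteType N E := Algebra.EssFiniteType.of_comp ℂ N E
  have hBfin : FiniteDimensional N E := Algebra.finite_of_essFiniteType_of_isAlgebraic
  have hNtr : Algebra.trdeg ℂ N = n := Pool.Agent.Y184.NT.trdeg_below (K := E) hE
  have hclN' : ∀ x : L, IsIntegral N x → ∃ y : N, algebraMap N L y = x := fun x hx =>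
    ⟨⟨x, hclN x hx.isAlgebraic⟩, rfl⟩
  have hchN : CharZero N := charZero_of_injective_algebraMap (algebraMap ℂ N).injective
  have e1 : finrank N E ≤ finrank L (IntermediateField.adjoin L (E : Set K)) :=
    finrank_le_of_disj (N := N) (L := L) (A := E) (K := K) hclN'
      (IntermediateField.adjoin L (E : Set K)) fun a => IntermediateField.subset_adjoin _ _ a.2
  have hle : N.map (IsScalarTower.toAlgHom ℂ L K) ≤ E := by
    rintro _ ⟨z, hz, rfl⟩
    exact hNB' z hz
  have e2 : relfinrank (N.map (IsScalarTower.toAlgHom ℂ L K)) E = finrank N E := by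
    rw [relfinrank_eq_finrank_of_le hle]
    let j : E ≃+* extendScalars hle :=
      { toFun := fun z => ⟨z.1, z.2⟩
        invFun := fun z => ⟨z.1, z.2⟩
        left_inv := fun _ => rfl
        right_inv := fun _ => rfl
        map_mul' := fun _ _ => rfl
        map_add' := fun _ _ => rfl }
    refine (Algebra.finrank_eq_of_equiv_equiv
      (N.equivMap (IsScalarTower.toAlgHom ℂ L K)).toRingEquiv j ?_).symm
    ext z
    rfl
  refine ⟨hNtr, ?_, ?_, pg_pos hE hx hsep (lt_of_le_of_lt e1 hdeg)⟩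
  · rw [e2]
    exact finrank_pos
  · rw [e2]
    exact e1

end

section

variable {K : Type} [Field K] [Algebra ℂ K] {n : ℕ} {L : Type} [Field L] [Algebra ℂ L]
  [Algebra L K] [IsScalarTower ℂ L K] [FiniteDimensional L K]

/-- the fibration with geometrically rational fibres -/
def Fib0 (E : IntermediateField ℂ K) (L : Type) [Field L] [Algebra ℂ L] [Algebra L K]
    [IsScalarTower ℂ L K] (n d : ℕ) : Prop :=
  ∃ N : IntermediateField ℂ L, (∀ z : L, IsAlgebraic N z → z ∈ N) ∧ Algebra.trdeg ℂ N = n ∧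
    N.map (IsScalarTower.toAlgHom ℂ L K) ≤ E ∧
    0 < relfinrank (N.map (IsScalarTower.toAlgHom ℂ L K)) E ∧
    relfinrank (N.map (IsScalarTower.toAlgHom ℂ L K)) E ≤ d ∧ ¬ PGZ N n ∧
    ∃ (M : Type) (_ : Field M) (_ : Algebra N M),
      Algebra.IsAlgebraic N M ∧ Nonempty (L →ₐ[N] RatFunc M)

theorem pgz_log : LogGenusZero L n (fun _ => False) → PGZ L n := by
  intro h ω h1 h2 D
  exact h ω ⟨h1, fun P hP D' hD' => h2 P hP D' fun i =>
    Pool.Agent.TH466.QG.derReg_of_log (hD' i), fun P hP _ => h2 P hP⟩ D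

theorem log_pgz : PGZ L n → LogGenusZero L n (fun _ => False) := by
  intro h ω h1 D
  exact h ω h1.1 (fun P hP => h1.2.2 P hP not_false) D

theorem unir_of_fib {N : IntermediateField ℂ L} [Algebra.EssFiniteType ℂ L]
    (hL : Algebra.trdeg ℂ L = (n + 1 : ℕ)) (hN : Algebra.trdeg ℂ N = n) {M : Type} [Field M]
    [Algebra N M] [Algebra.IsAlgebraic N M] (φ : L →ₐ[N] RatFunc M) :
    IsUniruled ℂ L (n + 1) := by
  let a1 : Algebra ℂ M := ((algebraMap N M).comp (algebraMap ℂ N)).toAlgebra
  have t2 : IsScalarTower ℂ N M := IsScalarTower.of_algebraMap_eq fun c => rfl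
  have hM : Algebra.trdeg ℂ M = n := by
    have h1 := trdeg_add_eq ℂ N (A := M)
    have h2 : Algebra.trdeg N M = 0 := by
      rw [trdeg_eq_zero_iff]
      infer_instance
    rw [h2, add_zero, hN] at h1
    exact h1.symm
  let ψ : L →ₐ[ℂ] RatFunc M :=
    { φ.toRingHom with
      commutes' := fun c => by
        change φ (algebraMap ℂ L c) = _
        have h2 : (algebraMap N L) (algebraMap ℂ N c) = algebraMap ℂ L c := rfl
        rw [← h2, φ.commutes, IsScalarTower.algebraMap_apply N M (RatFunc M),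
          IsScalarTower.algebraMap_apply ℂ M (RatFunc M)]
        rfl }
  exact Pool.Agent.R882.GL.uniruled_geo hL hM rfl ψ RatFunc.X RatFunc.transcendental_X
    fun e => by
      rw [RatFunc.adjoin_X]
      trivial

/-- **Varieties of geometric genus zero.** -/
theorem five_all [Algebra.EssFiniteType ℂ K] {E C : IntermediateField ℂ K}
    [Algebra.EssFiniteType ℂ E] [IsFF ℂ C]
    (hsup : E ⊔ C = ⊤) (hE : Algebra.trdeg ℂ E = n) (hK : Algebra.trdeg ℂ K = (n + 1 : ℕ))
    {x : Fin n → E} (hx : IsTranscendenceBasis ℂ x) {g : ℕ} (hsep : SepX x (fun _ => False) g)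
    (hd : finrank L (IntermediateField.adjoin L (E : Set K)) < g) :
    [PGZ L (n + 1), ¬ KodGe ℂ L (n + 1) (fun _ => False) 0, ¬ Psef ℂ L (n + 1) (fun _ => False),
      IsUniruled ℂ L (n + 1),
      Fib0 E L n (finrank L (IntermediateField.adjoin L (E : Set K)))].TFAE := by
  have hL : Algebra.trdeg ℂ L = (n + 1 : ℕ) := Pool.Agent.Y184.NT.trdeg_below (K := K) hK
  have hessL : Algebra.EssFiniteType ℂ L := Pool.Agent.TH466.QG.ess_below (K := K)
  obtain ⟨t, ht⟩ := IsFF.exists_transcendental (k := ℂ) (K := C)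
  obtain ⟨D0, hD0⟩ := exists_D ht
  obtain ⟨hna, -, hcl⟩ := closed K n E C hsup hE hK
  have hBd : ∀ Q : Place ℂ K, ¬ BdX (K := K) (E := E) (C := C) (fun _ => False)
      (∅ : Set (Place ℂ C)) Q := by
    rintro Q (⟨_, _, h3, -⟩ | ⟨_, h3, -⟩)
    · exact h3
    · exact h3
  obtain ⟨y, G, h, hy, hG, hh, hreg, hval⟩ := exists_traceX (L := L) (BL := fun _ => False) sec hE
    hK hx (fun _ => False) ht (basis_zz hK hx (hna t ht)) hD0 (∅ : Set (Place ℂ C))
    fun P Q e h1 h2 => hBd Q h2
  have hθE : ∀ t, trForm y t G = t := by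
    intro t
    have h1 : (Matrix.of fun i j => G i (y j) : Matrix (Fin (n + 1)) (Fin (n + 1)) L) = 1 := by
      ext i j
      rw [Matrix.of_apply, hG, Matrix.one_apply]
    rw [trForm, h1, Matrix.det_one, one_mul]
  have hge := geo K n E C hsup hE hK x hx t ht D0 hD0 L h hval
  tfae_have 1 → 5 := by
    intro hz
    have h0 : ∀ φ ∈ HL D0 (∅ : Set (Place ℂ C)),
        Algebra.trace (IntermediateField.adjoin L (E : Set K)) K (h * (φ : K)) = 0 := by
      intro φ hφ
      refine rel_oneI hsep hd (H := {z | ∃ φ ∈ HL D0 (∅ : Set (Place ℂ C)), z = (φ : K)})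
        (fun f hf φ hφ => ?_) ⟨φ, hφ, rfl⟩
      obtain ⟨ψ, hψ, rfl⟩ := hφ
      have h1 := hz (trForm y (Algebra.trace L K (h * (algebraMap E K f * algebraMap C K ψ))))
        (trForm_pluri y _) (fun P hP => (hreg f hf ψ hψ P hP).2 fun h => h) G
      rwa [hθE] at h1
    obtain ⟨s, hs, hsL⟩ := hge h0
    have hconst := const_E1 E hE hx hsep hd hs hsL
    have hfirst : ∀ z ∈ E, IsAlgebraic (E.comap (IsScalarTower.toAlgHom ℂ L K)) z := fun z hz =>
      alg_of_const E hcl fun τ => hconst τ z hz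
    obtain ⟨h2, h3, h4, h5⟩ := base1 E hE hcl hx hsep hd hfirst
    refine ⟨_, fun z hz => closed_comap _ hcl hz, h2, ?_, h3, h4, h5,
      to_ratfunc _ hs hsL hfirst⟩
    rintro _ ⟨z, hz, rfl⟩
    exact hz
  tfae_have 5 → 4 := by
    rintro ⟨N, -, hN, -, -, -, -, M, i1, i2, i3, ⟨φ⟩⟩
    exact unir_of_fib hL hN φ
  tfae_have 4 → 3 := fun h' h =>
    (Pool.Agent.W619.Y.uniruled_neg (n + 1) hL h').1 ((Pool.Agent.TH466.QG.psef_iff (n + 1)).1 h)
  tfae_have 3 → 2 := fun h1 h2 => h1 (psef_of_kodGe' h2)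
  tfae_have 2 → 1 := by
    intro h2
    refine pgz_log ?_
    exact ((genus_all (L := L) hsup hE hK hx (BX := fun _ => False) (B := (∅ : Set (Place ℂ C)))
      Set.finite_empty (BL := fun _ => False)
      (fun P Q e h1 => ⟨fun h => absurd h id, fun h => absurd h (hBd Q)⟩) hsep hd).out 0 1).2 h2
  tfae_finish

end

end Pool.Agent.N145.SX
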