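import Pool.Agent.N145.SX.MLang

/-!
Varieties dominated by the product of several varieties and a curve: all parts together.
-/

set_option autoImplicit false
set_option linter.overlappingInstances false
set_option linter.unusedSectionVars false
set_option linter.unusedVariables false
set_option maxHeartbeats 4000000
set_option synthInstance.maxHeartbeats 400000

open Polynomial FF IntermediateField Module

namespace Pool.Agent.N145.SX

open Pool.Agent.W603.LV Pool.Agent.W619.PQ Pool.Agent.N145.PC Pool.Agent.N145.PL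
open Pool.Agent.W602.GT (Divisorial RegAt IsPluri DerReg DerLog LogAt KodGe LogSec Psef)
open Pool.Agent.Y184.NT (trForm trForm_pluri)
open Pool.Agent.R882.LT (SecAt LogGenusZero)
open Pool.Agent.W619.PL (IsA1Uniruled)

open scoped Classical

section

variable {K : Type} [Field K] [Algebra ℂ K] {k : ℕ} {F : Fin (k + 1) → IntermediateField ℂ K}
  {m : Fin k → ℕ} {L : Type} [Field L] [Algebra ℂ L]
  [Algebra L K] [IsScalarTower ℂ L K] [FiniteDimensional L K]

theorem multi_all [Algebra.EssFiniteType ℂ K]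
    [∀ i, Algebra.EssFiniteType ℂ (F i)] [IsFF ℂ (F (Fin.last k))] (hsup : ⨆ i, F i = ⊤)
    (hm : ∀ i : Fin k, Algebra.trdeg ℂ (F i.castSucc) = m i)
    (hK : Algebra.trdeg ℂ K = (∑ i, m i + 1 : ℕ)) {x : ∀ i : Fin k, Fin (m i) → F i.castSucc}
    (hx : ∀ i, IsTranscendenceBasis ℂ (x i))
    {g : Fin k → ℕ} (hsep : ∀ i, SepX (x i) (fun _ => False) (g i))
    (hd : ∀ i : Fin k, 2 * finrank (MF F L (Js (k + 1) i)) (IntermediateField.adjoin
      (MF F L (Js (k + 1) i)) (F i.castSucc : Set K)) < g i) :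
    [Psef ℂ L (∑ i, m i + 1) (fun _ => False),
      KodGe ℂ L (∑ i, m i + 1) (fun _ => False) (∑ i, m i),
      ¬ IsUniruled ℂ L (∑ i, m i + 1)].TFAE ∧
    [KodGe ℂ L (∑ i, m i + 1) (fun _ => False) (∑ i, m i + 1),
      CanGe L (∑ i, m i + 1) (∑ i, m i + 1), ¬ Cov1 L (∑ i, m i)].TFAE ∧
    ∀ j : ℕ, KodGe ℂ L (∑ i, m i + 1) (fun _ => False) j ↔ CanGe L (∑ i, m i + 1) j := by
  have hL : Algebra.trdeg ℂ L = (∑ i, m i + 1 : ℕ) := Pool.Agent.Y184.NT.trdeg_below (K := K) hK
  have hessL : Algebra.EssFiniteType ℂ L := Pool.Agent.TH466.QG.ess_below (K := K)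
  have h13 : Psef ℂ L (∑ i, m i + 1) (fun _ => False) → ¬ IsUniruled ℂ L (∑ i, m i + 1) :=
    fun h h' => (Pool.Agent.W619.Y.uniruled_neg _ hL h').1
      ((Pool.Agent.TH466.QG.psef_iff _).1 h)
  have h32 : ¬ IsUniruled ℂ L (∑ i, m i + 1) → CanGe L (∑ i, m i + 1) (∑ i, m i) := fun h =>
    (multi_dich hsup hm hK hx hsep hd).resolve_left h
  have hlang : [KodGe ℂ L (∑ i, m i + 1) (fun _ => False) (∑ i, m i + 1),
      CanGe L (∑ i, m i + 1) (∑ i, m i + 1), ¬ Cov1 L (∑ i, m i)].TFAE := by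
    tfae_have 1 → 3 := fun h1 h2 => not_gt_of_cov1 hL h2 h1
    tfae_have 3 → 2 := fun h => (multi_lang hsup hm hK hx hsep hd).resolve_right h
    tfae_have 2 → 1 := kodGe_of_canGe
    tfae_finish
  refine ⟨?_, hlang, ?_⟩
  · tfae_have 1 → 3 := h13
    tfae_have 3 → 2 := fun h => kodGe_of_canGe (h32 h)
    tfae_have 2 → 1 := psef_of_kodGe'
    tfae_finish
  · intro j
    refine ⟨fun h => ?_, kodGe_of_canGe⟩
    have h1 : CanGe L (∑ i, m i + 1) (∑ i, m i) := h32 (h13 (psef_of_kodGe' h))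
    rcases lt_trichotomy j (∑ i, m i + 1) with hj | hj | hj
    · exact canGe_mono (by omega) h1
    · subst hj
      exact (hlang.out 0 1).1 h
    · exfalso
      obtain ⟨w, hw, ω, hω, D, hD, hind⟩ := h
      have h2 := hind.lift_cardinalMk_le_trdeg
      rw [hL] at h2
      simp only [Cardinal.mk_fin, Cardinal.lift_natCast] at h2
      have h3 : j ≤ ∑ i, m i + 1 := by exact_mod_cast h2
      omega

/-- the relation between the notions of fibres: the degrees -/
theorem mf_eq (i : ℕ) : MF F L (Js (k + 1) i) =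
    IntermediateField.adjoin L {z | ∃ l : Fin (k + 1), l.val < i ∧ z ∈ F l} := by
  unfold MF MJ
  congr 1
  ext z
  simp only [Set.mem_iUnion, mem_Js, Set.mem_range, exists_prop]
  constructor
  · rintro ⟨l, hl, z, rfl⟩
    exact ⟨l, hl, z.2⟩
  · rintro ⟨l, hl, hz⟩
    exact ⟨l, hl, ⟨z, hz⟩, rfl⟩

end

end Pool.Agent.N145.SX
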