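import Pool.Agent.N145.SX.MStr

/-!
The structure of varieties dominated by the product of several varieties and a curve: the fibration.
-/

set_option autoImplicit false
set_option linter.overlappingInstances false
set_option linter.unusedSectionVars false
set_option linter.unusedVariables false
set_option maxHeartbeats 4000000
set_option synthInstance.maxHeartbeats 400000

open Polynomial FF IntermediateField Module

namespace Pool.Agent.N145.SX

open Pool.Agent.W603.LV Pool.Agent.W619.PQ Pool.Agent.N145.PC Pool.Agent.N145.PL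
open Pool.Agent.W602.GT (Divisorial RegAt IsPluri DerReg DerLog LogAt KodGe LogSec Psef)

open scoped Classical

section

variable {K : Type} [Field K] [Algebra ℂ K] {k : ℕ} {F : Fin (k + 1) → IntermediateField ℂ K}
  {m : Fin k → ℕ} {L : Type} [Field L] [Algebra ℂ L]
  [Algebra L K] [IsScalarTower ℂ L K] [FiniteDimensional L K]

/-- the base of the fibration -/
theorem base_multi [Algebra.EssFiniteType ℂ K] [∀ i, Algebra.EssFiniteType ℂ (F i)]
    (hm : ∀ i : Fin k, Algebra.trdeg ℂ (F i.castSucc) = m i)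
    {x : ∀ i : Fin k, Fin (m i) → F i.castSucc} (hx : ∀ i, IsTranscendenceBasis ℂ (x i))
    {g : Fin k → ℕ} (hsep : ∀ i, SepX (x i) (fun _ => False) (g i))
    (hd : ∀ i : Fin k, 2 * finrank (MF F L (Js (k + 1) i)) (IntermediateField.adjoin
      (MF F L (Js (k + 1) i)) (F i.castSucc : Set K)) < g i)
    {E : IntermediateField ℂ K} [Algebra.EssFiniteType ℂ E]
    (hE : E = ⨆ i : Fin k, F i.castSucc)
    (htrE : Algebra.trdeg ℂ E = (∑ i, m i : ℕ)) (hcl : ∀ z : K, IsAlgebraic E z → z ∈ E)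
    (hfirst : ∀ z ∈ E, IsAlgebraic (E.comap (IsScalarTower.toAlgHom ℂ L K)) z) :
    Algebra.trdeg ℂ (E.comap (IsScalarTower.toAlgHom ℂ L K)) = (∑ i, m i : ℕ) ∧
    CanGe (E.comap (IsScalarTower.toAlgHom ℂ L K)) (∑ i, m i) (∑ i, m i) := by
  obtain ⟨N, hN⟩ : ∃ N, N = E.comap (IsScalarTower.toAlgHom ℂ L K) := ⟨_, rfl⟩
  have hclN : ∀ z : L, IsAlgebraic N z → z ∈ N := by
    intro z hz
    subst hN
    exact closed_comap E hcl hz
  have hNB' : ∀ z ∈ N, algebraMap L K z ∈ E := by
    intro z hz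
    rw [hN] at hz
    exact hz
  have hNB : ∀ z : N, algebraMap L K z ∈ E := fun z => hNB' z z.2
  rw [← hN] at hfirst ⊢
  let iB : Algebra N E := (RingHom.mk ⟨⟨fun z => ⟨algebraMap L K z, hNB z⟩,
    Subtype.ext (map_one (algebraMap L K))⟩, fun a b => Subtype.ext (map_mul (algebraMap L K) _ _)⟩
    (Subtype.ext (map_zero (algebraMap L K))) (fun a b => Subtype.ext (map_add (algebraMap L K) _ _))
    : N →+* E).toAlgebra
  have hBK : IsScalarTower N E K := IsScalarTower.of_algebraMap_eq fun _ => rfl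
  have hNLK : IsScalarTower N L K := IsScalarTower.of_algebraMap_eq fun _ => rfl
  have hCB : IsScalarTower ℂ N E := IsScalarTower.of_algebraMap_eq fun c =>
    Subtype.ext (IsScalarTower.algebraMap_apply ℂ L K c)
  have hCL : IsScalarTower ℂ N L := IsScalarTower.of_algebraMap_eq fun c => rfl
  have hBalg : Algebra.IsAlgebraic N E := by
    constructor
    intro b
    exact (isAlgebraic_algebraMap_iff (R := N) (algebraMap E K).injective).1 (hfirst _ b.2)
  have hBess' : Algebra.EssFiniteType N E := Algebra.EssFiniteType.of_comp ℂ N E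
  have hBfin : FiniteDimensional N E := Algebra.finite_of_essFiniteType_of_isAlgebraic
  have hNtr : Algebra.trdeg ℂ N = (∑ i, m i : ℕ) :=
    Pool.Agent.Y184.NT.trdeg_below (K := E) htrE
  have hclN' : ∀ z : L, IsAlgebraic N z → ∃ y : N, algebraMap N L y = z := fun z hz =>
    ⟨⟨z, hclN z hz⟩, rfl⟩
  have hle : ∀ i : Fin k, F i.castSucc ≤ E := fun i => by
    rw [hE]
    exact le_iSup (fun i : Fin k => F i.castSucc) i
  have hdeg := Pool.Agent.N277.SX.deg K k F E hle hE hcl L N hclN'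
  refine ⟨hNtr, ?_⟩
  let F' : Fin k → IntermediateField ℂ E := fun l => IntermediateField.restrict (hle l)
  let ε : ∀ i : Fin k, F i.castSucc ≃ₐ[ℂ] F' i := fun i => IntermediateField.restrictAlgEquiv (hle i)
  have hess' : ∀ i, Algebra.EssFiniteType ℂ (F' i) := fun i =>
    (Algebra.EssFiniteType.iff_of_algEquiv (ε i)).1 inferInstance
  have htr' : ∀ i, Algebra.trdeg ℂ (F' i) = m i := fun i => by
    rw [← hm i]
    exact (AlgEquiv.trdeg_eq (ε i)).symm
  have hsup' : ⨆ i, F' i = ⊤ := by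
    rw [eq_top_iff]
    rintro z -
    have h1 : E ≤ (⨆ i, F' i).map E.val := by
      conv_lhs => rw [hE]
      refine iSup_le fun i v hv => ?_
      refine ⟨⟨v, hle i hv⟩, ?_, rfl⟩
      exact (le_iSup F' i) ((IntermediateField.mem_restrict (hle i) _).2 hv)
    obtain ⟨w, hw, hwz⟩ := h1 z.2
    have h2 : w = z := Subtype.ext hwz
    rw [← h2]
    exact hw
  have hbas : ∀ i, IsTranscendenceBasis ℂ fun j => ε i (x i j) := by
    intro i
    have hi : AlgebraicIndependent ℂ fun j => ε i (x i j) :=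
      (hx i).1.map' (f := ((ε i : F i.castSucc ≃ₐ[ℂ] F' i) : F i.castSucc →ₐ[ℂ] F' i))
        (ε i).injective
    refine hi.isTranscendenceBasis_of_lift_trdeg_le_of_finite ?_
    rw [htr' i]
    simp
  exact mgt (K := E) (F := F') (L := N) hsup' htr' htrE (x := fun i j => ε i (x i j)) hbas
    (g := g) (fun i => sepeq _ _ (ε i) (m i) (hm i) (x i) (hx i) (g i) (hsep i)) fun i =>
      lt_of_le_of_lt (Nat.mul_le_mul_left 2 (hdeg i)) (hd i)

/-- **The structure of varieties dominated by a product of varieties and a curve.** -/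
theorem multi_str [Algebra.EssFiniteType ℂ K]
    [∀ i, Algebra.EssFiniteType ℂ (F i)] [IsFF ℂ (F (Fin.last k))] (hsup : ⨆ i, F i = ⊤)
    (hm : ∀ i : Fin k, Algebra.trdeg ℂ (F i.castSucc) = m i)
    (hK : Algebra.trdeg ℂ K = (∑ i, m i + 1 : ℕ)) {x : ∀ i : Fin k, Fin (m i) → F i.castSucc}
    (hx : ∀ i, IsTranscendenceBasis ℂ (x i))
    {g : Fin k → ℕ} (hsep : ∀ i, SepX (x i) (fun _ => False) (g i))
    (hd : ∀ i : Fin k, 2 * finrank (MF F L (Js (k + 1) i)) (IntermediateField.adjoin
      (MF F L (Js (k + 1) i)) (F i.castSucc : Set K)) < g i) :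
    CanGe L (∑ i, m i + 1) (∑ i, m i) ∨ ∃ N : IntermediateField ℂ L,
      (∀ z : L, IsAlgebraic N z → z ∈ N) ∧ Algebra.trdeg ℂ N = (∑ i, m i : ℕ) ∧
      CanGe N (∑ i, m i) (∑ i, m i) ∧ ∃ (M : Type) (_ : Field M) (_ : Algebra N M),
        Algebra.IsAlgebraic N M ∧ Nonempty (L →ₐ[N] RatFunc M) := by
  obtain ⟨E, hE⟩ : ∃ E, E = ⨆ i : Fin k, F i.castSucc := ⟨_, rfl⟩
  rcases multi_geo (L := L) hsup hm hK hx hsep hd with h | ⟨s, hs, hsL⟩
  · exact Or.inl h
  right
  rw [← hE] at hs hsL
  have hind := ind_all hsup hK hx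
  obtain ⟨e⟩ : Nonempty (Fin (∑ i, m i) ≃ (i : Fin k) × Fin (m i)) := ⟨finSigmaFinEquiv.symm⟩
  have hle : ∀ i : Fin k, F i.castSucc ≤ E := fun i => by
    rw [hE]
    exact le_iSup (fun i : Fin k => F i.castSucc) i
  have hessE : Algebra.EssFiniteType ℂ E := ess_iSup (F := fun i : Fin k => F i.castSucc) hE
  have hz := basis_zS x hle e hx hind hE
  have htrE := trdeg_basis hz
  have hsup' : E ⊔ F (Fin.last k) = ⊤ := by
    rw [eq_top_iff, ← hsup]
    refine iSup_le fun i => ?_
    induction i using Fin.lastCases with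
    | last => exact le_sup_right
    | cast i => exact (hle i).trans le_sup_left
  obtain ⟨-, -, hcl⟩ := closed K (∑ i, m i) E (F (Fin.last k)) hsup' htrE hK
  have hconst := const_multi (L := L) hm hx hsep (fun i => lt_of_le_of_lt
    (Nat.le_mul_of_pos_left _ two_pos) (hd i)) hE htrE hs hsL
  have hfirst : ∀ z ∈ E, IsAlgebraic (E.comap (IsScalarTower.toAlgHom ℂ L K)) z := fun z hz =>
    alg_of_const E hcl fun τ => hconst τ z hz
  obtain ⟨h2, h3⟩ := base_multi (L := L) hm hx hsep hd hE htrE hcl hfirst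
  exact ⟨_, fun z hz => closed_comap _ hcl hz, h2, h3, to_ratfunc _ hs hsL hfirst⟩

end

end Pool.Agent.N145.SX
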