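import Pool.Agent.N145.SX.Multi2

/-!
Varieties dominated by the product of several varieties and a curve: general type, and coverings by
rational and elliptic curves.
-/

set_option autoImplicit false
set_option linter.overlappingInstances false
set_option linter.unusedSectionVars false
set_option linter.unusedVariables false
set_option maxHeartbeats 4000000
set_option synthInstance.maxHeartbeats 400000

open Polynomial FF IntermediateField Module

namespace Pool.Agent.N145.SX

open Pool.Agent.W603.LV Pool.Agent.W619.PQ Pool.Agent.N145.PC Pool.Agent.N145.PL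
open Pool.Agent.W602.GT (Divisorial RegAt IsPluri DerReg DerLog LogAt KodGe LogSec Psef)
open Pool.Agent.Y184.NT (trForm trForm_pluri)
open Pool.Agent.R882.LT (SecAt LogGenusZero)
open Pool.Agent.W619.PL (IsA1Uniruled)

open scoped Classical

section

variable {K : Type} [Field K] [Algebra ℂ K] {n : ℕ} {F : Fin n → IntermediateField ℂ K}
  {L Ω Ω' : Type} [Field L] [Field Ω] [Algebra ℂ L] [Algebra ℂ Ω]
  [Algebra L K] [IsScalarTower ℂ L K] [Algebra L Ω] [IsScalarTower ℂ L Ω]
  [FiniteDimensional L K] [IsAlgClosed Ω] [Field Ω'] [Algebra ℂ Ω'] (ι θ : Ω →ₐ[ℂ] Ω')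

/-- the relation if all coordinates except one agree -/
theorem rel2_both {H : ∀ i, Set (F i)} {h : K} {lam : Ω'} {τ0 τ : K →ₐ[L] Ω}
    {i0 : Fin n} (hτ : ∀ i, i ≠ i0 → ∀ z : F i, θ (τ z) = ι (τ0 z))
    (h1 : Rl (P2 ι θ F L) (ev Ω' F) H (C2 ι θ h lam) (Sum.inl τ0) (Finset.univ.erase i0))
    {φ : F i0} (hφ : φ ∈ H i0) :
    θ (τ ((Algebra.trace (MF F L (Finset.univ.erase i0)) K (h * (φ : K)) :
      MF F L (Finset.univ.erase i0)) : K)) =
    lam * ι (τ0 ((Algebra.trace (MF F L (Finset.univ.erase i0)) K (h * (φ : K)) :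
      MF F L (Finset.univ.erase i0)) : K)) := by
  obtain ⟨S1, -, h3, h4⟩ := Ch.exists_parts ι θ (F := F) τ0 (Finset.univ.erase i0)
  have hS1 : ∀ σ, σ ∈ S1 ↔ ∀ z ∈ MF F L (Finset.univ.erase i0), σ z = τ z := by
    intro σ
    rw [← h3, mem_SJ]
    have h5 := mem_iff (K := K) (L := L) (Ω := Ω) (E := fun i => F i) τ (Finset.univ.erase i0) σ
    rw [mem_SJ] at h5
    rw [← h5]
    refine forall₂_congr fun i hi => ?_
    have hi' : i ≠ i0 := (Finset.mem_erase.1 hi).1
    constructor
    · intro h6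
      refine AlgHom.ext fun z => θ.injective ?_
      have h7 : θ (σ z) = ι (τ0 z) := DFunLike.congr_fun h6 z
      exact h7.trans (hτ i hi' z).symm
    · intro h6
      refine AlgHom.ext fun z => ?_
      have h7 : σ (z : K) = τ z := DFunLike.congr_fun h6 z
      change θ (σ z) = ι (τ0 z)
      rw [h7]
      exact hτ i hi' z
  obtain ⟨f, hf⟩ : ∃ f : ∀ i, F i, f i0 = φ := ⟨Function.update (fun _ => 0) i0 φ,
    Function.update_self _ _ _⟩
  have h6 := h1 f (by
    intro i hi
    have : i = i0 := by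
      by_contra hne
      exact hi (Finset.mem_erase.2 ⟨hne, Finset.mem_univ _⟩)
    subst this
    rw [hf]
    exact hφ)
  have h8 : (Finset.univ.erase i0 : Finset (Fin n))ᶜ = {i0} := by
    ext i
    simp
  rw [h4, h8, Finset.sum_disjSum] at h6
  have e1 : ∑ σ ∈ SJ (fun i => res (K := K) (L := L) (Ω := Ω) (F i)) τ0 (Finset.univ.erase i0),
      C2 ι θ h lam (Sum.inl σ) * ∏ i ∈ ({i0} : Finset (Fin n)), ev Ω' F i (f i)
        (P2 ι θ F L i (Sum.inl σ)) =
      -(lam * ι (∑ σ ∈ SJ (fun i => res (K := K) (L := L) (Ω := Ω) (F i)) τ0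
        (Finset.univ.erase i0), σ (h * (φ : K)))) := by
    rw [map_sum, Finset.mul_sum, ← Finset.sum_neg_distrib]
    refine Finset.sum_congr rfl fun σ _ => ?_
    rw [Finset.prod_singleton, hf, map_mul, map_mul, ← mul_assoc, ← neg_mul]
    rfl
  have e2 : ∑ σ ∈ S1, C2 ι θ h lam (Sum.inr σ) * ∏ i ∈ ({i0} : Finset (Fin n)), ev Ω' F i (f i)
        (P2 ι θ F L i (Sum.inr σ)) = θ (∑ σ ∈ S1, σ (h * (φ : K))) := by
    rw [map_sum]
    refine Finset.sum_congr rfl fun σ _ => ?_
    rw [Finset.prod_singleton, hf, map_mul, map_mul]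
    rfl
  have s1 := sum_trace (MF F L (Finset.univ.erase i0)) τ0 _
    (mem_iff τ0 (Finset.univ.erase i0)) (h * (φ : K))
  have s2 := sum_trace (MF F L (Finset.univ.erase i0)) τ S1 hS1 (h * (φ : K))
  rw [e1, e2, s1, s2] at h6
  have h7 := eq_neg_of_add_eq_zero_right h6
  rw [neg_neg] at h7
  exact h7

end

/-- rational curves -/
theorem cov1_of_rat {K : Type} [Field K] [Algebra ℂ K] {L : Type} [Field L] [Algebra ℂ L]
    [Algebra L K] [IsScalarTower ℂ L K] {N : ℕ} {E : IntermediateField ℂ K}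
    (hE : Algebra.trdeg ℂ E = N) {s : AlgebraicClosure K}
    (hs : Transcendental (algebraicClosure E (AlgebraicClosure K)) s)
    (hL : ∀ z : L, algebraMap K (AlgebraicClosure K) (algebraMap L K z) ∈
      IntermediateField.adjoin (algebraicClosure E (AlgebraicClosure K)) {s}) : Cov1 L N := by
  obtain ⟨Λ, hΛdef⟩ : ∃ Λ, Λ = algebraicClosure E (AlgebraicClosure K) := ⟨_, rfl⟩
  have hΛ : IsAlgClosed Λ := by
    rw [hΛdef]
    exact (algebraicClosure.isAlgClosure E (AlgebraicClosure K)).isAlgClosed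
  have hΛalg : Algebra.IsAlgebraic E Λ := by
    rw [hΛdef]
    infer_instance
  rw [← hΛdef] at hs hL
  have hTE : IsScalarTower ℂ E Λ := IsScalarTower.of_algebraMap_eq fun z => by
    apply Subtype.ext
    rfl
  have hΛtr : Algebra.trdeg ℂ Λ = N := by
    have h1 := trdeg_add_eq ℂ E (A := Λ)
    have h2 : Algebra.trdeg E Λ = 0 := by
      rw [trdeg_eq_zero_iff]
      exact hΛalg
    rw [h2, add_zero, hE] at h1
    exact h1.symm
  have hch : CharZero Λ := charZero_of_injective_algebraMap (algebraMap ℂ Λ).injective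
  have hFF : IsFF Λ (RatFunc Λ) := by
    refine IsFF.of_finite (f := (RatFunc.X : RatFunc Λ)) RatFunc.transcendental_X ?_
    rw [RatFunc.adjoin_X]
    exact Module.Finite.of_surjective (Algebra.linearMap (⊤ : IntermediateField Λ (RatFunc Λ))
      (RatFunc Λ)) fun z => ⟨⟨z, trivial⟩, rfl⟩
  let e := RatFunc.algEquivOfTranscendental s hs
  let ψ : L →+* IntermediateField.adjoin Λ {s} :=
    { toFun := fun z => ⟨_, hL z⟩
      map_one' := Subtype.ext (by simp)
      map_mul' := fun a b => Subtype.ext (by simp)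
      map_zero' := Subtype.ext (by simp)
      map_add' := fun a b => Subtype.ext (by simp) }
  refine ⟨Λ, RatFunc Λ, inferInstance, inferInstance, inferInstance, inferInstance, inferInstance,
    inferInstance, hΛ, hFF, hΛtr, glo_of_flat (Or.inl ⟨RatFunc.X, RatFunc.adjoin_X⟩), ⟨?_⟩⟩
  exact
    { (e.symm : _ →+* RatFunc Λ).comp ψ with
      commutes' := fun c => by
        change e.symm (ψ (algebraMap ℂ L c)) = _
        have h1 : ψ (algebraMap ℂ L c) = algebraMap Λ _ (algebraMap ℂ Λ c) := by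
          apply Subtype.ext
          change algebraMap K (AlgebraicClosure K) (algebraMap L K (algebraMap ℂ L c)) = _
          rw [← IsScalarTower.algebraMap_apply ℂ L K]
          rfl
        rw [h1, AlgEquiv.commutes, ← IsScalarTower.algebraMap_apply] }

section

variable {K : Type} [Field K] [Algebra ℂ K] {k : ℕ} {F : Fin (k + 1) → IntermediateField ℂ K}
  {m : Fin k → ℕ} {L : Type} [Field L] [Algebra ℂ L]
  [Algebra L K] [IsScalarTower ℂ L K] [FiniteDimensional L K]

/-- **General type, or a covering by curves of genus at most one.** -/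
theorem multi_lang [Algebra.EssFiniteType ℂ K]
    [∀ i, Algebra.EssFiniteType ℂ (F i)] [IsFF ℂ (F (Fin.last k))] (hsup : ⨆ i, F i = ⊤)
    (hm : ∀ i : Fin k, Algebra.trdeg ℂ (F i.castSucc) = m i)
    (hK : Algebra.trdeg ℂ K = (∑ i, m i + 1 : ℕ)) {x : ∀ i : Fin k, Fin (m i) → F i.castSucc}
    (hx : ∀ i, IsTranscendenceBasis ℂ (x i))
    {g : Fin k → ℕ} (hsep : ∀ i, SepX (x i) (fun _ => False) (g i))
    (hd : ∀ i : Fin k, 2 * finrank (MF F L (Js (k + 1) i)) (IntermediateField.adjoin
      (MF F L (Js (k + 1) i)) (F i.castSucc : Set K)) < g i) :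
    CanGe L (∑ i, m i + 1) (∑ i, m i + 1) ∨ Cov1 L (∑ i, m i) := by
  have hL : Algebra.trdeg ℂ L = (∑ i, m i + 1 : ℕ) := Pool.Agent.Y184.NT.trdeg_below (K := K) hK
  have hessL : Algebra.EssFiniteType ℂ L := Pool.Agent.TH466.QG.ess_below (K := K)
  obtain ⟨N, hN⟩ : ∃ N, N = ∑ i, m i := ⟨_, rfl⟩
  obtain ⟨e⟩ : Nonempty (Fin N ≃ (i : Fin k) × Fin (m i)) := by
    rw [hN]
    exact ⟨finSigmaFinEquiv.symm⟩
  have hind := ind_all hsup hK hx
  rw [← hN] at hK hL ⊢
  obtain ⟨E, hE⟩ : ∃ E, E = ⨆ i : Fin k, F i.castSucc := ⟨_, rfl⟩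
  have hle : ∀ i : Fin k, F i.castSucc ≤ E := fun i => by
    rw [hE]
    exact le_iSup (fun i : Fin k => F i.castSucc) i
  have hessE : Algebra.EssFiniteType ℂ E := ess_iSup (F := fun i : Fin k => F i.castSucc) hE
  have hz := basis_zS x hle e hx hind hE
  have htrE := trdeg_basis hz
  have hsup' : E ⊔ F (Fin.last k) = ⊤ := by
    rw [eq_top_iff, ← hsup]
    refine iSup_le fun i => ?_
    induction i using Fin.lastCases with
    | last => exact le_sup_right
    | cast i => exact (hle i).trans le_sup_left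
  obtain ⟨t, ht⟩ := IsFF.exists_transcendental (k := ℂ) (K := F (Fin.last k))
  obtain ⟨D0, hD0⟩ := exists_D ht
  obtain ⟨hna, -, hcl⟩ := closed K N E (F (Fin.last k)) hsup' htrE hK
  obtain ⟨y, G, h, hy, hG, hh, hreg, hval⟩ := exists_traceX (L := L) (BL := fun _ => False) sec
    htrE hK hz (fun _ => False) ht (basis_zz hK hz (hna t ht)) hD0
    (∅ : Set (Place ℂ (F (Fin.last k))))
    fun P Q e h1 h2 => by
      rcases h2 with ⟨_, _, h3, -⟩ | ⟨_, h3, -⟩
      · exact h3
      · exact h3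
  have hge := geo K N E (F (Fin.last k)) hsup' htrE hK _ hz t ht D0 hD0 L h hval
  have hfin : (∀ φ ∈ HL D0 (∅ : Set (Place ℂ (F (Fin.last k)))),
      Algebra.trace (IntermediateField.adjoin L (E : Set K)) K (h * (φ : K)) = 0) →
      Cov1 L N := by
    intro h0
    obtain ⟨s, hs, hsL⟩ := hge h0
    exact cov1_of_rat htrE hs hsL
  obtain ⟨τ0⟩ : Nonempty (K →ₐ[L] AlgebraicClosure L) :=
    ⟨IsAlgClosed.lift (R := L) (M := AlgebraicClosure L) (S := K)⟩
  have hT' : IsScalarTower ℂ L (AlgebraicClosure L) := inferInstance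
  by_cases hz0 : ∀ φ ∈ HL D0 (∅ : Set (Place ℂ (F (Fin.last k)))),
      Algebra.trace (IntermediateField.adjoin L (E : Set K)) K (h * (φ : K)) = 0
  · exact Or.inr (hfin hz0)
  push Not at hz0
  obtain ⟨ψ0, hψ0, hS0⟩ := hz0
  obtain ⟨H, hH⟩ : ∃ H, H = HS x (fun _ _ => False) (HL D0 ∅ : Set (F (Fin.last k))) := ⟨_, rfl⟩
  have hHl : H (Fin.last k) = (HL D0 ∅ : Set (F (Fin.last k))) := by
    rw [hH]
    exact HS_last x _ _
  have hHc : ∀ i : Fin k, H i.castSucc = HX (x i) (fun _ => False) := fun i => by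
    rw [hH]
    exact HS_cast x _ _ i
  let I := {f : ∀ i, F i // ∀ i, f i ∈ H i}
  obtain ⟨T, hT⟩ : ∃ T : I → L, ∀ f, T f =
    Algebra.trace L K (h * ∏ i, algebraMap (F i) K (f.1 i)) := ⟨_, fun _ => rfl⟩
  have hTreg : ∀ f, ∀ P : Place ℂ L, Divisorial (N + 1) P → RegAt P (trForm y (T f)) := by
    intro f P hP
    obtain ⟨q, hq1, hq2⟩ := prods sec2 k (fun i => F i.castSucc) m hm x hx hind
      (fun _ _ => False) E hE hle N e
      (fun i => f.1 i.castSucc) (fun i => by
        have := f.2 i.castSucc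
        rwa [hHc] at this)
    have h1 := hreg q (hx_mono (by
      rintro Q ⟨_, _, _, h3, -⟩
      exact h3) hq2) (f.1 (Fin.last k)) (by
      have := f.2 (Fin.last k)
      rwa [hHl] at this) P hP
    have h2 : algebraMap E K q * algebraMap (F (Fin.last k)) K (f.1 (Fin.last k)) =
        ∏ i, algebraMap (F i) K (f.1 i) := by
      rw [Fin.prod_univ_castSucc]
      congr 1
    rw [h2] at h1
    rw [hT]
    exact h1.2 not_false
  obtain ⟨gg, hgg⟩ : ∃ gg : Fin (k + 1) → ℕ, gg = Fin.lastCases (motive := fun _ => ℕ) 0 g :=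
    ⟨_, rfl⟩
  have hggl : gg (Fin.last k) = 0 := by
    rw [hgg]
    exact Fin.lastCases_last
  have hggc : ∀ i : Fin k, gg i.castSucc = g i := fun i => by
    rw [hgg]
    exact Fin.lastCases_castSucc i
  have hS : ∀ (Ω : Type) [Field Ω] [Algebra ℂ Ω] [IsAlgClosed Ω] (i : Fin (k + 1)),
      Sep (ev Ω F i) (H i) (gg i) := by
    intro Ω _ _ _ i
    induction i using Fin.lastCases with
    | last =>
      intro A hA
      rw [hggl] at hA
      exact absurd hA (Nat.not_lt_zero _)
    | cast i =>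
      intro A hA c hc
      rw [hggc] at hA
      rw [hHc] at hc
      exact hsep i Ω A hA c hc
  have hno : ¬ (∀ f : ∀ i, F i, f (Fin.last k) ∈ H (Fin.last k) →
      Algebra.trace (MF F L (Finset.univ.erase (Fin.last k))) K
        (h * ∏ i, algebraMap (F i) K (f i)) = 0) := by
    intro h0
    have h1 := h0 (Fin.lastCases (motive := fun i => F i) ψ0 (fun _ => 1)) (by
      rw [Fin.lastCases_last, hHl]
      exact hψ0)
    rw [Fin.prod_univ_castSucc, Fin.lastCases_last] at h1
    simp only [Fin.lastCases_castSucc, map_one, Finset.prod_const_one, one_mul] at h1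
    rw [MF_erase hE] at h1
    exact hS0 h1
  obtain ⟨f1, hf1⟩ : ∃ f, T f ≠ 0 := by
    by_contra hT0
    push Not at hT0
    have h0 := Ch.rel_zero (F := F) (H := H) (h := h) (fun f hf => by
      have := hT0 ⟨f, hf⟩
      rwa [hT] at this) τ0
    have h1 := Rl.chain h0 (hS (AlgebraicClosure L)) (s := k) (fun l hl => by
      obtain ⟨i, rfl⟩ : ∃ i : Fin k, i.castSucc = l := ⟨⟨l.val, hl⟩, rfl⟩
      rw [hggc]
      exact lt_of_le_of_lt ((Ch.count_le τ0 _ _).trans (Nat.le_mul_of_pos_left _ two_pos))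
        (hd i))
    rw [erase_last] at h1
    exact hno fun f hf => Ch.rel_erase h1 f hf
  obtain ⟨Ω', iF, iA, iC, i1, i2, lam, hlam, hlamT, hpts⟩ := exists_pts T (f1 := f1) hf1
  have h0 : Rl (P2 i1 i2 F L) (ev Ω' F) H (C2 i1 i2 h lam) (Sum.inl τ0) ∅ :=
    Ch.rel2_zero i1 i2 (fun f hf => by
      have := hlamT ⟨f, hf⟩
      rw [hT] at this
      exact this) _
  have h1 := Rl.chain h0 (hS Ω') (s := k) (fun l hl => by
    obtain ⟨i, rfl⟩ : ∃ i : Fin k, i.castSucc = l := ⟨⟨l.val, hl⟩, rfl⟩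
    rw [hggc]
    exact lt_of_le_of_lt (Ch.count2_le i1 i2 τ0 _ _) (hd i))
  rw [erase_last] at h1
  obtain ⟨τ, hτ⟩ := (Ch.rel2_erase i1 i2 hlam h1).resolve_right hno
  -- the functions of `X` are algebraic over the ratios
  have hEalg : ∀ z : E, IsAlgebraic (Rt T) (z : K) := by
    have h2 : E ≤ (algebraicClosure (Rt T) K).restrictScalars ℂ := by
      rw [hE]
      refine iSup_le fun i v hv => ?_
      rw [mem_restrictScalars, mem_algebraicClosure_iff]
      exact alg_back τ0 (hpts _ _ (hτ i.castSucc (Fin.castSucc_ne_last _) ⟨v, hv⟩).symm)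
    intro z
    have h3 := h2 z.2
    rwa [mem_restrictScalars, mem_algebraicClosure_iff] at h3
  -- the general case
  have hgen : ∀ u : K, ¬ IsAlgebraic E u → IsAlgebraic (Rt T) u → CanGe L (N + 1) (N + 1) := by
    intro u hu hu'
    refine canGe_of_alg hL hG T ⟨f1, hf1⟩ hTreg (trdeg_adj (indep_snoc hz hu))
      fun j => ?_
    induction j using Fin.lastCases with
    | last =>
      rw [Fin.snoc_last]
      exact hu'
    | cast i =>
      rw [Fin.snoc_castSucc]
      exact hEalg _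
  by_cases hex : ∃ u : K, ¬ IsAlgebraic E u ∧ IsAlgebraic (Rt T) u
  · obtain ⟨u, hu, hu'⟩ := hex
    exact Or.inl (hgen u hu hu')
  push Not at hex
  have hall : ∀ u : K, IsAlgebraic (Rt T) u → u ∈ E := fun u hu => by
    by_contra hcon
    exact hex u (fun h => hcon (hcl u h)) hu
  -- the ratios of the traces
  have hrat : ∀ φ ∈ HL D0 (∅ : Set (Place ℂ (F (Fin.last k)))), ∃ c : E,
      ((Algebra.trace (IntermediateField.adjoin L (E : Set K)) K (h * (φ : K)) :
        IntermediateField.adjoin L (E : Set K)) : K) = (c : K) *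
      ((Algebra.trace (IntermediateField.adjoin L (E : Set K)) K (h * (ψ0 : K)) :
        IntermediateField.adjoin L (E : Set K)) : K) := by
    intro φ hφ
    have hr : ∀ ψ ∈ HL D0 (∅ : Set (Place ℂ (F (Fin.last k)))),
        i2 (τ ((Algebra.trace (IntermediateField.adjoin L (E : Set K)) K (h * (ψ : K)) :
          IntermediateField.adjoin L (E : Set K)) : K)) =
        lam * i1 (τ0 ((Algebra.trace (IntermediateField.adjoin L (E : Set K)) K (h * (ψ : K)) :
          IntermediateField.adjoin L (E : Set K)) : K)) := by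
      intro ψ hψ
      rw [← MF_erase hE]
      exact rel2_both i1 i2 hτ h1 (by rw [hHl]; exact hψ)
    obtain ⟨a, ha⟩ : ∃ a : K, a = ((Algebra.trace (IntermediateField.adjoin L (E : Set K)) K
      (h * (φ : K)) : IntermediateField.adjoin L (E : Set K)) : K) := ⟨_, rfl⟩
    obtain ⟨b, hb⟩ : ∃ b : K, b = ((Algebra.trace (IntermediateField.adjoin L (E : Set K)) K
      (h * (ψ0 : K)) : IntermediateField.adjoin L (E : Set K)) : K) := ⟨_, rfl⟩
    have hb0 : b ≠ 0 := by
      rw [hb]
      intro h0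
      exact hS0 (Subtype.ext h0)
    have h1 := hr φ hφ
    have h2 := hr ψ0 hψ0
    rw [← ha] at h1 ⊢
    rw [← hb] at h2 ⊢
    have h3 : i1 (τ0 (a / b)) = i2 (τ (a / b)) := by
      rw [map_div₀, map_div₀, map_div₀, map_div₀, h1, h2, mul_div_mul_left _ _ hlam]
    have h4 := hall _ (alg_back τ0 (hpts _ _ h3))
    exact ⟨⟨a / b, h4⟩, (div_mul_cancel₀ a hb0).symm⟩
  -- the base
  obtain ⟨M, hM⟩ : ∃ M : IntermediateField ℂ L, M = (algebraicClosure (Rt T) L).restrictScalars ℂ :=
    ⟨_, rfl⟩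
  have hNmem : ∀ z : L, z ∈ M ↔ IsAlgebraic (Rt T) z := by
    intro z
    rw [hM, mem_restrictScalars]
    exact mem_algebraicClosure_iff
  have hRN : Rt T ≤ M := fun z hz => (hNmem z).2 (isAlgebraic_algebraMap (⟨z, hz⟩ : Rt T))
  have hNE : ∀ z ∈ M, algebraMap L K z ∈ E := by
    intro z hz
    have h7 : IsAlgebraic (Rt T) (algebraMap L K z) := ((hNmem z).1 hz).algebraMap
    exact hall _ h7
  have hEN : ∀ z ∈ E, IsAlgebraic M z := by
    intro z hz
    obtain ⟨p, hp0, hp⟩ := hEalg ⟨z, hz⟩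
    let f : Rt T →+* M := (IntermediateField.inclusion hRN).toRingHom
    refine ⟨p.map f, (Polynomial.map_ne_zero_iff f.injective).2 hp0, ?_⟩
    rw [Polynomial.aeval_def, Polynomial.eval₂_map]
    exact hp
  let ι : M →+* E :=
    { toFun := fun z => ⟨algebraMap L K (z : L), hNE z z.2⟩
      map_one' := Subtype.ext (by simp)
      map_mul' := fun a b => Subtype.ext (by simp)
      map_zero' := Subtype.ext (by simp)
      map_add' := fun a b => Subtype.ext (by simp) }
  let iB : Algebra M E := ι.toAlgebra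
  have hBK : IsScalarTower M E K := IsScalarTower.of_algebraMap_eq fun _ => rfl
  have hCB : IsScalarTower ℂ M E := IsScalarTower.of_algebraMap_eq fun c =>
    Subtype.ext (IsScalarTower.algebraMap_apply ℂ L K c)
  have hMalg : Algebra.IsAlgebraic M E := by
    constructor
    intro b
    exact (isAlgebraic_algebraMap_iff (R := M) (algebraMap E K).injective).1 (hEN _ b.2)
  have hMtr : Algebra.trdeg ℂ M = (N : ℕ) := by
    have h8 := trdeg_add_eq ℂ M (A := E)
    have h9 : Algebra.trdeg M E = 0 := by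
      rw [trdeg_eq_zero_iff]
      infer_instance
    rw [h9, add_zero, htrE] at h8
    exact h8
  refine Or.inr (cov1_of_fib hMtr ?_)
  exact cov K N E (F (Fin.last k)) hsup' htrE hK _ hz t ht D0 hD0 L h hval _ hrat M
    (fun z hz => isAlgebraic_algebraMap (⟨algebraMap L K z, hNE z hz⟩ : E)) hEN

end

end Pool.Agent.N145.SX
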