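import Pool.Agent.N145.SX.MGT
import Pool.Agent.N145.SX.MLang
import Pool.Agent.N145.SX.Gen0
import Pool.Agent.N277.SX.DEG

/-!
The structure of varieties dominated by the product of several varieties and a curve.
-/

set_option autoImplicit false
set_option linter.overlappingInstances false
set_option linter.unusedSectionVars false
set_option linter.unusedVariables false
set_option maxHeartbeats 4000000
set_option synthInstance.maxHeartbeats 400000

open Polynomial FF IntermediateField Module

namespace Pool.Agent.N145.SX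

open Pool.Agent.W603.LV Pool.Agent.W619.PQ Pool.Agent.N145.PC Pool.Agent.N145.PL
open Pool.Agent.W602.GT (Divisorial RegAt IsPluri DerReg DerLog LogAt KodGe LogSec Psef)
open Pool.Agent.Y184.NT (trForm trForm_pluri)
open Pool.Agent.R882.LT (SecAt LogGenusZero)

open scoped Classical

section

variable {K : Type} [Field K] [Algebra ℂ K] {k : ℕ} {F : Fin (k + 1) → IntermediateField ℂ K}
  {m : Fin k → ℕ} {L : Type} [Field L] [Algebra ℂ L]
  [Algebra L K] [IsScalarTower ℂ L K] [FiniteDimensional L K]

theorem multi_geo [Algebra.EssFiniteType ℂ K]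
    [∀ i, Algebra.EssFiniteType ℂ (F i)] [IsFF ℂ (F (Fin.last k))] (hsup : ⨆ i, F i = ⊤)
    (hm : ∀ i : Fin k, Algebra.trdeg ℂ (F i.castSucc) = m i)
    (hK : Algebra.trdeg ℂ K = (∑ i, m i + 1 : ℕ)) {x : ∀ i : Fin k, Fin (m i) → F i.castSucc}
    (hx : ∀ i, IsTranscendenceBasis ℂ (x i))
    {g : Fin k → ℕ} (hsep : ∀ i, SepX (x i) (fun _ => False) (g i))
    (hd : ∀ i : Fin k, 2 * finrank (MF F L (Js (k + 1) i)) (IntermediateField.adjoin
      (MF F L (Js (k + 1) i)) (F i.castSucc : Set K)) < g i) :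
    CanGe L (∑ i, m i + 1) (∑ i, m i) ∨ ∃ s : AlgebraicClosure K,
      Transcendental (algebraicClosure (⨆ i : Fin k, F i.castSucc : IntermediateField ℂ K)
        (AlgebraicClosure K)) s ∧
      ∀ z : L, algebraMap K (AlgebraicClosure K) (algebraMap L K z) ∈
        IntermediateField.adjoin (algebraicClosure
          (⨆ i : Fin k, F i.castSucc : IntermediateField ℂ K) (AlgebraicClosure K)) {s} := by
  have hL : Algebra.trdeg ℂ L = (∑ i, m i + 1 : ℕ) := Pool.Agent.Y184.NT.trdeg_below (K := K) hK
  have hessL : Algebra.EssFiniteType ℂ L := Pool.Agent.TH466.QG.ess_below (K := K)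
  obtain ⟨N, hN⟩ : ∃ N, N = ∑ i, m i := ⟨_, rfl⟩
  obtain ⟨e⟩ : Nonempty (Fin N ≃ (i : Fin k) × Fin (m i)) := by
    rw [hN]
    exact ⟨finSigmaFinEquiv.symm⟩
  have hind := ind_all hsup hK hx
  rw [← hN] at hK hL ⊢
  obtain ⟨E, hE⟩ : ∃ E, E = ⨆ i : Fin k, F i.castSucc := ⟨_, rfl⟩
  have hle : ∀ i : Fin k, F i.castSucc ≤ E := fun i => by
    rw [hE]
    exact le_iSup (fun i : Fin k => F i.castSucc) i
  have hessE : Algebra.EssFiniteType ℂ E := ess_iSup (F := fun i : Fin k => F i.castSucc) hE
  have hz := basis_zS x hle e hx hind hE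
  have htrE := trdeg_basis hz
  have hsup' : E ⊔ F (Fin.last k) = ⊤ := by
    rw [eq_top_iff, ← hsup]
    refine iSup_le fun i => ?_
    induction i using Fin.lastCases with
    | last => exact le_sup_right
    | cast i => exact (hle i).trans le_sup_left
  obtain ⟨t, ht⟩ := IsFF.exists_transcendental (k := ℂ) (K := F (Fin.last k))
  obtain ⟨D0, hD0⟩ := exists_D ht
  obtain ⟨hna, -, hcl⟩ := closed K N E (F (Fin.last k)) hsup' htrE hK
  obtain ⟨y, G, h, hy, hG, hh, hreg, hval⟩ := exists_traceX (L := L) (BL := fun _ => False) sec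
    htrE hK hz (fun _ => False) ht (basis_zz hK hz (hna t ht)) hD0
    (∅ : Set (Place ℂ (F (Fin.last k))))
    fun P Q e h1 h2 => by
      rcases h2 with ⟨_, _, h3, -⟩ | ⟨_, h3, -⟩
      · exact h3
      · exact h3
  have hge := geo K N E (F (Fin.last k)) hsup' htrE hK _ hz t ht D0 hD0 L h hval
  obtain ⟨τ0⟩ : Nonempty (K →ₐ[L] AlgebraicClosure L) :=
    ⟨IsAlgClosed.lift (R := L) (M := AlgebraicClosure L) (S := K)⟩
  have hT' : IsScalarTower ℂ L (AlgebraicClosure L) := inferInstance
  by_cases hz0 : ∀ φ ∈ HL D0 (∅ : Set (Place ℂ (F (Fin.last k)))),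
      Algebra.trace (IntermediateField.adjoin L (E : Set K)) K (h * (φ : K)) = 0
  · rw [← hE]
    exact Or.inr (hge hz0)
  push Not at hz0
  obtain ⟨ψ0, hψ0, hS0⟩ := hz0
  obtain ⟨H, hH⟩ : ∃ H, H = HS x (fun _ _ => False) (HL D0 ∅ : Set (F (Fin.last k))) := ⟨_, rfl⟩
  have hHl : H (Fin.last k) = (HL D0 ∅ : Set (F (Fin.last k))) := by
    rw [hH]
    exact HS_last x _ _
  have hHc : ∀ i : Fin k, H i.castSucc = HX (x i) (fun _ => False) := fun i => by
    rw [hH]
    exact HS_cast x _ _ i
  let I := {f : ∀ i, F i // ∀ i, f i ∈ H i}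
  obtain ⟨T, hT⟩ : ∃ T : I → L, ∀ f, T f =
    Algebra.trace L K (h * ∏ i, algebraMap (F i) K (f.1 i)) := ⟨_, fun _ => rfl⟩
  have hTreg : ∀ f, ∀ P : Place ℂ L, Divisorial (N + 1) P → RegAt P (trForm y (T f)) := by
    intro f P hP
    obtain ⟨q, hq1, hq2⟩ := prods sec2 k (fun i => F i.castSucc) m hm x hx hind
      (fun _ _ => False) E hE hle N e
      (fun i => f.1 i.castSucc) (fun i => by
        have := f.2 i.castSucc
        rwa [hHc] at this)
    have h1 := hreg q (hx_mono (by
      rintro Q ⟨_, _, _, h3, -⟩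
      exact h3) hq2) (f.1 (Fin.last k)) (by
      have := f.2 (Fin.last k)
      rwa [hHl] at this) P hP
    have h2 : algebraMap E K q * algebraMap (F (Fin.last k)) K (f.1 (Fin.last k)) =
        ∏ i, algebraMap (F i) K (f.1 i) := by
      rw [Fin.prod_univ_castSucc]
      congr 1
    rw [h2] at h1
    rw [hT]
    exact h1.2 not_false
  obtain ⟨gg, hgg⟩ : ∃ gg : Fin (k + 1) → ℕ, gg = Fin.lastCases (motive := fun _ => ℕ) 0 g :=
    ⟨_, rfl⟩
  have hggl : gg (Fin.last k) = 0 := by
    rw [hgg]
    exact Fin.lastCases_last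
  have hggc : ∀ i : Fin k, gg i.castSucc = g i := fun i => by
    rw [hgg]
    exact Fin.lastCases_castSucc i
  have hS : ∀ (Ω : Type) [Field Ω] [Algebra ℂ Ω] [IsAlgClosed Ω] (i : Fin (k + 1)),
      Sep (ev Ω F i) (H i) (gg i) := by
    intro Ω _ _ _ i
    induction i using Fin.lastCases with
    | last =>
      intro A hA
      rw [hggl] at hA
      exact absurd hA (Nat.not_lt_zero _)
    | cast i =>
      intro A hA c hc
      rw [hggc] at hA
      rw [hHc] at hc
      exact hsep i Ω A hA c hc
  have hno : ¬ (∀ f : ∀ i, F i, f (Fin.last k) ∈ H (Fin.last k) →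
      Algebra.trace (MF F L (Finset.univ.erase (Fin.last k))) K
        (h * ∏ i, algebraMap (F i) K (f i)) = 0) := by
    intro h0
    have h1 := h0 (Fin.lastCases (motive := fun i => F i) ψ0 (fun _ => 1)) (by
      rw [Fin.lastCases_last, hHl]
      exact hψ0)
    rw [Fin.prod_univ_castSucc, Fin.lastCases_last] at h1
    simp only [Fin.lastCases_castSucc, map_one, Finset.prod_const_one, one_mul] at h1
    rw [MF_erase hE] at h1
    exact hS0 h1
  obtain ⟨f1, hf1⟩ : ∃ f, T f ≠ 0 := by
    by_contra hT0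
    push Not at hT0
    have h0 := Ch.rel_zero (F := F) (H := H) (h := h) (fun f hf => by
      have := hT0 ⟨f, hf⟩
      rwa [hT] at this) τ0
    have h1 := Rl.chain h0 (hS (AlgebraicClosure L)) (s := k) (fun l hl => by
      obtain ⟨i, rfl⟩ : ∃ i : Fin k, i.castSucc = l := ⟨⟨l.val, hl⟩, rfl⟩
      rw [hggc]
      exact lt_of_le_of_lt ((Ch.count_le τ0 _ _).trans (Nat.le_mul_of_pos_left _ two_pos))
        (hd i))
    rw [erase_last] at h1
    exact hno fun f hf => Ch.rel_erase h1 f hf
  obtain ⟨Ω', iF, iA, iC, i1, i2, lam, hlam, hlamT, hpts⟩ := exists_pts T (f1 := f1) hf1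
  have h0 : Rl (P2 i1 i2 F L) (ev Ω' F) H (C2 i1 i2 h lam) (Sum.inl τ0) ∅ :=
    Ch.rel2_zero i1 i2 (fun f hf => by
      have := hlamT ⟨f, hf⟩
      rw [hT] at this
      exact this) _
  have h1 := Rl.chain h0 (hS Ω') (s := k) (fun l hl => by
    obtain ⟨i, rfl⟩ : ∃ i : Fin k, i.castSucc = l := ⟨⟨l.val, hl⟩, rfl⟩
    rw [hggc]
    exact lt_of_le_of_lt (Ch.count2_le i1 i2 τ0 _ _) (hd i))
  rw [erase_last] at h1
  obtain ⟨τ, hτ⟩ := (Ch.rel2_erase i1 i2 hlam h1).resolve_right hno
  -- the functions of `X` are algebraic over the ratios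
  have hEalg : ∀ z : E, IsAlgebraic (Rt T) (z : K) := by
    have h2 : E ≤ (algebraicClosure (Rt T) K).restrictScalars ℂ := by
      rw [hE]
      refine iSup_le fun i v hv => ?_
      rw [mem_restrictScalars, mem_algebraicClosure_iff]
      exact alg_back τ0 (hpts _ _ (hτ i.castSucc (Fin.castSucc_ne_last _) ⟨v, hv⟩).symm)
    intro z
    have h3 := h2 z.2
    rwa [mem_restrictScalars, mem_algebraicClosure_iff] at h3
  left
  exact canGe_of_alg hL hG T ⟨f1, hf1⟩ hTreg (x := fun l => (x (e l).1 (e l).2 : K))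
    (trdeg_adj (hind.comp e e.injective)) fun l => hEalg ⟨_, hle _ (x (e l).1 (e l).2).2⟩

/-- the functions of the factors are constant on the rational curves -/
theorem const_multi [Algebra.EssFiniteType ℂ K] [∀ i, Algebra.EssFiniteType ℂ (F i)]
    (hm : ∀ i : Fin k, Algebra.trdeg ℂ (F i.castSucc) = m i)
    {x : ∀ i : Fin k, Fin (m i) → F i.castSucc} (hx : ∀ i, IsTranscendenceBasis ℂ (x i))
    {g : Fin k → ℕ} (hsep : ∀ i, SepX (x i) (fun _ => False) (g i))
    (hd : ∀ i : Fin k, finrank (MF F L (Js (k + 1) i)) (IntermediateField.adjoin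
      (MF F L (Js (k + 1) i)) (F i.castSucc : Set K)) < g i)
    {E : IntermediateField ℂ K} (hE : E = ⨆ i : Fin k, F i.castSucc) {N : ℕ}
    (htrE : Algebra.trdeg ℂ E = N) {s : AlgebraicClosure K}
    (hs : Transcendental (algebraicClosure E (AlgebraicClosure K)) s)
    (hL : ∀ z : L, algebraMap K (AlgebraicClosure K) (algebraMap L K z) ∈
      IntermediateField.adjoin (algebraicClosure E (AlgebraicClosure K)) {s}) :
    ∀ τ : K →ₐ[L] AlgebraicClosure K, ∀ z ∈ E, τ z ∈ algebraicClosure E (AlgebraicClosure K) := by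
  intro τ
  let Λ := algebraicClosure E (AlgebraicClosure K)
  have hΛ : IsAlgClosed Λ := (algebraicClosure.isAlgClosure E (AlgebraicClosure K)).isAlgClosed
  have hTΛ : IsScalarTower ℂ Λ (AlgebraicClosure K) := IsScalarTower.of_algebraMap_eq fun z => by
    rw [IsScalarTower.algebraMap_apply ℂ K (AlgebraicClosure K)]
    rfl
  have hTE : IsScalarTower ℂ E Λ := IsScalarTower.of_algebraMap_eq fun z => by
    apply Subtype.ext
    rfl
  have hΛtr : Algebra.trdeg ℂ Λ = N := by
    have h1 := trdeg_add_eq ℂ E (A := Λ)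
    have h2 : Algebra.trdeg E Λ = 0 := by
      rw [trdeg_eq_zero_iff]
      infer_instance
    rw [h2, add_zero, htrE] at h1
    exact h1.symm
  have hτL : ∀ a : L, τ (algebraMap L K a) ∈ IntermediateField.adjoin Λ {s} := by
    intro a
    rw [AlgHom.commutes, IsScalarTower.algebraMap_apply L K (AlgebraicClosure K)]
    exact hL a
  have key : ∀ n : ℕ, ∀ i : Fin k, i.val < n → ∀ z ∈ F i.castSucc, τ z ∈ Λ := by
    intro n
    induction n with
    | zero => exact fun i hi => absurd hi (Nat.not_lt_zero _)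
    | succ n ih =>
      intro i hi z hz
      obtain ⟨M, hM⟩ : ∃ M, M = MF F L (Js (k + 1) i) := ⟨_, rfl⟩
      have hdi := hd i
      rw [← hM] at hdi
      let T0 : IntermediateField L K :=
        { carrier := {z | τ z ∈ IntermediateField.adjoin Λ {s}}
          mul_mem' := by
            intro a b ha hb
            change τ (a * b) ∈ IntermediateField.adjoin Λ {s}
            rw [map_mul]
            exact mul_mem ha hb
          add_mem' := by
            intro a b ha hb
            change τ (a + b) ∈ IntermediateField.adjoin Λ {s}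
            rw [map_add]
            exact add_mem ha hb
          algebraMap_mem' := fun a => hτL a
          inv_mem' := by
            intro a ha
            change τ a⁻¹ ∈ IntermediateField.adjoin Λ {s}
            rw [map_inv₀]
            exact inv_mem ha }
      have hMT : M ≤ T0 := by
        rw [hM, mf_eq, IntermediateField.adjoin_le_iff]
        rintro w ⟨l, hl, hw⟩
        have hlk : l.val < k := lt_of_lt_of_le hl (by omega)
        have hl' : l = (⟨l.val, hlk⟩ : Fin k).castSucc := rfl
        rw [hl'] at hw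
        have h1 := ih ⟨l.val, hlk⟩ (by
          change l.val < n
          omega) w hw
        exact (IntermediateField.adjoin Λ {s}).algebraMap_mem ⟨τ w, h1⟩
      have hτM : ∀ a : M, τ (algebraMap M K a) ∈ IntermediateField.adjoin Λ {s} := fun a =>
        hMT a.2
      obtain ⟨A, hA⟩ : ∃ A, A = IntermediateField.adjoin M (F i.castSucc : Set K) := ⟨_, rfl⟩
      rw [← hA] at hdi
      obtain ⟨hf1, hf2⟩ := adj_le (A0 := M) (A := A) (R := Λ⟮s⟯)
        ((τ : K →+* AlgebraicClosure K).comp (algebraMap A K))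
        (fun a => ⟨⟨τ (algebraMap M K a), hτM a⟩, rfl⟩)
      let φ : F i.castSucc →ₐ[ℂ] AlgebraicClosure K :=
        (τ.restrictScalars ℂ).comp (F i.castSucc).val
      have hle : IntermediateField.adjoin Λ⟮s⟯ (Set.range φ) ≤ IntermediateField.adjoin Λ⟮s⟯
          (Set.range ((τ : K →+* AlgebraicClosure K).comp (algebraMap A K))) := by
        apply IntermediateField.adjoin.mono
        rintro _ ⟨w, rfl⟩
        exact ⟨⟨(w : K), by rw [hA]; exact IntermediateField.subset_adjoin _ _ w.2⟩, rfl⟩
      have hfin : FiniteDimensional Λ⟮s⟯ (IntermediateField.adjoin Λ⟮s⟯ (Set.range φ)) :=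
        FiniteDimensional.of_injective (IntermediateField.inclusion hle).toLinearMap
          (IntermediateField.inclusion hle).injective
      have hfr : finrank Λ⟮s⟯ (IntermediateField.adjoin Λ⟮s⟯ (Set.range φ)) ≤
          finrank Λ⟮s⟯ (IntermediateField.adjoin Λ⟮s⟯
            (Set.range ((τ : K →+* AlgebraicClosure K).comp (algebraMap A K)))) :=
        IntermediateField.finrank_le_of_le_right hle
      have h1 := cst (F i.castSucc) Λ (AlgebraicClosure K) (m i) N (hm i) hΛtr (x i) (hx i) (g i)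
        (hsep i) s hs φ hfin (by omega) ⟨z, hz⟩
      have h2 : IsAlgebraic E (τ z) := h1.restrictScalars E
      exact mem_algebraicClosure_iff.2 h2
  let T1 : IntermediateField ℂ K :=
    { carrier := {z | τ z ∈ Λ}
      mul_mem' := by
        intro a b ha hb
        change τ (a * b) ∈ Λ
        rw [map_mul]
        exact mul_mem ha hb
      add_mem' := by
        intro a b ha hb
        change τ (a + b) ∈ Λ
        rw [map_add]
        exact add_mem ha hb
      algebraMap_mem' := by
        intro c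
        change τ (algebraMap ℂ K c) ∈ Λ
        rw [IsScalarTower.algebraMap_apply ℂ L K, AlgHom.commutes,
          ← IsScalarTower.algebraMap_apply ℂ L (AlgebraicClosure K),
          IsScalarTower.algebraMap_apply ℂ Λ (AlgebraicClosure K)]
        exact (algebraMap ℂ Λ c).2
      inv_mem' := by
        intro a ha
        change τ a⁻¹ ∈ Λ
        rw [map_inv₀]
        exact inv_mem ha }
  have hET : E ≤ T1 := by
    rw [hE]
    exact iSup_le fun i z hz => key (i.val + 1) i (Nat.lt_succ_self _) z hz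
  exact fun z hz => hET hz

end

end Pool.Agent.N145.SX
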