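import Pool.Agent.N145.SX.Stm4
import Pool.Agent.N145.PC.Dich

/-!
Products of logarithmic canonical forms on several varieties.
-/

set_option autoImplicit false
set_option linter.overlappingInstances false
set_option linter.unusedSectionVars false
set_option linter.unusedVariables false
set_option maxHeartbeats 4000000
set_option synthInstance.maxHeartbeats 400000

open Polynomial FF IntermediateField Module

namespace Pool.Agent.N145.SX

open Pool.Agent.W603.LV Pool.Agent.W619.PQ Pool.Agent.N145.PC Pool.Agent.N145.PL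
open Pool.Agent.W602.GT (Divisorial RegAt IsPluri DerReg DerLog LogAt KodGe LogSec)
open Pool.Agent.Y184.NT (trForm)
open Pool.Agent.R882.LT (SecAt)

theorem hx_mono {E : Type} [Field E] [Algebra ℂ E] {N : ℕ} {z : Fin N → E}
    {B B' : Place ℂ E → Prop} (hB : ∀ Q, B Q → B' Q) {f : E} (h : f ∈ HX z B) : f ∈ HX z B' :=
  fun P hP => ⟨(h P hP).1, fun h' => (h P hP).2 fun h'' => h' (hB P h'')⟩

theorem hx_perm {E : Type} [Field E] [Algebra ℂ E] {N : ℕ} {z : Fin N → E}
    {B : Place ℂ E → Prop} {f : E} (σ : Equiv.Perm (Fin N)) (h : f ∈ HX z B) :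
    f ∈ HX (fun l => z (σ l)) B := by
  intro P hP
  have key : ∀ D : Fin N → Derivation ℂ E E, trForm (fun l => z (σ l)) f D =
      (((Equiv.Perm.sign σ : ℤˣ) : ℤ) : E) * trForm z f D := by
    intro D
    unfold trForm
    have h1 : (Matrix.of fun i j => D i (z (σ j)) : Matrix (Fin N) (Fin N) E) =
        (Matrix.of fun i j => D i (z j) : Matrix (Fin N) (Fin N) E).submatrix id σ := by
      ext i j
      rfl
    rw [h1, Matrix.det_permute', mul_assoc]
  have hreg : ∀ D : Fin N → Derivation ℂ E E, P.Reg (trForm z f D) →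
      P.Reg (trForm (fun l => z (σ l)) f D) := by
    intro D hD
    rw [key]
    have h1 : Ge P 0 ((((Equiv.Perm.sign σ : ℤˣ) : ℤ) : E)) := Ge.intCast _
    have h2 : Ge P 0 (trForm z f D) := hD
    have h3 := h1.mul h2
    rw [add_zero] at h3
    exact h3
  exact ⟨fun D hD => hreg D ((h P hP).1 D hD), fun hB D hD => hreg D ((h P hP).2 hB D hD)⟩

section

variable {K : Type} [Field K] [Algebra ℂ K]

/-- algebraic over the coordinates -/
theorem alg_of_basis {m : ℕ} {F : IntermediateField ℂ K} {x : Fin m → F}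
    (hx : IsTranscendenceBasis ℂ x) {S : IntermediateField ℂ K} (hS : ∀ j, (x j : K) ∈ S) {v : K}
    (hv : v ∈ F) : IsAlgebraic S v := by
  have h1 : Algebra.IsAlgebraic (IntermediateField.adjoin ℂ (Set.range x)) F :=
    hx.isAlgebraic_field
  have h2 := h1.isAlgebraic (⟨v, hv⟩ : F)
  have hle : (IntermediateField.adjoin ℂ (Set.range x)).map F.val ≤ S := by
    rw [IntermediateField.adjoin_map, IntermediateField.adjoin_le_iff]
    rintro _ ⟨_, ⟨j, rfl⟩, rfl⟩
    exact hS j
  let f : IntermediateField.adjoin ℂ (Set.range x) →+* S :=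
    { toFun := fun z => ⟨((z : F) : K), hle ⟨z, z.2, rfl⟩⟩
      map_one' := rfl
      map_mul' := fun _ _ => rfl
      map_zero' := rfl
      map_add' := fun _ _ => rfl }
  exact h2.ringHom_of_comp_eq f (F.val : F →+* K) f.injective (by ext z; rfl)

theorem le_algCl {ι : Type} {F : ι → IntermediateField ℂ K} {S : IntermediateField ℂ K}
    (h : ∀ i, ∀ v ∈ F i, IsAlgebraic S v) {T : IntermediateField ℂ K} (hT : T = ⨆ i, F i) :
    T ≤ (algebraicClosure S K).restrictScalars ℂ := by
  rw [hT]
  refine iSup_le fun i v hv => ?_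
  rw [mem_restrictScalars, mem_algebraicClosure_iff]
  exact h i v hv

variable {k : ℕ} {F : Fin k → IntermediateField ℂ K} {m : Fin k → ℕ} (x : ∀ i, Fin (m i) → F i)
  {T : IntermediateField ℂ K} (hle : ∀ i, F i ≤ T) {N : ℕ} (e : Fin N ≃ (i : Fin k) × Fin (m i))

/-- the coordinates of the product -/
def zS : Fin N → T := fun l => ⟨(x (e l).1 (e l).2 : K), hle _ (x _ _).2⟩

/-- the boundary of the product -/
def BdS (BX : ∀ i, Place ℂ (F i) → Prop) (Q : Place ℂ T) : Prop :=
  ∃ (i : Fin k) (P : Place ℂ (F i)) (a : ℕ), BX i P ∧ 0 < a ∧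
    ∀ v : F i, Q.ord (⟨(v : K), hle i v.2⟩ : T) = a * P.ord v

theorem basis_zS (hx : ∀ i, IsTranscendenceBasis ℂ (x i))
    (hind : AlgebraicIndependent ℂ fun p : (i : Fin k) × Fin (m i) => (x p.1 p.2 : K))
    (hT : T = ⨆ i, F i) : IsTranscendenceBasis ℂ (zS x hle e) := by
  have h1 : AlgebraicIndependent ℂ fun l : Fin N => ((zS x hle e l : T) : K) :=
    hind.comp e e.injective
  have h2 : AlgebraicIndependent ℂ (zS x hle e) := AlgebraicIndependent.of_comp T.val h1
  obtain ⟨S, hS⟩ : ∃ S, S = IntermediateField.adjoin ℂ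
    (Set.range fun l : Fin N => ((zS x hle e l : T) : K)) := ⟨_, rfl⟩
  have h3 : ∀ i, ∀ v ∈ F i, IsAlgebraic S v := by
    intro i v hv
    refine alg_of_basis (hx i) (fun j => ?_) hv
    rw [hS]
    refine IntermediateField.subset_adjoin _ _ ⟨e.symm ⟨i, j⟩, ?_⟩
    change (x (e (e.symm ⟨i, j⟩)).1 (e (e.symm ⟨i, j⟩)).2 : K) = _
    rw [Equiv.apply_symm_apply]
  have h4 := le_algCl h3 hT
  have h5 : Algebra.trdeg ℂ S = (N : ℕ) := by
    rw [hS]
    exact trdeg_adj h1
  have h6 : Algebra.trdeg ℂ T ≤ Algebra.trdeg ℂ (algebraicClosure S K) :=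
    trdeg_le_of_injective ((IntermediateField.inclusion h4 : T →ₐ[ℂ] _))
      (IntermediateField.inclusion h4).injective
  have h7 : Algebra.trdeg ℂ (algebraicClosure S K) = (N : ℕ) := by
    have h8 := trdeg_add_eq ℂ S (A := algebraicClosure S K)
    have h9 : Algebra.trdeg S (algebraicClosure S K) = 0 := by
      rw [trdeg_eq_zero_iff]
      infer_instance
    rw [h9, add_zero, h5] at h8
    exact h8.symm
  refine h2.isTranscendenceBasis_of_lift_trdeg_le_of_finite ?_
  rw [h7] at h6
  simpa using h6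

theorem ess_iSup [∀ i, Algebra.EssFiniteType ℂ (F i)] (hT : T = ⨆ i, F i) :
    Algebra.EssFiniteType ℂ T := by
  rw [hT]
  exact IntermediateField.essFiniteType_iff.2 (IntermediateField.fg_iSup fun i =>
    IntermediateField.essFiniteType_iff.1 inferInstance)

theorem trdeg_basis {E : Type} [Field E] [Algebra ℂ E] {N : ℕ} {z : Fin N → E}
    (hz : IsTranscendenceBasis ℂ z) : Algebra.trdeg ℂ E = N := by
  have h1 := hz.lift_cardinalMk_eq_trdeg
  simpa using h1.symm

end

/-- splitting off the last index -/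
noncomputable def sigmaLast {k : ℕ} (m : Fin (k + 1) → ℕ) :
    ((i : Fin k) × Fin (m i.castSucc)) ⊕ Fin (m (Fin.last k)) ≃ (i : Fin (k + 1)) × Fin (m i) :=
  Equiv.ofBijective (Sum.elim (fun p => ⟨p.1.castSucc, p.2⟩) (fun j => ⟨Fin.last k, j⟩)) (by
    constructor
    · rintro (⟨i, j⟩ | j) (⟨i', j'⟩ | j') h
      · simp only [Sum.elim_inl, Sigma.mk.injEq] at h
        obtain ⟨h1, h2⟩ := h
        have h3 := Fin.castSucc_injective k h1
        subst h3
        rw [eq_of_heq h2]
      · simp only [Sum.elim_inl, Sum.elim_inr, Sigma.mk.injEq] at h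
        exact absurd h.1 (Fin.castSucc_ne_last _)
      · simp only [Sum.elim_inl, Sum.elim_inr, Sigma.mk.injEq] at h
        exact absurd h.1.symm (Fin.castSucc_ne_last _)
      · simp only [Sum.elim_inr, Sigma.mk.injEq] at h
        rw [eq_of_heq h.2]
    · rintro ⟨i, j⟩
      induction i using Fin.lastCases with
      | last => exact ⟨Sum.inr j, rfl⟩
      | cast i => exact ⟨Sum.inl ⟨i, j⟩, rfl⟩)

theorem prods (hs : S_SEC2) {K : Type} [Field K] [Algebra ℂ K] : ∀ (k : ℕ)
    (F : Fin k → IntermediateField ℂ K) [∀ i, Algebra.EssFiniteType ℂ (F i)] (m : Fin k → ℕ)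
    (_ : ∀ i, Algebra.trdeg ℂ (F i) = m i)
    (x : ∀ i, Fin (m i) → F i) (_ : ∀ i, IsTranscendenceBasis ℂ (x i))
    (_ : AlgebraicIndependent ℂ fun p : (i : Fin k) × Fin (m i) => (x p.1 p.2 : K))
    (BX : ∀ i, Place ℂ (F i) → Prop) (T : IntermediateField ℂ K) (_ : T = ⨆ i, F i)
    (hle : ∀ i, F i ≤ T) (N : ℕ) (e : Fin N ≃ (i : Fin k) × Fin (m i)) (f : ∀ i, F i)
    (_ : ∀ i, f i ∈ HX (x i) (BX i)),
    ∃ p : T, (p : K) = ∏ i, (f i : K) ∧ p ∈ HX (zS x hle e) (BdS hle BX) := by
  intro k
  induction k with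
  | zero =>
    intro F _ m hm x hx hind BX T hT hle N e f hf
    refine ⟨1, by simp, fun P hP => ?_⟩
    have hem : IsEmpty (Fin N) := Function.isEmpty e
    have h1 : ∀ D : Fin N → Derivation ℂ T T, P.Reg (trForm (zS x hle e) 1 D) := by
      intro D
      unfold trForm
      rw [Matrix.det_isEmpty, one_mul]
      have h2 : Ge P 0 (((1 : ℤ) : T)) := Ge.intCast _
      rw [Int.cast_one] at h2
      exact h2
    exact ⟨fun D _ => h1 D, fun _ D _ => h1 D⟩
  | succ k ih =>
    intro F _ m hm x hx hind BX T hT hle N e f hf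
    obtain ⟨T', hT'⟩ : ∃ T', T' = ⨆ i : Fin k, F i.castSucc := ⟨_, rfl⟩
    have hle' : ∀ i : Fin k, F i.castSucc ≤ T' := fun i => by
      rw [hT']
      exact le_iSup (fun i : Fin k => F i.castSucc) i
    have hTT : T' ≤ T := by
      rw [hT']
      exact iSup_le fun i => hle i.castSucc
    obtain ⟨N', hN'⟩ : ∃ N', N' = ∑ i : Fin k, m i.castSucc := ⟨_, rfl⟩
    obtain ⟨e'⟩ : Nonempty (Fin N' ≃ (i : Fin k) × Fin (m i.castSucc)) := by
      rw [hN']
      exact ⟨finSigmaFinEquiv.symm⟩
    have hNN : N = N' + m (Fin.last k) := by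
      have h1 := Fintype.card_congr e
      rw [Fintype.card_fin, Fintype.card_sigma] at h1
      simp only [Fintype.card_fin] at h1
      rw [h1, Fin.sum_univ_castSucc, hN']
    subst hNN
    have hind' : AlgebraicIndependent ℂ fun p : (i : Fin k) × Fin (m i.castSucc) =>
        (x p.1.castSucc p.2 : K) := by
      refine hind.comp (fun p : (i : Fin k) × Fin (m i.castSucc) =>
        (⟨p.1.castSucc, p.2⟩ : (i : Fin (k + 1)) × Fin (m i))) ?_
      rintro ⟨i, j⟩ ⟨i', j'⟩ h
      simp only [Sigma.mk.injEq] at h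
      obtain ⟨h1, h2⟩ := h
      have h3 := Fin.castSucc_injective k h1
      subst h3
      rw [eq_of_heq h2]
    obtain ⟨p', hp1, hp2⟩ := ih (fun i => F i.castSucc) (fun i => m i.castSucc)
      (fun i => hm _) (fun i => x i.castSucc) (fun i => hx _) hind' (fun i => BX i.castSucc) T' hT'
      hle' N' e' (fun i => f i.castSucc) (fun i => hf _)
    have hb' := basis_zS (fun i : Fin k => x i.castSucc) hle' e' (fun i => hx _) hind' hT'
    have hess' : Algebra.EssFiniteType ℂ T' := ess_iSup (F := fun i : Fin k => F i.castSucc) hT'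
    let iA : Algebra T' T := (IntermediateField.inclusion hTT).toRingHom.toAlgebra
    let iB : Algebra (F (Fin.last k)) T :=
      (IntermediateField.inclusion (hle (Fin.last k))).toRingHom.toAlgebra
    have tA : IsScalarTower ℂ T' T := IsScalarTower.of_algebraMap_eq fun c => rfl
    have tB : IsScalarTower ℂ (F (Fin.last k)) T := IsScalarTower.of_algebraMap_eq fun c => rfl
    obtain ⟨e2, he2⟩ : ∃ e2 : Fin (N' + m (Fin.last k)) ≃ (i : Fin (k + 1)) × Fin (m i),
      e2 = finSumFinEquiv.symm.trans ((e'.sumCongr (Equiv.refl _)).trans (sigmaLast m)) :=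
      ⟨_, rfl⟩
    have hb2 := basis_zS x hle e2 hx hind hT
    have h1 := hs T T' (F (Fin.last k)) N' (m (Fin.last k)) (trdeg_basis hb') (hm _)
      (trdeg_basis hb2) _ hb' _ (hx (Fin.last k)) _ (BX (Fin.last k)) p' hp2 _ (hf (Fin.last k))
    refine ⟨algebraMap T' T p' * algebraMap (F (Fin.last k)) T (f (Fin.last k)), ?_, ?_⟩
    · rw [Fin.prod_univ_castSucc, ← hp1]
      rfl
    · have h2 : Fin.append (fun i => algebraMap T' T
          (zS (fun i : Fin k => x i.castSucc) hle' e' i))
          (fun j => algebraMap (F (Fin.last k)) T (x (Fin.last k) j)) = zS x hle e2 := by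
        funext l
        refine Fin.addCases (fun i => ?_) (fun j => ?_) l
        · rw [Fin.append_left]
          apply Subtype.ext
          have h3 : e2 (Fin.castAdd (m (Fin.last k)) i) =
              ⟨(e' i).1.castSucc, (e' i).2⟩ := by
            rw [he2]
            simp [sigmaLast]
          change (x (e' i).1.castSucc (e' i).2 : K) = (x (e2 _).1 (e2 _).2 : K)
          rw [h3]
        · rw [Fin.append_right]
          apply Subtype.ext
          have h3 : e2 (Fin.natAdd N' j) = ⟨Fin.last k, j⟩ := by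
            rw [he2]
            simp [sigmaLast]
          change (x (Fin.last k) j : K) = (x (e2 _).1 (e2 _).2 : K)
          rw [h3]
      rw [h2] at h1
      have h3 := hx_perm (e.trans e2.symm) h1
      have h4 : (fun l => zS x hle e2 ((e.trans e2.symm) l)) = zS x hle e := by
        funext l
        apply Subtype.ext
        change (x (e2 (e2.symm (e l))).1 (e2 (e2.symm (e l))).2 : K) = (x (e l).1 (e l).2 : K)
        rw [Equiv.apply_symm_apply]
      rw [h4] at h3
      refine hx_mono ?_ h3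
      rintro Q (⟨P, a, ⟨i, P', b, hBP, hb, hPb⟩, ha, hQ⟩ | ⟨P, a, hP, ha, hQ⟩)
      · refine ⟨i.castSucc, P', a * b, hBP, Nat.mul_pos ha hb, fun v => ?_⟩
        have h5 := hQ (⟨(v : K), hle' i v.2⟩ : T')
        have h6 := hPb v
        rw [h6] at h5
        have h7 : (algebraMap T' T (⟨(v : K), hle' i v.2⟩ : T')) =
            (⟨(v : K), hle i.castSucc v.2⟩ : T) := rfl
        rw [h7] at h5
        rw [h5]
        push_cast
        ring
      · exact ⟨Fin.last k, P, a, hP, ha, fun v => hQ v⟩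

end Pool.Agent.N145.SX
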