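import Pool.Agent.N145.SX.Chain
import Pool.Agent.N145.SX.Prods
import Pool.Agent.N145.SX.Abun

/-!
Varieties dominated by the product of several varieties and a curve.
-/

set_option autoImplicit false
set_option linter.overlappingInstances false
set_option linter.unusedSectionVars false
set_option linter.unusedVariables false
set_option maxHeartbeats 4000000
set_option synthInstance.maxHeartbeats 400000

open Polynomial FF IntermediateField Module

namespace Pool.Agent.N145.SX

open Pool.Agent.W603.LV Pool.Agent.W619.PQ Pool.Agent.N145.PC Pool.Agent.N145.PL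
open Pool.Agent.W602.GT (Divisorial RegAt IsPluri DerReg DerLog LogAt KodGe LogSec Psef)
open Pool.Agent.Y184.NT (trForm trForm_pluri)
open Pool.Agent.R882.LT (SecAt LogGenusZero)
open Pool.Agent.W619.PL (IsA1Uniruled)

open scoped Classical

section

variable {K : Type} [Field K] [Algebra ℂ K] {k : ℕ} {F : Fin (k + 1) → IntermediateField ℂ K}
  {m : Fin k → ℕ}

/-- the canonical forms on the factors -/
def HS (x : ∀ i : Fin k, Fin (m i) → F i.castSucc)
    (BX : ∀ i : Fin k, Place ℂ (F i.castSucc) → Prop) (H0 : Set (F (Fin.last k)))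
    (i : Fin (k + 1)) : Set (F i) :=
  Fin.lastCases (motive := fun i => Set (F i)) H0 (fun i => HX (x i) (BX i)) i

theorem HS_last (x : ∀ i : Fin k, Fin (m i) → F i.castSucc)
    (BX : ∀ i : Fin k, Place ℂ (F i.castSucc) → Prop) (H0 : Set (F (Fin.last k))) :
    HS x BX H0 (Fin.last k) = H0 := Fin.lastCases_last

theorem HS_cast (x : ∀ i : Fin k, Fin (m i) → F i.castSucc)
    (BX : ∀ i : Fin k, Place ℂ (F i.castSucc) → Prop) (H0 : Set (F (Fin.last k))) (i : Fin k) :
    HS x BX H0 i.castSucc = HX (x i) (BX i) := Fin.lastCases_castSucc i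

/-- the boundary of the product -/
def BdM (BX : ∀ i : Fin k, Place ℂ (F i.castSucc) → Prop) (B : Set (Place ℂ (F (Fin.last k))))
    (Q : Place ℂ K) : Prop :=
  (∃ (i : Fin k) (P : Place ℂ (F i.castSucc)) (e : ℕ), BX i P ∧ Over Q P e) ∨
    ∃ p ∈ B, ∃ e : ℕ, Over Q p e

/-- the coordinates are independent -/
theorem ind_all [IsFF ℂ (F (Fin.last k))] (hsup : ⨆ i, F i = ⊤)
    (hK : Algebra.trdeg ℂ K = (∑ i, m i + 1 : ℕ)) {x : ∀ i : Fin k, Fin (m i) → F i.castSucc}
    (hx : ∀ i, IsTranscendenceBasis ℂ (x i)) :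
    AlgebraicIndependent ℂ fun p : (i : Fin k) × Fin (m i) => (x p.1 p.2 : K) := by
  obtain ⟨t, ht⟩ := IsFF.exists_transcendental (k := ℂ) (K := F (Fin.last k))
  obtain ⟨e⟩ : Nonempty (Fin (∑ i, m i) ≃ (i : Fin k) × Fin (m i)) := ⟨finSigmaFinEquiv.symm⟩
  let w : Fin (∑ i, m i + 1) → K :=
    Fin.snoc (α := fun _ => K) (fun l => (x (e l).1 (e l).2 : K)) (t : K)
  have hwl : w (Fin.last _) = t := Fin.snoc_last _ _
  have hwc : ∀ l : Fin (∑ i, m i), w l.castSucc = x (e l).1 (e l).2 := fun l =>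
    Fin.snoc_castSucc _ _ _
  obtain ⟨S, hS⟩ : ∃ S, S = IntermediateField.adjoin ℂ (Set.range w) := ⟨_, rfl⟩
  have hwS : ∀ l, w l ∈ S := fun l => by
    rw [hS]
    exact IntermediateField.subset_adjoin _ _ ⟨l, rfl⟩
  have hlast : IsTranscendenceBasis ℂ (fun _ : Fin 1 => t) := by
    have h1 : AlgebraicIndependent ℂ (fun _ : Fin 1 => t) := by
      rw [algebraicIndependent_unique_type_iff]
      exact ht
    refine h1.isTranscendenceBasis_of_lift_trdeg_le_of_finite ?_
    rw [IsFF.trdeg]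
    simp
  have h3 : ∀ i, ∀ v ∈ F i, IsAlgebraic S v := by
    intro i
    induction i using Fin.lastCases with
    | last =>
      intro v hv
      refine alg_of_basis hlast (fun j => ?_) hv
      rw [← hwl]
      exact hwS _
    | cast i =>
      intro v hv
      refine alg_of_basis (hx i) (fun j => ?_) hv
      have h1 := hwS (e.symm ⟨i, j⟩).castSucc
      rw [hwc, Equiv.apply_symm_apply] at h1
      exact h1
  have h4 := le_algCl h3 (T := ⊤) hsup.symm
  have h5 : Algebra.IsAlgebraic (Algebra.adjoin ℂ (Set.range w)) K := by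
    refine Pool.Agent.W619.PQ.alg_adjoin fun z => ?_
    have h6 := h4 (IntermediateField.mem_top (x := z))
    rw [mem_restrictScalars, mem_algebraicClosure_iff, hS] at h6
    exact h6
  have h6 : IsTranscendenceBasis ℂ w := by
    refine Algebra.IsAlgebraic.isTranscendenceBasis_of_lift_le_trdeg_of_finite ℂ _ ?_
    rw [hK]
    simp
  have h7 := h6.1.comp (fun p : (i : Fin k) × Fin (m i) => (e.symm p).castSucc)
    ((Fin.castSucc_injective _).comp e.symm.injective)
  have h8 : (w ∘ fun p : (i : Fin k) × Fin (m i) => (e.symm p).castSucc) =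
      fun p => (x p.1 p.2 : K) := by
    funext p
    rw [Function.comp_apply, hwc, Equiv.apply_symm_apply]
  rwa [h8] at h7

theorem erase_last : Js (k + 1) k = Finset.univ.erase (Fin.last k) := by
  ext l
  rw [mem_Js, Finset.mem_erase]
  constructor
  · intro h
    refine ⟨?_, Finset.mem_univ _⟩
    rintro rfl
    exact absurd h (by simp)
  · rintro ⟨h, -⟩
    exact Fin.val_lt_last h

variable {L : Type} [Field L] [Algebra ℂ L]
  [Algebra L K] [IsScalarTower ℂ L K] [FiniteDimensional L K]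

theorem MF_erase {E : IntermediateField ℂ K} (hE : E = ⨆ i : Fin k, F i.castSucc) :
    MF F L (Finset.univ.erase (Fin.last k)) = IntermediateField.adjoin L (E : Set K) := by
  apply le_antisymm
  · unfold MF MJ
    rw [IntermediateField.adjoin_le_iff]
    intro z hz
    obtain ⟨i, hi, z, rfl⟩ := Set.mem_iUnion₂.1 hz
    have hi' : i ≠ Fin.last k := (Finset.mem_erase.1 hi).1
    obtain ⟨j, rfl⟩ := Fin.exists_castSucc_eq.2 hi'
    apply IntermediateField.subset_adjoin
    rw [hE]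
    exact le_iSup (fun i : Fin k => F i.castSucc) j z.2
  · rw [IntermediateField.adjoin_le_iff]
    have h1 : E ≤ (MF F L (Finset.univ.erase (Fin.last k))).restrictScalars ℂ := by
      rw [hE]
      refine iSup_le fun i v hv => ?_
      rw [mem_restrictScalars]
      exact mem_MJ (E := fun i => F i) _ (Finset.mem_erase.2
        ⟨Fin.castSucc_ne_last i, Finset.mem_univ _⟩) (⟨v, hv⟩ : F i.castSucc)
    exact fun z hz => h1 hz

/-- **Several factors.** -/
theorem multi_core (hs2 : S_SEC2) [Algebra.EssFiniteType ℂ K]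
    [∀ i, Algebra.EssFiniteType ℂ (F i)] [IsFF ℂ (F (Fin.last k))] (hsup : ⨆ i, F i = ⊤)
    (hm : ∀ i : Fin k, Algebra.trdeg ℂ (F i.castSucc) = m i)
    (hK : Algebra.trdeg ℂ K = (∑ i, m i + 1 : ℕ)) {x : ∀ i : Fin k, Fin (m i) → F i.castSucc}
    (hx : ∀ i, IsTranscendenceBasis ℂ (x i)) {BX : ∀ i : Fin k, Place ℂ (F i.castSucc) → Prop}
    {B : Set (Place ℂ (F (Fin.last k)))} (hBf : B.Finite) {BL : Place ℂ L → Prop}
    (hB : ∀ (P : Place ℂ L) (Q : Place ℂ K) (e : ℕ), Over Q P e → (BL P ↔ BdM BX B Q))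
    {g : Fin k → ℕ} (hsep : ∀ i, SepX (x i) (BX i) (g i))
    (hd : ∀ i : Fin k, 2 * finrank (MF F L (Js (k + 1) i)) (IntermediateField.adjoin
      (MF F L (Js (k + 1) i)) (F i.castSucc : Set K)) < g i) :
    IsA1Uniruled ℂ L (∑ i, m i + 1) BL ∨
    ∃ (y : Fin (∑ i, m i + 1) → L) (G : Fin (∑ i, m i + 1) → Derivation ℂ L L) (ι : Type)
      (T : ι → L), (∀ i j, G i (y j) = if i = j then 1 else 0) ∧ (∃ f, T f ≠ 0) ∧
      (∀ f, ∀ P : Place ℂ L, Divisorial (∑ i, m i + 1) P → SecAt BL P (trForm y (T f))) ∧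
      ∃ x' : Fin (∑ i, m i) → K, AlgebraicIndependent ℂ x' ∧
        ∀ j, IsAlgebraic (Rt T) (x' j) := by
  have hL : Algebra.trdeg ℂ L = (∑ i, m i + 1 : ℕ) := Pool.Agent.Y184.NT.trdeg_below (K := K) hK
  have hessL : Algebra.EssFiniteType ℂ L := Pool.Agent.TH466.QG.ess_below (K := K)
  obtain ⟨N, hN⟩ : ∃ N, N = ∑ i, m i := ⟨_, rfl⟩
  obtain ⟨e⟩ : Nonempty (Fin N ≃ (i : Fin k) × Fin (m i)) := by
    rw [hN]
    exact ⟨finSigmaFinEquiv.symm⟩
  have hind := ind_all hsup hK hx
  rw [← hN] at hK hL ⊢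
  obtain ⟨E, hE⟩ : ∃ E, E = ⨆ i : Fin k, F i.castSucc := ⟨_, rfl⟩
  have hle : ∀ i : Fin k, F i.castSucc ≤ E := fun i => by
    rw [hE]
    exact le_iSup (fun i : Fin k => F i.castSucc) i
  have hessE : Algebra.EssFiniteType ℂ E := ess_iSup (F := fun i : Fin k => F i.castSucc) hE
  have hz := basis_zS x hle e hx hind hE
  have htrE := trdeg_basis hz
  have hsup' : E ⊔ F (Fin.last k) = ⊤ := by
    rw [eq_top_iff, ← hsup]
    refine iSup_le fun i => ?_
    induction i using Fin.lastCases with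
    | last => exact le_sup_right
    | cast i => exact (hle i).trans le_sup_left
  obtain ⟨t, ht, hBt⟩ := exists_xB hBf
  obtain ⟨D0, hD0⟩ := exists_D ht
  obtain ⟨hna, -, hcl⟩ := closed K N E (F (Fin.last k)) hsup' htrE hK
  have hBd1 : ∀ Q : Place ℂ K, BdX (BdS (F := fun i : Fin k => F i.castSucc) hle BX) B Q →
      BdM BX B Q := by
    rintro Q (⟨P, a, ⟨i, P', b, h1, h2, h3⟩, ha, hQ⟩ | h1)
    · refine Or.inl ⟨i, P', a * b, h1, Nat.mul_pos ha h2, fun v => ?_⟩
      have h4 := hQ (⟨(v : K), hle i v.2⟩ : E)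
      rw [h3 v] at h4
      have h5 : algebraMap E K (⟨(v : K), hle i v.2⟩ : E) = algebraMap (F i.castSucc) K v := rfl
      rw [h5] at h4
      rw [h4]
      push_cast
      ring
    · exact Or.inr h1
  have hBd2 : ∀ Q : Place ℂ K, BdM BX B Q →
      BdX (BdS (F := fun i : Fin k => F i.castSucc) hle BX) B Q := by
    rintro Q (⟨i, P, a, h1, ha, h2⟩ | h1)
    · obtain ⟨u, -, hu⟩ := P.surj
      have h3 : Q.ord ((algebraMap E K : E →+* K) (⟨(u : K), hle i u.2⟩ : E)) ≠ 0 := by
        have h4 := h2 u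
        rw [hu] at h4
        change Q.ord (u : K) ≠ 0
        change Q.ord (u : K) = _ at h4
        rw [h4]
        have : (a : ℤ) ≠ 0 := by exact_mod_cast ha.ne'
        simpa using this
      obtain ⟨v, b, hb, hv⟩ := Pool.Agent.W619.Y.exists_restrict (k := ℂ) Q
        (algebraMap E K : E →+* K) (fun c hc => by
          have h4 : (algebraMap E K : E →+* K) (algebraMap ℂ E c) = algebraMap ℂ K c := rfl
          rw [h4]
          exact Q.ord_const hc) h3
      refine Or.inl ⟨v, b, ?_, hb, hv⟩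
      have hv' : ∀ f : F i.castSucc, (a : ℤ) * P.ord f = b * v.ord (⟨(f : K), hle i f.2⟩ : E) := by
        intro f
        rw [← h2 f, ← hv (⟨(f : K), hle i f.2⟩ : E)]
        rfl
      have h5 := hv' u
      rw [hu, mul_one] at h5
      have ha' : (0 : ℤ) < a := by exact_mod_cast ha
      have hb' : (0 : ℤ) < b := by exact_mod_cast hb
      have hc' : 0 < v.ord (⟨(u : K), hle i u.2⟩ : E) := by
        rw [h5] at ha'
        exact (mul_pos_iff_of_pos_left hb').1 ha'
      obtain ⟨c, hc⟩ : ∃ c : ℕ, (c : ℤ) = v.ord (⟨(u : K), hle i u.2⟩ : E) :=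
        ⟨_, Int.toNat_of_nonneg hc'.le⟩
      refine ⟨i, P, c, h1, by omega, fun f => ?_⟩
      have h6 := hv' f
      rw [h5, ← hc, mul_assoc] at h6
      exact (mul_left_cancel₀ hb'.ne' h6).symm
    · exact Or.inr h1
  obtain ⟨y, G, h, hy, hG, hh, hreg, hval⟩ := exists_traceX (L := L) sec htrE hK hz
    (BdS (F := fun i : Fin k => F i.castSucc) hle BX) ht (basis_zz hK hz (hna t ht)) hD0 B
    (BL := BL) fun P Q e h1 h2 => (hB P Q e h1).2 (hBd1 Q h2)
  have her := erase K N E (F (Fin.last k)) hsup' htrE hK _ hz t ht D0 hD0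
    (BdS (F := fun i : Fin k => F i.castSucc) hle BX) B hBt L BL
    (fun P Q e h1 h2 => hBd2 Q ((hB P Q e h1).1 h2)) h hval
  obtain ⟨τ0⟩ : Nonempty (K →ₐ[L] AlgebraicClosure L) :=
    ⟨IsAlgClosed.lift (R := L) (M := AlgebraicClosure L) (S := K)⟩
  have hT' : IsScalarTower ℂ L (AlgebraicClosure L) := inferInstance
  obtain ⟨H, hH⟩ : ∃ H, H = HS x BX (HL D0 B : Set (F (Fin.last k))) := ⟨_, rfl⟩
  have hHl : H (Fin.last k) = (HL D0 B : Set (F (Fin.last k))) := by
    rw [hH]
    exact HS_last x BX _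
  have hHc : ∀ i : Fin k, H i.castSucc = HX (x i) (BX i) := fun i => by
    rw [hH]
    exact HS_cast x BX _ i
  let I := {f : ∀ i, F i // ∀ i, f i ∈ H i}
  obtain ⟨T, hT⟩ : ∃ T : I → L, ∀ f, T f =
    Algebra.trace L K (h * ∏ i, algebraMap (F i) K (f.1 i)) := ⟨_, fun _ => rfl⟩
  have hTreg : ∀ f, ∀ P : Place ℂ L, Divisorial (N + 1) P → SecAt BL P (trForm y (T f)) := by
    intro f P hP
    obtain ⟨q, hq1, hq2⟩ := prods hs2 k (fun i => F i.castSucc) m hm x hx hind BX E hE hle N e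
      (fun i => f.1 i.castSucc) (fun i => by
        have := f.2 i.castSucc
        rwa [hHc] at this)
    have h1 := hreg q hq2 (f.1 (Fin.last k)) (by
      have := f.2 (Fin.last k)
      rwa [hHl] at this) P hP
    have h2 : algebraMap E K q * algebraMap (F (Fin.last k)) K (f.1 (Fin.last k)) =
        ∏ i, algebraMap (F i) K (f.1 i) := by
      rw [Fin.prod_univ_castSucc]
      congr 1
    rw [h2] at h1
    rw [hT]
    exact h1
  obtain ⟨gg, hgg⟩ : ∃ gg : Fin (k + 1) → ℕ, gg = Fin.lastCases (motive := fun _ => ℕ) 0 g :=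
    ⟨_, rfl⟩
  have hggl : gg (Fin.last k) = 0 := by
    rw [hgg]
    exact Fin.lastCases_last
  have hggc : ∀ i : Fin k, gg i.castSucc = g i := fun i => by
    rw [hgg]
    exact Fin.lastCases_castSucc i
  have hS : ∀ (Ω : Type) [Field Ω] [Algebra ℂ Ω] [IsAlgClosed Ω] (i : Fin (k + 1)),
      Sep (ev Ω F i) (H i) (gg i) := by
    intro Ω _ _ _ i
    induction i using Fin.lastCases with
    | last =>
      intro A hA
      rw [hggl] at hA
      exact absurd hA (Nat.not_lt_zero _)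
    | cast i =>
      intro A hA c hc
      rw [hggc] at hA
      rw [hHc] at hc
      exact hsep i Ω A hA c hc
  have htr1 : (∀ f : ∀ i, F i, f (Fin.last k) ∈ H (Fin.last k) →
      Algebra.trace (MF F L (Finset.univ.erase (Fin.last k))) K
        (h * ∏ i, algebraMap (F i) K (f i)) = 0) → IsA1Uniruled ℂ L (N + 1) BL := by
    intro h0
    refine her fun φ hφ => ?_
    have h1 := h0 (Fin.lastCases (motive := fun i => F i) φ (fun _ => 1)) (by
      rw [Fin.lastCases_last, hHl]
      exact hφ)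
    rw [Fin.prod_univ_castSucc, Fin.lastCases_last] at h1
    simp only [Fin.lastCases_castSucc, map_one, Finset.prod_const_one, one_mul] at h1
    rw [MF_erase hE] at h1
    exact h1
  by_cases hT0 : ∃ f, T f ≠ 0
  swap
  · left
    push Not at hT0
    have h0 := Ch.rel_zero (F := F) (H := H) (h := h) (fun f hf => by
      have := hT0 ⟨f, hf⟩
      rwa [hT] at this) τ0
    have h1 := Rl.chain h0 (hS (AlgebraicClosure L)) (s := k) (fun l hl => by
      obtain ⟨i, rfl⟩ : ∃ i : Fin k, i.castSucc = l := ⟨⟨l.val, hl⟩, rfl⟩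
      rw [hggc]
      exact lt_of_le_of_lt ((Ch.count_le τ0 _ _).trans (Nat.le_mul_of_pos_left _ two_pos))
        (hd i))
    rw [erase_last] at h1
    exact htr1 fun f hf => Ch.rel_erase h1 f hf
  · obtain ⟨f1, hf1⟩ := hT0
    obtain ⟨Ω', iF, iA, iC, i1, i2, lam, hlam, hlamT, hpts⟩ := exists_pts T (f1 := f1) hf1
    have h0 : Rl (P2 i1 i2 F L) (ev Ω' F) H (C2 i1 i2 h lam) (Sum.inl τ0) ∅ :=
      Ch.rel2_zero i1 i2 (fun f hf => by
        have := hlamT ⟨f, hf⟩
        rw [hT] at this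
        exact this) _
    have h1 := Rl.chain h0 (hS Ω') (s := k) (fun l hl => by
      obtain ⟨i, rfl⟩ : ∃ i : Fin k, i.castSucc = l := ⟨⟨l.val, hl⟩, rfl⟩
      rw [hggc]
      exact lt_of_le_of_lt (Ch.count2_le i1 i2 τ0 _ _) (hd i))
    rw [erase_last] at h1
    rcases Ch.rel2_erase i1 i2 hlam h1 with ⟨τ, hτ⟩ | h3
    · right
      refine ⟨y, G, I, T, hG, ⟨f1, hf1⟩, hTreg, fun l => (x (e l).1 (e l).2 : K),
        hind.comp e e.injective, fun l => ?_⟩
      exact alg_back τ0 (hpts _ _ (hτ (e l).1.castSucc (Fin.castSucc_ne_last _)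
        (x (e l).1 (e l).2)).symm)
    · exact Or.inl (htr1 h3)

end

end Pool.Agent.N145.SX
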