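import Pool.Agent.N145.SX.Multi
import Pool.Agent.N442.SX.SEC2

/-!
Varieties dominated by the product of several varieties and a curve: the dichotomy.
-/

set_option autoImplicit false
set_option linter.overlappingInstances false
set_option linter.unusedSectionVars false
set_option linter.unusedVariables false
set_option maxHeartbeats 4000000
set_option synthInstance.maxHeartbeats 400000

open Polynomial FF IntermediateField Module

namespace Pool.Agent.N145.SX

open Pool.Agent.W603.LV Pool.Agent.W619.PQ Pool.Agent.N145.PC Pool.Agent.N145.PL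
open Pool.Agent.W602.GT (Divisorial RegAt IsPluri DerReg DerLog LogAt KodGe LogSec Psef)
open Pool.Agent.Y184.NT (trForm trForm_pluri)
open Pool.Agent.R882.LT (SecAt LogGenusZero)
open Pool.Agent.W619.PL (IsA1Uniruled)

open scoped Classical

theorem sec2 : S_SEC2 := Pool.Agent.N442.SX.SEC2 Pool.Agent.N123.SX.PULL

section

variable {K : Type} [Field K] [Algebra ℂ K] {k : ℕ} {F : Fin (k + 1) → IntermediateField ℂ K}
  {m : Fin k → ℕ} {L : Type} [Field L] [Algebra ℂ L]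
  [Algebra L K] [IsScalarTower ℂ L K] [FiniteDimensional L K]

theorem multi_log [Algebra.EssFiniteType ℂ K]
    [∀ i, Algebra.EssFiniteType ℂ (F i)] [IsFF ℂ (F (Fin.last k))] (hsup : ⨆ i, F i = ⊤)
    (hm : ∀ i : Fin k, Algebra.trdeg ℂ (F i.castSucc) = m i)
    (hK : Algebra.trdeg ℂ K = (∑ i, m i + 1 : ℕ)) {x : ∀ i : Fin k, Fin (m i) → F i.castSucc}
    (hx : ∀ i, IsTranscendenceBasis ℂ (x i)) {BX : ∀ i : Fin k, Place ℂ (F i.castSucc) → Prop}
    {B : Set (Place ℂ (F (Fin.last k)))} (hBf : B.Finite) {BL : Place ℂ L → Prop}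
    (hB : ∀ (P : Place ℂ L) (Q : Place ℂ K) (e : ℕ), Over Q P e → (BL P ↔ BdM BX B Q))
    {g : Fin k → ℕ} (hsep : ∀ i, SepX (x i) (BX i) (g i))
    (hd : ∀ i : Fin k, 2 * finrank (MF F L (Js (k + 1) i)) (IntermediateField.adjoin
      (MF F L (Js (k + 1) i)) (F i.castSucc : Set K)) < g i) :
    [Psef ℂ L (∑ i, m i + 1) BL, KodGe ℂ L (∑ i, m i + 1) BL (∑ i, m i),
      ¬ IsA1Uniruled ℂ L (∑ i, m i + 1) BL].TFAE := by
  have hL : Algebra.trdeg ℂ L = (∑ i, m i + 1 : ℕ) := Pool.Agent.Y184.NT.trdeg_below (K := K) hK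
  have hessL : Algebra.EssFiniteType ℂ L := Pool.Agent.TH466.QG.ess_below (K := K)
  have h := multi_core sec2 hsup hm hK hx hBf hB hsep hd
  tfae_have 1 → 3 := fun h1 h2 => not_psef_of_a1 hL h2 h1
  tfae_have 3 → 2 := by
    intro h1
    obtain ⟨y, G, ι, T, hG, hT0, hreg, x', hx', halg⟩ := h.resolve_left h1
    exact kodGe_of_algL hL hG T hT0 hreg (trdeg_adj hx') halg
  tfae_have 2 → 1 := psef_of_kodGe'
  tfae_finish

theorem bdM_false (Q : Place ℂ K) : ¬ BdM (F := F) (fun _ _ => False) ∅ Q := by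
  rintro (⟨_, _, _, h3, -⟩ | ⟨_, h3, -⟩)
  · exact h3
  · exact h3

/-- **Uniruled, or many canonical forms.** -/
theorem multi_dich [Algebra.EssFiniteType ℂ K]
    [∀ i, Algebra.EssFiniteType ℂ (F i)] [IsFF ℂ (F (Fin.last k))] (hsup : ⨆ i, F i = ⊤)
    (hm : ∀ i : Fin k, Algebra.trdeg ℂ (F i.castSucc) = m i)
    (hK : Algebra.trdeg ℂ K = (∑ i, m i + 1 : ℕ)) {x : ∀ i : Fin k, Fin (m i) → F i.castSucc}
    (hx : ∀ i, IsTranscendenceBasis ℂ (x i))
    {g : Fin k → ℕ} (hsep : ∀ i, SepX (x i) (fun _ => False) (g i))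
    (hd : ∀ i : Fin k, 2 * finrank (MF F L (Js (k + 1) i)) (IntermediateField.adjoin
      (MF F L (Js (k + 1) i)) (F i.castSucc : Set K)) < g i) :
    IsUniruled ℂ L (∑ i, m i + 1) ∨ CanGe L (∑ i, m i + 1) (∑ i, m i) := by
  have hL : Algebra.trdeg ℂ L = (∑ i, m i + 1 : ℕ) := Pool.Agent.Y184.NT.trdeg_below (K := K) hK
  have hessL : Algebra.EssFiniteType ℂ L := Pool.Agent.TH466.QG.ess_below (K := K)
  rcases multi_core (L := L) sec2 hsup hm hK hx (B := ∅) Set.finite_empty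
    (BX := fun _ _ => False) (BL := fun _ => False)
    (fun P Q e h => ⟨fun h => absurd h id, fun h => absurd h (bdM_false Q)⟩) hsep hd with h | h
  · obtain ⟨M, i1, i2, φ, h1, h2, -⟩ := h
    exact Or.inl ⟨M, i1, i2, h1, h2, ⟨φ⟩⟩
  · obtain ⟨y, G, ι, T, hG, hT0, hreg, x', hx', halg⟩ := h
    exact Or.inr (canGe_of_alg hL hG T hT0 (fun f P hP => (hreg f P hP).2 not_false)
      (trdeg_adj hx') halg)

end

end Pool.Agent.N145.SX
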