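import Pool.Agent.N281.SX.REGFa

/-!
Pull-backs of pluricanonical forms, and regularity along horizontal divisors. After
`Pool.Agent.Y297.NT.Pull` and `Pool.Agent.N281.SX.REGFa` (forms of weight one).
-/

set_option autoImplicit false
set_option linter.overlappingInstances false
set_option linter.unusedSectionVars false
set_option maxHeartbeats 4000000
set_option synthInstance.maxHeartbeats 400000

open FF

namespace Pool.Agent.N145.SX

open Pool.Agent.W603.LV Pool.Agent.W619.PQ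
open Pool.Agent.W602.GT (Divisorial RegAt IsPluri DerReg)
open Pool.Agent.N281.SX (rcP rcP_div dl dl_same dl_ne det_eq)

/-- **Pull-backs of regular pluricanonical forms are regular.** -/
theorem pull_pluri {K R : Type} [Field K] [Field R] [Algebra ℂ K] [Algebra ℂ R] [Algebra K R]
    [IsScalarTower ℂ K R] [Algebra.EssFiniteType ℂ K] {n N w : ℕ} (hn : Algebra.trdeg ℂ K = n)
    (hN : Algebra.trdeg ℂ R = N) {z : Fin n → K} (hz : IsTranscendenceBasis ℂ z)
    {E : Fin n → Derivation ℂ K K} (hE : ∀ i j, E i (z j) = if i = j then 1 else 0)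
    {ω : (Fin n → Derivation ℂ K K) → K} (hω : IsPluri w ω)
    (hreg : ∀ P : Place ℂ K, Divisorial n P → RegAt P ω) (Q : Place ℂ R) (hQ : Divisorial N Q)
    {D : Fin n → Derivation ℂ R R} (hD : ∀ i, DerReg Q (D i)) :
    Q.Reg ((Matrix.of fun i j => D i (algebraMap K R (z j)) : Matrix (Fin n) (Fin n) R).det ^ w *
      algebraMap K R (ω E)) := by
  classical
  by_cases htriv : ∃ f : K, Q.ord (algebraMap K R f) ≠ 0
  · obtain ⟨e, P, hP⟩ := exists_over Q htriv
    have hPd : Divisorial n P := Pool.Agent.Y71.NT.t_abh K R n N hn hN Q P e hP hQ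
    obtain ⟨yP, EP, i0, hbas, hdual, -, hyreg, hpres⟩ :=
      Pool.Agent.W240.PG.Frame.main.{0, 0} Pool.Agent.W762.PG.main ℂ K n hn
        (fun y hy => Pool.Agent.Y297.NT.fd_basis hy) P hPd
    have h1 := Pool.Agent.W73.PG.PULL.form_eq (L := R) z yP hz hbas E EP hE hdual
      (m := w) ω hω D
    rw [h1]
    refine Q.reg_mul ?_ ?_
    · have h9 : Ge Q 0 (Matrix.of fun a c => D a (algebraMap K R (yP c)) :
          Matrix (Fin n) (Fin n) R).det :=
        Pool.Agent.W619.PQ.ge_det Q _ fun a b => hD a _ (hP.reg.2 (hyreg b))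
      have h10 := h9.pow w
      rw [mul_zero] at h10
      exact h10
    · exact hP.reg.2 (hreg P hPd EP hpres)
  · push Not at htriv
    have h0 : ∀ f : K, Q.Reg (algebraMap K R f) := fun f => Or.inr (htriv f).ge
    refine Q.reg_mul ?_ (h0 _)
    have h9 : Ge Q 0 (Matrix.of fun i j => D i (algebraMap K R (z j)) :
        Matrix (Fin n) (Fin n) R).det :=
      Pool.Agent.W619.PQ.ge_det Q _ fun a b => hD a _ (h0 _)
    have h10 := h9.pow w
    rw [mul_zero] at h10
    exact h10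

/-- **Restriction of pluricanonical forms to the fibres.** -/
theorem core_pluri {E Λ Ξ : Type} [Field E] [Field Λ] [Field Ξ] [Algebra ℂ E] [Algebra ℂ Λ]
    [Algebra ℂ Ξ] [Algebra Λ Ξ] [Algebra E Ξ] [IsScalarTower ℂ Λ Ξ] [IsScalarTower ℂ E Ξ]
    [Algebra.EssFiniteType ℂ E] [IsAlgClosed Λ] [IsFF Λ Ξ] {m N w : ℕ} (hm : Algebra.trdeg ℂ E = m)
    (hN : Algebra.trdeg ℂ Λ = N) {x : Fin m → E} (hx : IsTranscendenceBasis ℂ x)
    {D0 : Fin m → Derivation ℂ E E} (hdual : ∀ i j, D0 i (x j) = if i = j then 1 else 0)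
    {ω : (Fin m → Derivation ℂ E E) → E} (hpl : IsPluri w ω)
    (hreg : ∀ P : Place ℂ E, Divisorial m P → RegAt P ω)
    (Ds : Derivation Λ Ξ Ξ) {s : Ξ} (hs : Ds s = 1)
    (δ : Fin m → Derivation ℂ Ξ Ξ) (i0 : Fin m) (hi0 : ∀ z, δ i0 z = Ds z)
    (hδ : ∀ i (c : Λ), ∃ c' : Λ, δ i (algebraMap Λ Ξ c) = algebraMap Λ Ξ c')
    (Q : Place Λ Ξ) : Ge Q (w * vo Q Ds)
      ((Matrix.of fun i j => δ i (algebraMap E Ξ (x j)) : Matrix (Fin m) (Fin m) Ξ).det ^ w *
        algebraMap E Ξ (ω D0)) := by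
  have hch : CharZero Λ := charZero_of_injective_algebraMap (algebraMap ℂ Λ).injective
  have hess : Algebra.EssFiniteType Λ Ξ := IsFF.ess
  have hD0 : Ds ≠ 0 := by
    rintro rfl
    simp at hs
  obtain ⟨τ, hτ⟩ : ∃ τ, τ = unif Q := ⟨_, rfl⟩
  have hτ1 : Q.ord τ = 1 := by rw [hτ]; exact ord_unif Q
  obtain ⟨a, ha⟩ : ∃ a, a = Ds τ := ⟨_, rfl⟩
  have ha0 : a ≠ 0 := by rw [ha]; exact der_pi_ne_zero hD0 Q hτ1
  have hvo : vo Q Ds = Q.ord a := by rw [ha, hτ]; rfl
  -- regularity of the normalised derivations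
  have hdr : ∀ i, DerReg (rcP Q) (dl δ i0 τ a i) := by
    intro i g hg
    have h1 : Q.Reg g := hg
    have h2 := Pool.Agent.N131.MV.der_regular (P := Q) (m := 0) (s := (Fin.elim0 : Fin 0 → Ξ))
      (δ := dl δ i0 τ a i) (by rw [IsFF.trdeg (k := Λ) (K := Ξ)]; simp)
      (by
        intro G hG
        rw [MvPolynomial.eq_C_of_isEmpty G] at hG ⊢
        have hc : MvPolynomial.coeff 0 G ≠ 0 := by
          intro h
          rw [h, map_zero] at hG
          exact hG rfl
        rw [MvPolynomial.aeval_C]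
        exact ⟨by simpa using hc, Q.ord_const hc⟩)
      (by
        intro c
        by_cases hi : i = i0
        · subst hi
          rw [dl_same, hi0, Derivation.map_algebraMap, mul_zero]
          exact Q.reg_zero
        · rw [dl_ne _ _ _ _ hi, hi0, Derivation.map_algebraMap, mul_zero, sub_zero]
          obtain ⟨c', hc'⟩ := hδ i c
          rw [hc']
          exact Q.reg_const c')
      (fun i => i.elim0) hτ1
      (by
        by_cases hi : i = i0
        · subst hi
          rw [dl_same, hi0, ← ha, inv_mul_cancel₀ ha0]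
          exact Q.reg_one
        · rw [dl_ne _ _ _ _ hi, hi0, ← ha, div_mul_cancel₀ _ ha0, sub_self]
          exact Q.reg_zero) g h1
    exact h2
  -- transcendence degree
  have htr : Algebra.trdeg ℂ Ξ = ((N + 1 : ℕ) : Cardinal) := by
    have h1 := trdeg_add_eq ℂ Λ (A := Ξ)
    rw [hN, IsFF.trdeg (k := Λ) (K := Ξ)] at h1
    rw [← h1]
    push_cast
    rfl
  have hP := pull_pluri hm htr hx hdual hpl hreg (rcP Q) (rcP_div hN Q) hdr
  rw [det_eq δ i0 τ ha0, mul_pow, mul_assoc, hvo]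
  have h1 : Ge Q (w * Q.ord a) (a ^ w) := by
    have h3 : Ge Q (Q.ord a) a := Or.inr le_rfl
    exact h3.pow w
  have h2 : Ge Q 0 ((Matrix.of fun i j => dl δ i0 τ a i (algebraMap E Ξ (x j)) :
    Matrix (Fin m) (Fin m) Ξ).det ^ w * algebraMap E Ξ (ω D0)) := hP
  have h3 := Ge.mul h1 h2
  rwa [add_zero] at h3

end Pool.Agent.N145.SX
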