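import Pool.Agent.N145.SX.Tr

/-!
The relations between the points of one fibre and of two fibres.
-/

set_option autoImplicit false
set_option linter.overlappingInstances false
set_option linter.unusedSectionVars false
set_option linter.unusedVariables false
set_option maxHeartbeats 4000000
set_option synthInstance.maxHeartbeats 400000

open Polynomial FF IntermediateField Module

namespace Pool.Agent.N145.SX

open Pool.Agent.W603.LV Pool.Agent.W619.PQ Pool.Agent.N145.PC Pool.Agent.N145.PL
open Pool.Agent.W602.GT (Divisorial RegAt IsPluri DerReg DerLog LogAt KodGe LogSec)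
open Pool.Agent.Y184.NT (trForm trForm_pluri)
open Pool.Agent.R882.LT (SecAt)

open scoped Classical

section

/-- grouping of the points with the same image -/
theorem sep_group {E : Type} [Field E] [Algebra ℂ E] {m : ℕ} {x : Fin m → E}
    {BX : Place ℂ E → Prop} {g : ℕ} (hsep : SepX x BX g) {Ω : Type} [Field Ω] [Algebra ℂ Ω]
    [IsAlgClosed Ω] {T : Type} [Fintype T] (p : T → (E →ₐ[ℂ] Ω)) (w : T → Ω)
    (hcard : (Finset.univ.image p).card < g)
    (hrel : ∀ f ∈ HX x BX, ∑ τ, w τ * p τ f = 0) (τ0 : T) :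
    ∑ τ ∈ Finset.univ.filter (fun τ => p τ = p τ0), w τ = 0 := by
  have h1 := hsep Ω (Finset.univ.image p) hcard
    (fun σ => ∑ τ ∈ Finset.univ.filter (fun τ => p τ = σ), w τ) (by
      intro f hf
      rw [← hrel f hf, ← Finset.sum_fiberwise_of_maps_to (s := Finset.univ)
        (t := Finset.univ.image p) (g := p) (fun τ hτ => Finset.mem_image_of_mem _ hτ)]
      refine Finset.sum_congr rfl fun σ _ => ?_
      rw [Finset.sum_mul]
      refine Finset.sum_congr rfl fun τ hτ => ?_
      rw [(Finset.mem_filter.1 hτ).2])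
  exact h1 (p τ0) (Finset.mem_image_of_mem _ (Finset.mem_univ _))

variable {K L Ω : Type} [Field K] [Field L] [Field Ω] [Algebra ℂ K] [Algebra ℂ L] [Algebra ℂ Ω]
  [Algebra L K] [IsScalarTower ℂ L K] [Algebra L Ω] [IsScalarTower ℂ L Ω] [FiniteDimensional L K]
  [IsAlgClosed Ω] (E : Type) [Field E] [Algebra ℂ E] [Algebra E K] [IsScalarTower ℂ E K]

/-- the number of the images of the points of a fibre -/
theorem card_res : (Finset.univ.image (res (K := K) (L := L) (Ω := Ω) E)).card ≤
    finrank L (IntermediateField.adjoin L (Set.range (algebraMap E K))) := by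
  have hchar : CharZero L := charZero_L
  let M := IntermediateField.adjoin L (Set.range (algebraMap E K))
  have hE : ∀ z : E, algebraMap E K z ∈ M := fun z =>
    IntermediateField.subset_adjoin _ _ ⟨z, rfl⟩
  let ι : E →ₐ[ℂ] M :=
    { toFun := fun z => ⟨algebraMap E K z, hE z⟩
      map_one' := Subtype.ext (map_one _)
      map_mul' := fun a b => Subtype.ext (map_mul _ a b)
      map_zero' := Subtype.ext (map_zero _)
      map_add' := fun a b => Subtype.ext (map_add _ a b)
      commutes' := fun c => Subtype.ext (IsScalarTower.algebraMap_apply ℂ E K c).symm }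
  let r : (M →ₐ[L] Ω) → (E →ₐ[ℂ] Ω) := fun ψ => (ψ.restrictScalars ℂ).comp ι
  have hsub : Finset.univ.image (res (K := K) (L := L) (Ω := Ω) E) ⊆ Finset.univ.image r := by
    intro σ hσ
    obtain ⟨τ, -, rfl⟩ := Finset.mem_image.1 hσ
    exact Finset.mem_image.2 ⟨τ.comp M.val, Finset.mem_univ _, rfl⟩
  calc _ ≤ (Finset.univ.image r).card := Finset.card_le_card hsub
    _ ≤ (Finset.univ : Finset (M →ₐ[L] Ω)).card := Finset.card_image_le
    _ = finrank L M := by
      rw [Finset.card_univ]
      exact AlgHom.card L M Ω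

/-- the points of the fibre with the same image -/
theorem mem_res (τ0 τ : K →ₐ[L] Ω) : τ ∈ Finset.univ.filter (fun τ => res (K := K) (L := L) E τ =
    res E τ0) ↔ ∀ z ∈ IntermediateField.adjoin L (Set.range (algebraMap E K)), τ z = τ0 z := by
  rw [Finset.mem_filter]
  constructor
  · rintro ⟨-, h⟩ z hz
    have h1 : IntermediateField.adjoin L (Set.range (algebraMap E K)) ≤
        { (AlgHom.equalizer τ τ0) with
          inv_mem' := fun a ha => by
            have ha' : τ a = τ0 a := ha
            change τ a⁻¹ = τ0 a⁻¹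
            rw [map_inv₀, map_inv₀, ha'] } := by
      rw [IntermediateField.adjoin_le_iff]
      rintro _ ⟨y, rfl⟩
      exact DFunLike.congr_fun h y
    exact h1 hz
  · intro h
    refine ⟨Finset.mem_univ _, ?_⟩
    ext z
    exact h _ (IntermediateField.subset_adjoin _ _ ⟨z, rfl⟩)

variable {m : ℕ} {x : Fin m → E} {BX : Place ℂ E → Prop} {g : ℕ}

/-- **One fibre.** -/
theorem rel_one (hsep : SepX x BX g)
    (hd : finrank L (IntermediateField.adjoin L (Set.range (algebraMap E K))) < g) {H : Set K} {h : K}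
    (hT : ∀ f ∈ HX x BX, ∀ φ ∈ H, Algebra.trace L K (h * (algebraMap E K f * φ)) = 0)
    {φ : K} (hφ : φ ∈ H) :
    Algebra.trace (IntermediateField.adjoin L (Set.range (algebraMap E K))) K (h * φ) = 0 := by
  have hchar : CharZero L := charZero_L
  obtain ⟨τ0⟩ : Nonempty (K →ₐ[L] AlgebraicClosure L) :=
    ⟨IsAlgClosed.lift (R := L) (M := AlgebraicClosure L) (S := K)⟩
  have hT' : IsScalarTower ℂ L (AlgebraicClosure L) := inferInstance
  have h1 := sep_group hsep (T := K →ₐ[L] AlgebraicClosure L)
    (res (K := K) (L := L) (Ω := AlgebraicClosure L) E) (fun τ => τ (h * φ))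
    (lt_of_le_of_lt (card_res E) hd) (by
      intro f hf
      have h2 := trace_eq_sum_embeddings (K := L) (L := K) (AlgebraicClosure L)
        (x := h * (algebraMap E K f * φ))
      rw [hT f hf φ hφ, map_zero] at h2
      rw [h2]
      refine Finset.sum_congr rfl fun τ _ => ?_
      rw [res_apply, ← map_mul]
      congr 1
      ring) τ0
  have h2 := sum_trace (IntermediateField.adjoin L (Set.range (algebraMap E K))) τ0 _ (mem_res E τ0) (h * φ)
  rw [h1] at h2
  have h6 := h2.symm
  rw [map_eq_zero, map_eq_zero] at h6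
  exact h6

/-- **Two fibres.** -/
theorem rel_two (hsep : SepX x BX g)
    (hd : 2 * finrank L (IntermediateField.adjoin L (Set.range (algebraMap E K))) < g) {H : Set K} {h : K}
    {Ω' : Type} [Field Ω'] [Algebra ℂ Ω'] [IsAlgClosed Ω']
    {i1 i2 : AlgebraicClosure L →ₐ[ℂ] Ω'} {lam : Ω'} (hlam : lam ≠ 0)
    (hT : ∀ f ∈ HX x BX, ∀ φ ∈ H,
      i2 (algebraMap L (AlgebraicClosure L) (Algebra.trace L K (h * (algebraMap E K f * φ)))) =
      lam * i1 (algebraMap L (AlgebraicClosure L)
        (Algebra.trace L K (h * (algebraMap E K f * φ)))))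
    (τ0 : K →ₐ[L] AlgebraicClosure L) :
    (∃ τ : K →ₐ[L] AlgebraicClosure L, ∀ z : E,
      i2 (τ (algebraMap E K z)) = i1 (τ0 (algebraMap E K z))) ∨
      ∀ φ ∈ H, Algebra.trace (IntermediateField.adjoin L (Set.range (algebraMap E K))) K (h * φ) = 0 := by
  have hchar : CharZero L := charZero_L
  have hT' : IsScalarTower ℂ L (AlgebraicClosure L) := inferInstance
  by_cases hex : ∃ τ : K →ₐ[L] AlgebraicClosure L, ∀ z : E,
    i2 (τ (algebraMap E K z)) = i1 (τ0 (algebraMap E K z))
  · exact Or.inl hex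
  right
  intro φ hφ
  let Ω := AlgebraicClosure L
  let p : (K →ₐ[L] Ω) ⊕ (K →ₐ[L] Ω) → (E →ₐ[ℂ] Ω') :=
    Sum.elim (fun τ => i1.comp (res E τ)) (fun τ => i2.comp (res E τ))
  let w : (K →ₐ[L] Ω) ⊕ (K →ₐ[L] Ω) → Ω' :=
    Sum.elim (fun τ => -(lam * i1 (τ (h * φ)))) (fun τ => i2 (τ (h * φ)))
  have hcard : (Finset.univ.image p).card < g := by
    obtain ⟨A, hA⟩ : ∃ A, A = Finset.univ.image (res (K := K) (L := L) (Ω := Ω) E) := ⟨_, rfl⟩
    have h6 : A.card ≤ finrank L (IntermediateField.adjoin L (Set.range (algebraMap E K))) := by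
      rw [hA]
      exact card_res (L := L) (Ω := Ω) E
    obtain ⟨U1, hU1⟩ : ∃ U1 : Finset (E →ₐ[ℂ] Ω'), U1 = A.image fun σ => i1.comp σ := ⟨_, rfl⟩
    obtain ⟨U2, hU2⟩ : ∃ U2 : Finset (E →ₐ[ℂ] Ω'), U2 = A.image fun σ => i2.comp σ := ⟨_, rfl⟩
    have h4 : U1.card ≤ A.card := by
      rw [hU1]
      exact Finset.card_image_le
    have h5 : U2.card ≤ A.card := by
      rw [hU2]
      exact Finset.card_image_le
    have h1 : Finset.univ.image p ⊆ U1 ∪ U2 := by
      intro σ hσ
      obtain ⟨ρ, -, rfl⟩ := Finset.mem_image.1 hσ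
      rw [Finset.mem_union, hU1, hU2, hA]
      rcases ρ with τ | τ
      · exact Or.inl (Finset.mem_image_of_mem _ (Finset.mem_image_of_mem _ (Finset.mem_univ τ)))
      · exact Or.inr (Finset.mem_image_of_mem _ (Finset.mem_image_of_mem _ (Finset.mem_univ τ)))
    have h2 := Finset.card_le_card h1
    have h3 := Finset.card_union_le U1 U2
    omega
  have h1 := sep_group hsep p w hcard (by
      intro f hf
      have h2 := trace_eq_sum_embeddings (K := L) (L := K) Ω
        (x := h * (algebraMap E K f * φ))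
      have h3 := hT f hf φ hφ
      rw [h2, map_sum, map_sum] at h3
      rw [Fintype.sum_sum_type]
      have e1 : ∑ τ : K →ₐ[L] Ω, w (Sum.inl τ) * p (Sum.inl τ) f =
          -(lam * ∑ τ : K →ₐ[L] Ω, i1 (τ (h * (algebraMap E K f * φ)))) := by
        rw [Finset.mul_sum, ← Finset.sum_neg_distrib]
        refine Finset.sum_congr rfl fun τ _ => ?_
        change -(lam * i1 (τ (h * φ))) * i1 (res E τ f) = _
        rw [res_apply]
        have : τ (h * (algebraMap E K f * φ)) = τ (h * φ) * τ (algebraMap E K f) := by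
          rw [← map_mul]
          congr 1
          ring
        rw [this, map_mul i1, neg_mul, mul_assoc]
      have e2 : ∑ τ : K →ₐ[L] Ω, w (Sum.inr τ) * p (Sum.inr τ) f =
          ∑ τ : K →ₐ[L] Ω, i2 (τ (h * (algebraMap E K f * φ))) := by
        refine Finset.sum_congr rfl fun τ _ => ?_
        change i2 (τ (h * φ)) * i2 (res E τ f) = _
        rw [res_apply, ← map_mul, ← map_mul]
        congr 2
        ring
      rw [e1, e2, h3]
      ring) (Sum.inl τ0)
  have h2 : ∑ τ ∈ Finset.univ.filter (fun τ => p τ = p (Sum.inl τ0)), w τ =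
      ∑ τ ∈ Finset.univ.filter (fun τ => res (K := K) (L := L) (Ω := Ω) E τ = res E τ0),
        -(lam * i1 (τ (h * φ))) := by
    symm
    refine Finset.sum_bij (fun τ _ => Sum.inl τ) ?_ ?_ ?_ ?_
    · intro τ hτ
      rw [Finset.mem_filter] at hτ ⊢
      refine ⟨Finset.mem_univ _, ?_⟩
      change i1.comp (res E τ) = i1.comp (res E τ0)
      rw [hτ.2]
    · intro a _ b _ hab
      exact Sum.inl_injective hab
    · intro ρ hρ
      rw [Finset.mem_filter] at hρ
      rcases ρ with τ | τ
      · refine ⟨τ, ?_, rfl⟩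
        rw [Finset.mem_filter]
        refine ⟨Finset.mem_univ _, ?_⟩
        ext z
        exact i1.injective (DFunLike.congr_fun hρ.2 z)
      · exact absurd ⟨τ, fun z => DFunLike.congr_fun hρ.2 z⟩ hex
    · intro τ _
      rfl
  rw [h2, Finset.sum_neg_distrib, neg_eq_zero, ← Finset.mul_sum, mul_eq_zero] at h1
  have h3 := h1.resolve_left hlam
  rw [← map_sum, map_eq_zero] at h3
  have h4 := sum_trace (IntermediateField.adjoin L (Set.range (algebraMap E K))) τ0 _ (mem_res E τ0) (h * φ)
  rw [h3] at h4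
  have h6 := h4.symm
  rw [map_eq_zero, map_eq_zero] at h6
  exact h6

end

end Pool.Agent.N145.SX
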