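import Pool.Agent.N145.SX.Stm

/-!
Varieties dominated by the product of a variety and a curve: general type, and coverings by curves of
genus at most one. Statements.
-/

set_option autoImplicit false
set_option linter.overlappingInstances false
set_option linter.unusedSectionVars false

open Polynomial FF IntermediateField Module

namespace Pool.Agent.N145.SX

open Pool.Agent.W603.LV Pool.Agent.W619.PQ Pool.Agent.N145.PC Pool.Agent.N145.PL
open Pool.Agent.W602.GT (Divisorial RegAt IsPluri DerReg DerLog LogAt KodGe LogSec)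
open Pool.Agent.Y184.NT (trForm)
open Pool.Agent.R882.LT (SecAt)

/-- any two regular differentials of the curve `F` over `Λ` are proportional (the genus is at most
one) -/
def GLO (Λ F : Type) [Field Λ] [Field F] [Algebra Λ F] : Prop :=
  ∀ D : Derivation Λ F F, D ≠ 0 → ∀ f ∈ HL D (∅ : Set (Place Λ F)),
    ∀ g ∈ HL D (∅ : Set (Place Λ F)), ∃ a b : Λ, (a ≠ 0 ∨ b ≠ 0) ∧
      algebraMap Λ F a * f = algebraMap Λ F b * g

/-- the geometric generic fibre of the fibration of the variety with the function field `L` over the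
variety with the function field `N ⊆ L` is a curve of genus at most one: `Λ` is the algebraic closure
of `N`, and `F` is the function field of the geometric generic fibre -/
def GeoFib (L : Type) [Field L] [Algebra ℂ L] (N : IntermediateField ℂ L) : Prop :=
  ∃ (Λ F : Type) (_ : Field Λ) (_ : Field F) (_ : Algebra N Λ) (_ : Algebra N F)
    (_ : Algebra Λ F) (_ : IsScalarTower N Λ F) (_ : IsAlgClosed Λ) (_ : Algebra.IsAlgebraic N Λ)
    (_ : IsFF Λ F) (ψ : L →ₐ[N] F),
    IntermediateField.adjoin Λ (Set.range ψ) = ⊤ ∧ GLO Λ F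

/-- **The genus of the images of the fibres.** Like `S_FIB` (proof: `Pool.Agent.N279.SX.FIB`), but
the traces are multiples of one function `S0`. -/
def S_FIB1 : Prop :=
  ∀ (K : Type) [Field K] [Algebra ℂ K] [Algebra.EssFiniteType ℂ K] (n : ℕ)
    (E C : IntermediateField ℂ K) [IsFF ℂ C], E ⊔ C = ⊤ → Algebra.trdeg ℂ E = n →
    Algebra.trdeg ℂ K = (n + 1 : ℕ) → ∀ x0 : C, Transcendental ℂ x0 →
    ∀ D0 : Derivation ℂ C C, D0 x0 = 1 →
    ∀ (E' : IntermediateField E K) [FiniteDimensional E' K] (t : Fin n → K), (∀ j, t j ∈ E) →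
    ∀ ξ ∈ E', ¬ IsAlgebraic E ξ →
    IsTranscendenceBasis ℂ (Fin.append t (fun _ : Fin 1 => ξ)) →
    ∀ Ef : Fin (n + 1) → Derivation ℂ K K,
    (∀ i j, Ef i (Fin.append t (fun _ : Fin 1 => ξ) j) = if i = j then 1 else 0) →
    ∀ S0 : K, (∀ φ ∈ HL D0 (∅ : Set (Place ℂ C)), ∃ c : E,
      ((Algebra.trace E' K (Ef (Fin.last n) (x0 : K) * (φ : K)) : E') : K) = (c : K) * S0) →
    ∀ (Λ F : Type) [Field Λ] [Field F] [Algebra ℂ Λ] [Algebra ℂ F] [Algebra Λ F] [Algebra K F]
      [Algebra E Λ] [IsScalarTower ℂ Λ F] [IsScalarTower ℂ K F] [Algebra.IsAlgebraic E Λ]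
      [IsAlgClosed Λ] [IsFF Λ F],
    (∀ z (hz : z ∈ E), algebraMap Λ F (algebraMap E Λ ⟨z, hz⟩) = algebraMap K F z) →
    IntermediateField.adjoin Λ (Set.range (algebraMap K F)) = ⊤ →
    ∀ FE : IntermediateField Λ F, FE = IntermediateField.adjoin Λ (algebraMap K F '' (E' : Set K)) →
      IsFF Λ FE ∧ GLO Λ FE

/-- **Fibrations in curves of genus at most one.** The first part is like `S_ERASE` (proof:
`Pool.Agent.N603.SX.ERASE`), but the traces are multiples of one function `S0`; then `S_FIB1` is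
used in the place of `S_FIB`. -/
def S_COV : Prop :=
  ∀ (K : Type) [Field K] [Algebra ℂ K] [Algebra.EssFiniteType ℂ K] (n : ℕ)
    (E C : IntermediateField ℂ K) [IsFF ℂ C], E ⊔ C = ⊤ → Algebra.trdeg ℂ E = n →
    Algebra.trdeg ℂ K = (n + 1 : ℕ) → ∀ x : Fin n → E, IsTranscendenceBasis ℂ x →
    ∀ t : C, Transcendental ℂ t → ∀ D0 : Derivation ℂ C C, D0 t = 1 →
    ∀ (L : Type) [Field L] [Algebra ℂ L] [Algebra L K] [IsScalarTower ℂ L K]
      [FiniteDimensional L K], ∀ h : K,
    (∀ (M : IntermediateField L K) (g : K) (D : Fin (n + 1) → Derivation ℂ M M)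
      (D' : Fin (n + 1) → Derivation ℂ K K),
      (∀ i z, D' i (algebraMap M K z) = algebraMap M K (D i z)) →
      ∃ a : M, trForm (zz K x t) g D' = algebraMap M K a * (h * g)) →
    ∀ S0 : K, (∀ φ ∈ HL D0 (∅ : Set (Place ℂ C)), ∃ c : E,
      ((Algebra.trace (IntermediateField.adjoin L (E : Set K)) K (h * (φ : K)) :
        IntermediateField.adjoin L (E : Set K)) : K) = (c : K) * S0) →
    ∀ N : IntermediateField ℂ L, (∀ z ∈ N, IsAlgebraic E (algebraMap L K z)) →
    (∀ z ∈ E, IsAlgebraic N z) → GeoFib L N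

end Pool.Agent.N145.SX
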