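import Pool.Agent.N145.SX.Main
import Pool.Agent.N145.SX.Stm3

/-!
The relations between the points of two fibres, with the values of the traces.
-/

set_option autoImplicit false
set_option linter.overlappingInstances false
set_option linter.unusedSectionVars false
set_option linter.unusedVariables false
set_option maxHeartbeats 4000000
set_option synthInstance.maxHeartbeats 400000

open Polynomial FF IntermediateField Module

namespace Pool.Agent.N145.SX

open Pool.Agent.W603.LV Pool.Agent.W619.PQ Pool.Agent.N145.PC Pool.Agent.N145.PL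
open Pool.Agent.W602.GT (Divisorial RegAt IsPluri DerReg DerLog LogAt KodGe LogSec)
open Pool.Agent.Y184.NT (trForm trForm_pluri)
open Pool.Agent.R882.LT (SecAt)

open scoped Classical

section

variable {K L : Type} [Field K] [Field L] [Algebra ℂ K] [Algebra ℂ L]
  [Algebra L K] [IsScalarTower ℂ L K] [FiniteDimensional L K]
  (E : Type) [Field E] [Algebra ℂ E] [Algebra E K] [IsScalarTower ℂ E K]
  {m : ℕ} {x : Fin m → E} {BX : Place ℂ E → Prop} {g : ℕ}

/-- **Two fibres.** -/
theorem rel_two2 (hsep : SepX x BX g)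
    (hd : 2 * finrank L (IntermediateField.adjoin L (Set.range (algebraMap E K))) < g) {H : Set K}
    {h : K} {Ω' : Type} [Field Ω'] [Algebra ℂ Ω'] [IsAlgClosed Ω']
    {i1 i2 : AlgebraicClosure L →ₐ[ℂ] Ω'} {lam : Ω'} (hlam : lam ≠ 0)
    (hT : ∀ f ∈ HX x BX, ∀ φ ∈ H,
      i2 (algebraMap L (AlgebraicClosure L) (Algebra.trace L K (h * (algebraMap E K f * φ)))) =
      lam * i1 (algebraMap L (AlgebraicClosure L)
        (Algebra.trace L K (h * (algebraMap E K f * φ)))))
    (τ0 τ : K →ₐ[L] AlgebraicClosure L) (hτ : ∀ z : E,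
      i2 (τ (algebraMap E K z)) = i1 (τ0 (algebraMap E K z))) {φ : K} (hφ : φ ∈ H) :
    i2 (τ (algebraMap (IntermediateField.adjoin L (Set.range (algebraMap E K))) K
      (Algebra.trace (IntermediateField.adjoin L (Set.range (algebraMap E K))) K (h * φ)))) =
    lam * i1 (τ0 (algebraMap (IntermediateField.adjoin L (Set.range (algebraMap E K))) K
      (Algebra.trace (IntermediateField.adjoin L (Set.range (algebraMap E K))) K (h * φ)))) := by
  have hchar : CharZero L := charZero_L
  have hT' : IsScalarTower ℂ L (AlgebraicClosure L) := inferInstance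
  let Ω := AlgebraicClosure L
  let p : (K →ₐ[L] Ω) ⊕ (K →ₐ[L] Ω) → (E →ₐ[ℂ] Ω') :=
    Sum.elim (fun τ => i1.comp (res E τ)) (fun τ => i2.comp (res E τ))
  let w : (K →ₐ[L] Ω) ⊕ (K →ₐ[L] Ω) → Ω' :=
    Sum.elim (fun τ => -(lam * i1 (τ (h * φ)))) (fun τ => i2 (τ (h * φ)))
  have hcard : (Finset.univ.image p).card < g := by
    obtain ⟨A, hA⟩ : ∃ A, A = Finset.univ.image (res (K := K) (L := L) (Ω := Ω) E) := ⟨_, rfl⟩
    have h6 : A.card ≤ finrank L (IntermediateField.adjoin L (Set.range (algebraMap E K))) := by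
      rw [hA]
      exact card_res (L := L) (Ω := Ω) E
    obtain ⟨U1, hU1⟩ : ∃ U1 : Finset (E →ₐ[ℂ] Ω'), U1 = A.image fun σ => i1.comp σ := ⟨_, rfl⟩
    obtain ⟨U2, hU2⟩ : ∃ U2 : Finset (E →ₐ[ℂ] Ω'), U2 = A.image fun σ => i2.comp σ := ⟨_, rfl⟩
    have h4 : U1.card ≤ A.card := by
      rw [hU1]
      exact Finset.card_image_le
    have h5 : U2.card ≤ A.card := by
      rw [hU2]
      exact Finset.card_image_le
    have h1 : Finset.univ.image p ⊆ U1 ∪ U2 := by
      intro σ hσ
      obtain ⟨ρ, -, rfl⟩ := Finset.mem_image.1 hσ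
      rw [Finset.mem_union, hU1, hU2, hA]
      rcases ρ with τ | τ
      · exact Or.inl (Finset.mem_image_of_mem _ (Finset.mem_image_of_mem _ (Finset.mem_univ τ)))
      · exact Or.inr (Finset.mem_image_of_mem _ (Finset.mem_image_of_mem _ (Finset.mem_univ τ)))
    have h2 := Finset.card_le_card h1
    have h3 := Finset.card_union_le U1 U2
    omega
  have h1 := sep_group hsep p w hcard (by
      intro f hf
      have h2 := trace_eq_sum_embeddings (K := L) (L := K) Ω
        (x := h * (algebraMap E K f * φ))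
      have h3 := hT f hf φ hφ
      rw [h2, map_sum, map_sum] at h3
      rw [Fintype.sum_sum_type]
      have e1 : ∑ τ : K →ₐ[L] Ω, w (Sum.inl τ) * p (Sum.inl τ) f =
          -(lam * ∑ τ : K →ₐ[L] Ω, i1 (τ (h * (algebraMap E K f * φ)))) := by
        rw [Finset.mul_sum, ← Finset.sum_neg_distrib]
        refine Finset.sum_congr rfl fun τ _ => ?_
        change -(lam * i1 (τ (h * φ))) * i1 (res E τ f) = _
        rw [res_apply]
        have : τ (h * (algebraMap E K f * φ)) = τ (h * φ) * τ (algebraMap E K f) := by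
          rw [← map_mul]
          congr 1
          ring
        rw [this, map_mul i1, neg_mul, mul_assoc]
      have e2 : ∑ τ : K →ₐ[L] Ω, w (Sum.inr τ) * p (Sum.inr τ) f =
          ∑ τ : K →ₐ[L] Ω, i2 (τ (h * (algebraMap E K f * φ))) := by
        refine Finset.sum_congr rfl fun τ _ => ?_
        change i2 (τ (h * φ)) * i2 (res E τ f) = _
        rw [res_apply, ← map_mul, ← map_mul]
        congr 2
        ring
      rw [e1, e2, h3]
      ring) (Sum.inl τ0)
  have h2 : Finset.univ.filter (fun σ => p σ = p (Sum.inl τ0)) =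
      (Finset.univ.filter (fun σ => res (K := K) (L := L) (Ω := Ω) E σ = res E τ0)).disjSum
      (Finset.univ.filter (fun σ => res (K := K) (L := L) (Ω := Ω) E σ = res E τ)) := by
    ext ρ
    rcases ρ with σ | σ
    · rw [Finset.inl_mem_disjSum, Finset.mem_filter, Finset.mem_filter]
      constructor
      · rintro ⟨-, h4⟩
        refine ⟨Finset.mem_univ _, ?_⟩
        ext z
        exact i1.injective (DFunLike.congr_fun h4 z)
      · rintro ⟨-, h4⟩
        refine ⟨Finset.mem_univ _, ?_⟩
        change i1.comp (res E σ) = i1.comp (res E τ0)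
        rw [h4]
    · rw [Finset.inr_mem_disjSum, Finset.mem_filter, Finset.mem_filter]
      constructor
      · rintro ⟨-, h4⟩
        refine ⟨Finset.mem_univ _, ?_⟩
        ext z
        apply i2.injective
        have h5 : i2 (σ (algebraMap E K z)) = i1 (τ0 (algebraMap E K z)) :=
          DFunLike.congr_fun h4 z
        rw [← hτ] at h5
        exact h5
      · rintro ⟨-, h4⟩
        refine ⟨Finset.mem_univ _, ?_⟩
        change i2.comp (res E σ) = i1.comp (res E τ0)
        rw [h4]
        ext z
        exact hτ z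
  rw [h2, Finset.sum_disjSum] at h1
  have e1 : ∑ σ ∈ Finset.univ.filter (fun σ => res (K := K) (L := L) (Ω := Ω) E σ = res E τ0),
      w (Sum.inl σ) = -(lam * i1 (∑ σ ∈ Finset.univ.filter
        (fun σ => res (K := K) (L := L) (Ω := Ω) E σ = res E τ0), σ (h * φ))) := by
    rw [map_sum, Finset.mul_sum, ← Finset.sum_neg_distrib]
    rfl
  have e2 : ∑ σ ∈ Finset.univ.filter (fun σ => res (K := K) (L := L) (Ω := Ω) E σ = res E τ),
      w (Sum.inr σ) = i2 (∑ σ ∈ Finset.univ.filter
        (fun σ => res (K := K) (L := L) (Ω := Ω) E σ = res E τ), σ (h * φ)) := by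
    rw [map_sum]
    rfl
  rw [e1, e2, sum_trace (IntermediateField.adjoin L (Set.range (algebraMap E K))) τ0 _
    (mem_res E τ0) (h * φ), sum_trace (IntermediateField.adjoin L (Set.range (algebraMap E K))) τ _
    (mem_res E τ) (h * φ)] at h1
  linear_combination h1

end

end Pool.Agent.N145.SX
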