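import Pool.Agent.N145.SX.Flat
import Pool.Agent.N145.SX.PullK
import Pool.Agent.N438.SX.CST1

/-!
Varieties covered by curves of genus at most one are not of general type.
-/

set_option autoImplicit false
set_option linter.overlappingInstances false
set_option linter.unusedSectionVars false
set_option linter.unusedVariables false
set_option maxHeartbeats 4000000
set_option synthInstance.maxHeartbeats 400000

open Polynomial FF IntermediateField Module

namespace Pool.Agent.N145.SX

open Pool.Agent.W603.LV Pool.Agent.W619.PQ Pool.Agent.N145.PC Pool.Agent.N145.PL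
open Pool.Agent.W602.GT (Divisorial RegAt IsPluri DerReg KodGe LogSec)

open scoped Classical

/-- **Varieties covered by curves of genus at most one are not of general type.** -/
theorem not_gt_of_cover {L Λ F : Type} [Field L] [Field Λ] [Field F] [Algebra ℂ L] [Algebra ℂ Λ]
    [Algebra ℂ F] [Algebra Λ F] [Algebra L F] [IsScalarTower ℂ Λ F] [IsScalarTower ℂ L F]
    [Algebra.EssFiniteType ℂ L] [IsAlgClosed Λ] [IsFF Λ F] {n : ℕ}
    (hL : Algebra.trdeg ℂ L = (n + 1 : ℕ)) (hΛ : Algebra.trdeg ℂ Λ = n) (hglo : GLO Λ F) :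
    ¬ KodGe ℂ L (n + 1) (fun _ => False) (n + 1) := by
  rintro ⟨w, hw, ω, hω, D, hD, hind⟩
  have hch : CharZero Λ := charZero_of_injective_algebraMap (algebraMap ℂ Λ).injective
  obtain ⟨x, D0, hx, hdual⟩ := Pool.Agent.Y944.NT.exists_crd (k := ℂ) (K := L) hL
  obtain ⟨s, hs⟩ := IsFF.exists_transcendental (k := Λ) (K := F)
  obtain ⟨Ds, hDs⟩ := exists_D (k := Λ) hs
  have hDs0 : Ds ≠ 0 := by
    rintro rfl
    simp at hDs
  -- the frame
  obtain ⟨u, Eu, hu, hEu⟩ := Pool.Agent.Y944.NT.exists_crd (k := ℂ) (K := Λ) hΛ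
  obtain ⟨T, hTd⟩ : ∃ T : Fin (n + 1) → F, T = Fin.cons s (fun i => algebraMap Λ F (u i)) :=
    ⟨_, rfl⟩
  have hT : IsTranscendenceBasis ℂ T := by
    rw [hTd]
    exact Pool.Agent.N438.SX.basis_cons hu hs
  choose δ hδ using fun i : Fin (n + 1) =>
    Pool.Agent.W602.GT.exists_der T hT fun j => if i = j then 1 else 0
  have ha : ∀ y, δ 0 y = Ds y := by
    have h1 : δ 0 = Ds.restrictScalars ℂ := Pool.Agent.Y888.NT.der_ext' T hT fun j => by
      rw [hδ]
      refine Fin.cases ?_ (fun j => ?_) j
      · rw [if_pos rfl, hTd, Fin.cons_zero]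
        exact hDs.symm
      · rw [if_neg (Fin.succ_ne_zero j).symm, hTd, Fin.cons_succ]
        exact (Derivation.map_algebraMap Ds (u j)).symm
    intro y
    rw [h1]
    rfl
  have hb : ∀ (k : Fin (n + 1)) (c : Λ), ∃ c' : Λ, δ k (algebraMap Λ F c) = algebraMap Λ F c' := by
    intro k
    refine Fin.cases (fun c => ⟨0, ?_⟩) (fun k c => ⟨Eu k c, ?_⟩) k
    · rw [ha, Derivation.map_algebraMap, map_zero]
    · have h1 : (δ k.succ).compAlgebraMap Λ = (Algebra.linearMap Λ F).compDer (Eu k) :=
        Pool.Agent.Y888.NT.der_ext' u hu fun j => by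
          change δ k.succ (algebraMap Λ F (u j)) = algebraMap Λ F (Eu k (u j))
          have h2 := hδ k.succ j.succ
          rw [hTd, Fin.cons_succ] at h2
          rw [h2, hEu]
          by_cases h : k = j
          · rw [if_pos h, if_pos (by rw [h]), map_one]
          · rw [if_neg h, if_neg (fun h' => h (Fin.succ_injective _ h')), map_zero]
      exact DFunLike.congr_fun h1 c
  -- the determinant
  obtain ⟨mm, hmm⟩ : ∃ mm : Matrix (Fin (n + 1)) (Fin (n + 1)) F,
    mm = Matrix.of fun k j => δ k (algebraMap L F (x j)) := ⟨_, rfl⟩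
  have hφy : AlgebraicIndependent ℂ (fun j => algebraMap L F (x j)) :=
    hx.1.map' (f := IsScalarTower.toAlgHom ℂ L F) (algebraMap L F).injective
  have hcol : ∀ c : Fin (n + 1) → F, (∀ k, ∑ j, mm k j * c j = 0) → c = 0 := by
    intro c hc
    funext i
    obtain ⟨D, hD⟩ := Pool.Agent.Y944.NT.exists_der_indep hφy i
    have h1 := Pool.Agent.Y944.NT.der_expand hT hδ D
    have h2 : ∀ x, D x = ∑ k, D (T k) * δ k x := by
      intro x
      conv_lhs => rw [h1]
      have h3 : (∑ k, D (T k) • δ k) x = ∑ k, (D (T k) • δ k) x :=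
        congrFun (map_sum Derivation.coeFnAddMonoidHom (fun k => D (T k) • δ k) Finset.univ |>.trans
          rfl) x |>.trans (Finset.sum_apply _ _ _)
      rw [h3]
      rfl
    have h4 : ∑ j, c j * D (algebraMap L F (x j)) = 0 := by
      simp only [h2 (algebraMap L F (x _)), Finset.mul_sum]
      rw [Finset.sum_comm]
      refine Finset.sum_eq_zero fun k _ => ?_
      have h5 := hc k
      calc ∑ j, c j * (D (T k) * δ k (algebraMap L F (x j))) = D (T k) * ∑ j, mm k j * c j := by
            rw [Finset.mul_sum]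
            exact Finset.sum_congr rfl fun j _ => by rw [hmm, Matrix.of_apply]; ring
        _ = 0 := by rw [h5, mul_zero]
    simp only [hD, mul_ite, mul_one, mul_zero, Finset.sum_ite_eq, Finset.mem_univ, if_true] at h4
    exact h4
  have hdet : mm.det ≠ 0 := by
    intro h0
    obtain ⟨v, hv0, hv⟩ := Matrix.exists_mulVec_eq_zero_iff.2 h0
    exact hv0 (hcol v fun k => congrFun hv k)
  -- the restrictions to the fibres are proportional
  have hval : ∀ j, ω j D = (Matrix.of fun a b => D a (x b) : Matrix (Fin (n + 1)) (Fin (n + 1))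
      L).det ^ w * ω j D0 := by
    intro j
    have h1 := (hω j).1 (Matrix.of fun a b => D a (x b)) D0
    rw [← h1]
    congr 1
    funext a
    exact (Pool.Agent.W73.PG.PULL.expand x hx D0 hdual (D a)).symm
  obtain ⟨e, he⟩ : ∃ e, e = (Matrix.of fun a b => D a (x b) : Matrix (Fin (n + 1)) (Fin (n + 1))
      L).det ^ w := ⟨_, rfl⟩
  simp only [← he] at hval
  have he0 : e ≠ 0 := by
    rintro rfl
    rw [hval, zero_mul] at hD
    exact hD rfl
  have hω0 : ω 0 D0 ≠ 0 := by
    intro h0
    rw [hval, h0, mul_zero] at hD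
    exact hD rfl
  have hlog : ∀ j, ∀ P : Place ℂ L, Divisorial (n + 1) P → RegAt P (ω j) :=
    fun j P hP => (hω j).2.2 P hP (fun h => h)
  have hcan : ∀ j, ∀ Q : Place Λ F, Ge Q (w * vo Q Ds) (mm.det ^ w * algebraMap L F (ω j D0)) := by
    intro j Q
    rw [hmm]
    exact core_pluri hL hΛ hx hdual (hω j).1 (hlog j) Ds hDs δ 0 ha hb Q
  have hrat : ∀ j, ∃ c : Λ, algebraMap Λ F c = algebraMap L F (ω j D / ω 0 D) := by
    intro j
    obtain ⟨a, b, hab, h1⟩ := pluri_of_glo hglo hDs0 hw (hcan j) (hcan 0)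
    have h2 : algebraMap Λ F a * algebraMap L F (ω j D0) =
        algebraMap Λ F b * algebraMap L F (ω 0 D0) := by
      apply mul_left_cancel₀ (pow_ne_zero w hdet)
      linear_combination h1
    have h0' : algebraMap L F (ω 0 D0) ≠ 0 := by simpa using hω0
    have ha0 : a ≠ 0 := by
      rintro rfl
      rw [map_zero, zero_mul] at h2
      rcases mul_eq_zero.1 h2.symm with h3 | h3
      · rcases hab with h4 | h4
        · exact h4 rfl
        · exact h4 (by simpa using h3)
      · exact h0' h3
    have ha1 : algebraMap Λ F a ≠ 0 := by simpa using ha0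
    refine ⟨b / a, ?_⟩
    rw [hval, hval, mul_div_mul_left _ _ he0, map_div₀, map_div₀, div_eq_div_iff ha1 h0']
    linear_combination -h2
  choose c hc using hrat
  have hind2 : AlgebraicIndependent ℂ fun i : Fin (n + 1) => c i.succ := by
    have h1 : AlgebraicIndependent ℂ fun i : Fin (n + 1) =>
        algebraMap L F (ω i.succ D / ω 0 D) :=
      hind.map' (f := IsScalarTower.toAlgHom ℂ L F) (algebraMap L F).injective
    have h2 : (fun i : Fin (n + 1) => algebraMap L F (ω i.succ D / ω 0 D)) =
        fun i => (IsScalarTower.toAlgHom ℂ Λ F) (c i.succ) := by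
      funext i
      exact (hc i.succ).symm
    rw [h2] at h1
    exact AlgebraicIndependent.of_comp (IsScalarTower.toAlgHom ℂ Λ F) h1
  have h1 := hind2.lift_cardinalMk_le_trdeg
  rw [hΛ] at h1
  simp only [Cardinal.mk_fin, Cardinal.lift_natCast] at h1
  have h2 : n + 1 ≤ n := by exact_mod_cast h1
  omega

end Pool.Agent.N145.SX
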