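import Pool.Agent.N145.PL.LG
import Pool.Agent.N145.PC.Str4

/-!
Varieties dominated by the product of a variety and a curve: definitions and statements.
-/

set_option autoImplicit false
set_option linter.overlappingInstances false
set_option linter.unusedSectionVars false

open Polynomial FF IntermediateField Module

namespace Pool.Agent.N145.SX

open Pool.Agent.W603.LV Pool.Agent.W619.PQ Pool.Agent.N145.PC Pool.Agent.N145.PL
open Pool.Agent.W602.GT (Divisorial RegAt IsPluri DerReg DerLog LogAt KodGe LogSec)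
open Pool.Agent.Y184.NT (trForm)
open Pool.Agent.R882.LT (SecAt)

/-- the functions `f` such that `f dx 1 ... dx m` is a logarithmic canonical form -/
def HX {E : Type} [Field E] [Algebra ℂ E] {m : ℕ} (x : Fin m → E) (BX : Place ℂ E → Prop) :
    Set E :=
  {f | ∀ P : Place ℂ E, Divisorial m P → SecAt BX P (trForm x f)}

/-- the logarithmic canonical forms separate less than `g` generic points -/
def SepX {E : Type} [Field E] [Algebra ℂ E] {m : ℕ} (x : Fin m → E) (BX : Place ℂ E → Prop)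
    (g : ℕ) : Prop :=
  ∀ (Ω : Type) [Field Ω] [Algebra ℂ Ω] [IsAlgClosed Ω] (A : Finset (E →ₐ[ℂ] Ω)), A.card < g →
    ∀ c : (E →ₐ[ℂ] Ω) → Ω, (∀ f ∈ HX x BX, ∑ σ ∈ A, c σ * σ f = 0) → ∀ σ ∈ A, c σ = 0

/-- the boundary of the product -/
def BdX {K E C : Type} [Field K] [Field E] [Field C] [Algebra ℂ K] [Algebra ℂ E] [Algebra ℂ C]
    [Algebra E K] [Algebra C K] (BX : Place ℂ E → Prop) (B : Set (Place ℂ C)) (Q : Place ℂ K) :
    Prop :=
  (∃ (P : Place ℂ E) (e : ℕ), BX P ∧ Over Q P e) ∨ ∃ p ∈ B, ∃ e : ℕ, Over Q p e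

/-- the coordinates on the product -/
noncomputable def zz {E C : Type} (K : Type) [Field K] [Field E] [Field C] [Algebra E K]
    [Algebra C K] {m : ℕ} (x : Fin m → E) (t : C) : Fin (m + 1) → K :=
  Fin.snoc (α := fun _ => K) (fun j => algebraMap E K (x j)) (algebraMap C K t)

/-- **Pull-backs of logarithmic canonical forms.** -/
def S_PULL : Prop :=
  ∀ (E R : Type) [Field E] [Field R] [Algebra ℂ E] [Algebra ℂ R] [Algebra E R]
    [IsScalarTower ℂ E R] [Algebra.EssFiniteType ℂ E] (m N : ℕ), Algebra.trdeg ℂ E = m →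
    Algebra.trdeg ℂ R = N → ∀ x : Fin m → E, IsTranscendenceBasis ℂ x →
    ∀ (BX : Place ℂ E → Prop), ∀ f ∈ HX x BX, ∀ Q : Place ℂ R, Divisorial N Q →
    ∀ D : Fin m → Derivation ℂ R R, ((∀ i, DerLog Q (D i)) ∨
      ((¬ ∃ (P : Place ℂ E) (e : ℕ), BX P ∧ Over Q P e) ∧ ∀ i, DerReg Q (D i))) →
    Q.Reg ((Matrix.of fun i j => D i (algebraMap E R (x j)) : Matrix (Fin m) (Fin m) R).det *
      algebraMap E R f)

/-- **Products of logarithmic canonical forms.** -/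
def S_SEC : Prop :=
  ∀ (K E C : Type) [Field K] [Field E] [Field C] [Algebra ℂ K] [Algebra ℂ E] [Algebra ℂ C]
    [Algebra E K] [Algebra C K] [IsScalarTower ℂ E K] [IsScalarTower ℂ C K]
    [Algebra.EssFiniteType ℂ E] [IsFF ℂ C] (m : ℕ), Algebra.trdeg ℂ E = m →
    Algebra.trdeg ℂ K = (m + 1 : ℕ) → ∀ x : Fin m → E, IsTranscendenceBasis ℂ x →
    ∀ (BX : Place ℂ E → Prop), ∀ f ∈ HX x BX, ∀ t : C, Transcendental ℂ t →
    ∀ D0 : Derivation ℂ C C, D0 t = 1 → ∀ (B : Set (Place ℂ C)), ∀ φ ∈ HL D0 B,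
    ∀ Q : Place ℂ K, Divisorial (m + 1) Q →
    SecAt (BdX BX B) Q (trForm (zz K x t) (algebraMap E K f * algebraMap C K φ))

/-- **The constants.** -/
def S_CLOSED : Prop :=
  ∀ (K : Type) [Field K] [Algebra ℂ K] [Algebra.EssFiniteType ℂ K] (n : ℕ)
    (E C : IntermediateField ℂ K) [IsFF ℂ C], E ⊔ C = ⊤ → Algebra.trdeg ℂ E = n →
    Algebra.trdeg ℂ K = (n + 1 : ℕ) →
    (∀ z : C, Transcendental ℂ z → ¬ IsAlgebraic E (z : K)) ∧
    IntermediateField.adjoin E (C : Set K) = ⊤ ∧ ∀ z : K, IsAlgebraic E z → z ∈ E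

/-- **The coordinate on the geometric generic fibre.** Generalizes
`Pool.Agent.N145.PL.fib_coord`. -/
def S_FIB : Prop :=
  ∀ (K : Type) [Field K] [Algebra ℂ K] [Algebra.EssFiniteType ℂ K] (n : ℕ)
    (E C : IntermediateField ℂ K) [IsFF ℂ C], E ⊔ C = ⊤ → Algebra.trdeg ℂ E = n →
    Algebra.trdeg ℂ K = (n + 1 : ℕ) → ∀ x0 : C, Transcendental ℂ x0 →
    ∀ D0 : Derivation ℂ C C, D0 x0 = 1 → ∀ B0 : Set (Place ℂ C), (∀ P ∈ B0, P.ord x0 < 0) →
    ∀ (E' : IntermediateField E K) [FiniteDimensional E' K] (t : Fin n → K), (∀ j, t j ∈ E) →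
    ∀ ξ ∈ E', ¬ IsAlgebraic E ξ →
    IsTranscendenceBasis ℂ (Fin.append t (fun _ : Fin 1 => ξ)) →
    ∀ Ef : Fin (n + 1) → Derivation ℂ K K,
    (∀ i j, Ef i (Fin.append t (fun _ : Fin 1 => ξ) j) = if i = j then 1 else 0) →
    (∀ φ ∈ HL D0 B0, Algebra.trace E' K (Ef (Fin.last n) (x0 : K) * (φ : K)) = 0) →
    ∀ (Λ F : Type) [Field Λ] [Field F] [Algebra ℂ Λ] [Algebra ℂ F] [Algebra Λ F] [Algebra K F]
      [Algebra E Λ] [IsScalarTower ℂ Λ F] [IsScalarTower ℂ K F] [Algebra.IsAlgebraic E Λ]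
      [IsAlgClosed Λ] [IsFF Λ F],
    (∀ z (hz : z ∈ E), algebraMap Λ F (algebraMap E Λ ⟨z, hz⟩) = algebraMap K F z) →
    IntermediateField.adjoin Λ (Set.range (algebraMap K F)) = ⊤ →
    ∃ s : F, Transcendental Λ s ∧
      (∀ e ∈ E', algebraMap K F e ∈ IntermediateField.adjoin Λ {s}) ∧
      ∀ Q : Place Λ F, (∃ P ∈ B0, ∃ e : ℕ, 0 < e ∧
        ∀ v : C, Q.ord (algebraMap K F (v : K)) = e * P.ord v) → Q.ord s < 0

/-- **The trace relation gives `A¹`-uniruledness.** Generalizes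
`Pool.Agent.N145.PL.a1_erase`. -/
def S_ERASE : Prop :=
  ∀ (K : Type) [Field K] [Algebra ℂ K] [Algebra.EssFiniteType ℂ K] (n : ℕ)
    (E C : IntermediateField ℂ K) [IsFF ℂ C], E ⊔ C = ⊤ → Algebra.trdeg ℂ E = n →
    Algebra.trdeg ℂ K = (n + 1 : ℕ) → ∀ x : Fin n → E, IsTranscendenceBasis ℂ x →
    ∀ t : C, Transcendental ℂ t → ∀ D0 : Derivation ℂ C C, D0 t = 1 →
    ∀ (BX : Place ℂ E → Prop) (B : Set (Place ℂ C)), (∀ P ∈ B, P.ord t < 0) →
    ∀ (L : Type) [Field L] [Algebra ℂ L] [Algebra L K] [IsScalarTower ℂ L K]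
      [FiniteDimensional L K] (BL : Place ℂ L → Prop),
    (∀ (P : Place ℂ L) (Q : Place ℂ K) (e : ℕ), Over Q P e → BL P → BdX BX B Q) →
    ∀ h : K, (∀ (M : IntermediateField L K) (g : K) (D : Fin (n + 1) → Derivation ℂ M M)
      (D' : Fin (n + 1) → Derivation ℂ K K),
      (∀ i z, D' i (algebraMap M K z) = algebraMap M K (D i z)) →
      ∃ a : M, trForm (zz K x t) g D' = algebraMap M K a * (h * g)) →
    (∀ φ ∈ HL D0 B,
      Algebra.trace (IntermediateField.adjoin L (E : Set K)) K (h * (φ : K)) = 0) →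
    Pool.Agent.W619.PL.IsA1Uniruled ℂ L (n + 1) BL

/-- **The trace relation gives rational curves.** Generalizes `Pool.Agent.N145.PC.geo_erase`. -/
def S_GEO : Prop :=
  ∀ (K : Type) [Field K] [Algebra ℂ K] [Algebra.EssFiniteType ℂ K] (n : ℕ)
    (E C : IntermediateField ℂ K) [IsFF ℂ C], E ⊔ C = ⊤ → Algebra.trdeg ℂ E = n →
    Algebra.trdeg ℂ K = (n + 1 : ℕ) → ∀ x : Fin n → E, IsTranscendenceBasis ℂ x →
    ∀ t : C, Transcendental ℂ t → ∀ D0 : Derivation ℂ C C, D0 t = 1 →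
    ∀ (L : Type) [Field L] [Algebra ℂ L] [Algebra L K] [IsScalarTower ℂ L K]
      [FiniteDimensional L K] (h : K),
    (∀ (M : IntermediateField L K) (g : K) (D : Fin (n + 1) → Derivation ℂ M M)
      (D' : Fin (n + 1) → Derivation ℂ K K),
      (∀ i z, D' i (algebraMap M K z) = algebraMap M K (D i z)) →
      ∃ a : M, trForm (zz K x t) g D' = algebraMap M K a * (h * g)) →
    (∀ φ ∈ HL D0 (∅ : Set (Place ℂ C)),
      Algebra.trace (IntermediateField.adjoin L (E : Set K)) K (h * (φ : K)) = 0) →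
    ∃ s : AlgebraicClosure K, Transcendental (algebraicClosure E (AlgebraicClosure K)) s ∧
      ∀ z : L, algebraMap K (AlgebraicClosure K) (algebraMap L K z) ∈
        IntermediateField.adjoin (algebraicClosure E (AlgebraicClosure K)) {s}

/-- **Regularity along the horizontal divisors.** -/
def S_REGF : Prop :=
  ∀ (E Λ Ξ : Type) [Field E] [Field Λ] [Field Ξ] [Algebra ℂ E] [Algebra ℂ Λ] [Algebra ℂ Ξ]
    [Algebra Λ Ξ] [Algebra E Ξ] [IsScalarTower ℂ Λ Ξ] [IsScalarTower ℂ E Ξ]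
    [Algebra.EssFiniteType ℂ E] [IsAlgClosed Λ] [IsFF Λ Ξ] (m N : ℕ), Algebra.trdeg ℂ E = m →
    Algebra.trdeg ℂ Λ = N → ∀ x : Fin m → E, IsTranscendenceBasis ℂ x →
    ∀ f ∈ HX x (fun _ => False), ∀ (Ds : Derivation Λ Ξ Ξ) (s : Ξ), Ds s = 1 →
    ∀ (δ : Fin m → Derivation ℂ Ξ Ξ) (i0 : Fin m), (∀ z, δ i0 z = Ds z) →
    (∀ i (c : Λ), ∃ c' : Λ, δ i (algebraMap Λ Ξ c) = algebraMap Λ Ξ c') →
    ∀ Q : Place Λ Ξ, Ge Q (vo Q Ds)
      ((Matrix.of fun i j => δ i (algebraMap E Ξ (x j)) : Matrix (Fin m) (Fin m) Ξ).det *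
        algebraMap E Ξ f)

/-- **Correspondences of small degree on rational curves are constant.** -/
def S_CST1 : Prop :=
  ∀ (E Λ Ξ : Type) [Field E] [Field Λ] [Field Ξ] [Algebra ℂ E] [Algebra ℂ Λ] [Algebra ℂ Ξ]
    [Algebra Λ Ξ] [Algebra E Ξ] [IsScalarTower ℂ Λ Ξ] [IsScalarTower ℂ E Ξ]
    [Algebra.EssFiniteType ℂ E] [IsAlgClosed Λ] [IsFF Λ Ξ] (m N : ℕ), Algebra.trdeg ℂ E = m →
    Algebra.trdeg ℂ Λ = N → ∀ x : Fin m → E, IsTranscendenceBasis ℂ x →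
    ∀ g : ℕ, SepX x (fun _ => False) g → ∀ s : Ξ, Transcendental Λ s →
    IntermediateField.adjoin Λ⟮s⟯ (Set.range (algebraMap E Ξ)) = ⊤ → finrank Λ⟮s⟯ Ξ < g →
    ∀ z : E, IsAlgebraic Λ (algebraMap E Ξ z)

/-- The same in an ambient field. Generalizes `Pool.Agent.N145.PC.cst_amb`. -/
def S_CST : Prop :=
  ∀ (E Λ Ω : Type) [Field E] [Field Λ] [Field Ω] [Algebra ℂ E] [Algebra ℂ Λ] [Algebra ℂ Ω]
    [Algebra Λ Ω] [IsScalarTower ℂ Λ Ω] [Algebra.EssFiniteType ℂ E] [IsAlgClosed Λ] (m N : ℕ),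
    Algebra.trdeg ℂ E = m → Algebra.trdeg ℂ Λ = N → ∀ x : Fin m → E, IsTranscendenceBasis ℂ x →
    ∀ g : ℕ, SepX x (fun _ => False) g → ∀ s : Ω, Transcendental Λ s → ∀ φ : E →ₐ[ℂ] Ω,
    FiniteDimensional Λ⟮s⟯ (IntermediateField.adjoin Λ⟮s⟯ (Set.range φ)) →
    finrank Λ⟮s⟯ (IntermediateField.adjoin Λ⟮s⟯ (Set.range φ)) < g →
    ∀ z : E, IsAlgebraic Λ (φ z)

/-- **Images of varieties whose canonical forms separate points are of general type.** -/
def S_GT : Prop :=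
  ∀ (N E : Type) [Field N] [Field E] [Algebra ℂ N] [Algebra ℂ E] [Algebra N E]
    [IsScalarTower ℂ N E] [FiniteDimensional N E] [Algebra.EssFiniteType ℂ E] (m : ℕ),
    Algebra.trdeg ℂ E = m → ∀ x : Fin m → E, IsTranscendenceBasis ℂ x →
    ∀ g : ℕ, SepX x (fun _ => False) g → 2 * finrank N E < g →
    KodGe ℂ N m (fun _ => False) m

/-- **The structure of the image if it is covered by rational curves.** -/
def S_STR : Prop :=
  ∀ (K : Type) [Field K] [Algebra ℂ K] [Algebra.EssFiniteType ℂ K] (n : ℕ)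
    (E : IntermediateField ℂ K) [Algebra.EssFiniteType ℂ E],
    Algebra.trdeg ℂ E = n → Algebra.trdeg ℂ K = (n + 1 : ℕ) →
    (∀ z : K, IsAlgebraic E z → z ∈ E) → ∀ x : Fin n → E, IsTranscendenceBasis ℂ x →
    ∀ g : ℕ, SepX x (fun _ => False) g →
    ∀ (L : Type) [Field L] [Algebra ℂ L] [Algebra L K] [IsScalarTower ℂ L K]
      [FiniteDimensional L K], 2 * finrank L (IntermediateField.adjoin L (E : Set K)) < g →
    ∀ s : AlgebraicClosure K, Transcendental (algebraicClosure E (AlgebraicClosure K)) s →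
    (∀ z : L, algebraMap K (AlgebraicClosure K) (algebraMap L K z) ∈
      IntermediateField.adjoin (algebraicClosure E (AlgebraicClosure K)) {s}) →
    ∃ N : IntermediateField ℂ L,
      (∀ z : L, IsAlgebraic N z → z ∈ N) ∧ Algebra.trdeg ℂ N = n ∧
      KodGe ℂ N n (fun _ => False) n ∧ ∃ (M : Type) (_ : Field M) (_ : Algebra N M),
        Algebra.IsAlgebraic N M ∧ Nonempty (L →ₐ[N] RatFunc M)

end Pool.Agent.N145.SX
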