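import Pool.Agent.N145.SX.Stm

/-!
Varieties with a multivalued rational map to a variety whose canonical forms separate points:
statements.
-/

set_option autoImplicit false
set_option linter.overlappingInstances false
set_option linter.unusedSectionVars false

open Polynomial FF IntermediateField Module

namespace Pool.Agent.N145.SX

open Pool.Agent.W603.LV Pool.Agent.W619.PQ Pool.Agent.N145.PC Pool.Agent.N145.PL
open Pool.Agent.W602.GT (Divisorial RegAt IsPluri DerReg DerLog LogAt KodGe LogSec)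
open Pool.Agent.Y184.NT (trForm)
open Pool.Agent.R882.LT (SecAt)

/-- **Subfields of finitely generated fields are finitely generated.** -/
def S_FG : Prop :=
  ∀ (k K : Type) [Field k] [Field K] [Algebra k K] [CharZero k] [Algebra.EssFiniteType k K]
    (B : IntermediateField k K), Algebra.EssFiniteType k B

/-- **Correspondences of small degree on unirational varieties are constant.** -/
def S_CSTR : Prop :=
  ∀ (E Λ Ω : Type) [Field E] [Field Λ] [Field Ω] [Algebra ℂ E] [Algebra ℂ Λ] [Algebra ℂ Ω]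
    [Algebra Λ Ω] [IsScalarTower ℂ Λ Ω] [Algebra.EssFiniteType ℂ E] [IsAlgClosed Λ]
    [IsAlgClosed Ω] (m N r : ℕ),
    Algebra.trdeg ℂ E = m → Algebra.trdeg ℂ Λ = N → ∀ x : Fin m → E, IsTranscendenceBasis ℂ x →
    ∀ g : ℕ, SepX x (fun _ => False) g → ∀ s : Fin r → Ω, AlgebraicIndependent Λ s →
    ∀ φ : E →ₐ[ℂ] Ω,
    FiniteDimensional (IntermediateField.adjoin Λ (Set.range s))
      (IntermediateField.adjoin (IntermediateField.adjoin Λ (Set.range s)) (Set.range φ)) →
    finrank (IntermediateField.adjoin Λ (Set.range s))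
      (IntermediateField.adjoin (IntermediateField.adjoin Λ (Set.range s)) (Set.range φ)) < g →
    ∀ z : E, IsAlgebraic Λ (φ z)

/-- **Elements with constant conjugates.** Generalizes `Pool.Agent.N145.PC.alg_of_const`. -/
def S_ALG : Prop :=
  ∀ (K L Ω : Type) [Field K] [Field L] [Field Ω] [Algebra ℂ K] [Algebra ℂ L] [Algebra ℂ Ω]
    [Algebra L K] [IsScalarTower ℂ L K] [FiniteDimensional L K] [Algebra L Ω]
    [IsScalarTower ℂ L Ω] [IsAlgClosed Ω] (Λ : IntermediateField ℂ Ω),
    (∀ z : Ω, IsAlgebraic Λ z → z ∈ Λ) → ∀ z : K, (∀ τ : K →ₐ[L] Ω, τ z ∈ Λ) →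
    IsAlgebraic (Λ.comap (IsScalarTower.toAlgHom ℂ L Ω)) z

/-- **Images of generically finite covers are of general type.** -/
def S_GT2 : Prop :=
  ∀ (N K E : Type) [Field N] [Field K] [Field E] [Algebra ℂ N] [Algebra ℂ K] [Algebra ℂ E]
    [Algebra N K] [Algebra E K] [IsScalarTower ℂ N K] [IsScalarTower ℂ E K]
    [FiniteDimensional N K] [Algebra.EssFiniteType ℂ K] [Algebra.EssFiniteType ℂ E] (m : ℕ),
    Algebra.trdeg ℂ E = m → Algebra.trdeg ℂ K = m → ∀ x : Fin m → E, IsTranscendenceBasis ℂ x →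
    ∀ g : ℕ, SepX x (fun _ => False) g →
    2 * finrank N (IntermediateField.adjoin N (Set.range (algebraMap E K))) < g →
    KodGe ℂ N m (fun _ => False) m

/-- **Varieties covered by unirational varieties with a multivalued map to a variety whose
canonical forms separate points.** -/
def S_UNI : Prop :=
  ∀ (K : Type) [Field K] [Algebra ℂ K] [Algebra.EssFiniteType ℂ K] (m r : ℕ)
    (E : IntermediateField ℂ K) [Algebra.EssFiniteType ℂ E], Algebra.trdeg ℂ E = m →
    Algebra.trdeg ℂ K = (m + r : ℕ) → ∀ x : Fin m → E, IsTranscendenceBasis ℂ x →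
    ∀ g : ℕ, SepX x (fun _ => False) g →
    ∀ (L : Type) [Field L] [Algebra ℂ L] [Algebra L K] [IsScalarTower ℂ L K]
      [FiniteDimensional L K], 2 * finrank L (IntermediateField.adjoin L (E : Set K)) < g →
    ∀ (M : Type) [Field M] [Algebra ℂ M], Algebra.trdeg ℂ M = m →
    Nonempty (L →ₐ[ℂ] FractionRing (MvPolynomial (Fin r) M)) →
    ∃ N : IntermediateField ℂ L,
      (∀ z : L, IsAlgebraic N z → z ∈ N) ∧ Algebra.trdeg ℂ N = m ∧
      KodGe ℂ N m (fun _ => False) m ∧ ∃ (M : Type) (_ : Field M) (_ : Algebra N M),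
        Algebra.IsAlgebraic N M ∧ Nonempty (L →ₐ[N] FractionRing (MvPolynomial (Fin r) M))

end Pool.Agent.N145.SX
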