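import Pool.Agent.N145.SX.Multi2

/-!
Statements for the structure theorem with several factors.
-/

set_option autoImplicit false
set_option linter.overlappingInstances false
set_option linter.unusedSectionVars false
set_option linter.unusedVariables false
set_option maxHeartbeats 4000000
set_option synthInstance.maxHeartbeats 400000

open Polynomial FF IntermediateField Module

namespace Pool.Agent.N145.SX

open Pool.Agent.W603.LV Pool.Agent.W619.PQ Pool.Agent.N145.PC Pool.Agent.N145.PL

/-- **Transport of the separation of points along an isomorphism.** -/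
def S_SEPEQ : Prop :=
  ∀ (A B : Type) [Field A] [Field B] [Algebra ℂ A] [Algebra ℂ B] [Algebra.EssFiniteType ℂ A]
    (e : A ≃ₐ[ℂ] B) (m : ℕ), Algebra.trdeg ℂ A = m → ∀ x : Fin m → A, IsTranscendenceBasis ℂ x →
    ∀ g : ℕ, SepX x (fun _ => False) g → SepX (fun i => e (x i)) (fun _ => False) g

/-- **Degrees over the base of a fibration.** `E` is the compositum of the `F l`, it is algebraically
closed in `K`, and algebraic over `N = E ∩ L`. Then the degree of `N (F l, l ≤ i)` over
`N (F l, l < i)` is at most the degree of `L (F l, l ≤ i)` over `L (F l, l < i)`. -/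
def S_DEG : Prop :=
  ∀ (K : Type) [Field K] [Algebra ℂ K] [Algebra.EssFiniteType ℂ K] (k : ℕ)
    (F : Fin (k + 1) → IntermediateField ℂ K) (E : IntermediateField ℂ K)
    [Algebra.EssFiniteType ℂ E] (hle : ∀ i : Fin k, F i.castSucc ≤ E),
    E = ⨆ i : Fin k, F i.castSucc → (∀ z : K, IsAlgebraic E z → z ∈ E) →
    ∀ (L : Type) [Field L] [Algebra ℂ L] [Algebra L K] [IsScalarTower ℂ L K]
      [FiniteDimensional L K] (N : Type) [Field N] [Algebra ℂ N] [Algebra N L] [Algebra N E]
      [Algebra N K] [IsScalarTower N L K] [IsScalarTower N E K] [IsScalarTower ℂ N E]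
      [IsScalarTower ℂ N L] [FiniteDimensional N E],
    (∀ z : L, IsAlgebraic N z → ∃ y : N, algebraMap N L y = z) → ∀ i : Fin k,
    finrank (MF (fun l : Fin k => IntermediateField.restrict (hle l)) N (Js k i))
      (IntermediateField.adjoin
        (MF (fun l : Fin k => IntermediateField.restrict (hle l)) N (Js k i))
        (IntermediateField.restrict (hle i) : Set E)) ≤
    finrank (MF F L (Js (k + 1) i)) (IntermediateField.adjoin (MF F L (Js (k + 1) i))
      (F i.castSucc : Set K))

end Pool.Agent.N145.SX
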