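import Pool.Agent.N145.SX.Stm

/-!
The traces of the products of logarithmic canonical forms, and the relations between the points of
the fibres.
-/

set_option autoImplicit false
set_option linter.overlappingInstances false
set_option linter.unusedSectionVars false
set_option linter.unusedVariables false
set_option maxHeartbeats 4000000
set_option synthInstance.maxHeartbeats 400000

open Polynomial FF IntermediateField Module

namespace Pool.Agent.N145.SX

open Pool.Agent.W603.LV Pool.Agent.W619.PQ Pool.Agent.N145.PC Pool.Agent.N145.PL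
open Pool.Agent.W602.GT (Divisorial RegAt IsPluri DerReg DerLog LogAt KodGe LogSec)
open Pool.Agent.Y184.NT (trForm trForm_pluri)
open Pool.Agent.R882.LT (SecAt)

section

variable {K E C L : Type} [Field K] [Field E] [Field C] [Field L] [Algebra ℂ K] [Algebra ℂ E]
  [Algebra ℂ C] [Algebra ℂ L] [Algebra E K] [Algebra C K] [IsScalarTower ℂ E K]
  [IsScalarTower ℂ C K] [Algebra L K] [IsScalarTower ℂ L K] [FiniteDimensional L K] {m : ℕ}

theorem trForm_mul {n : ℕ} (z : Fin n → K) (a b : K) (D : Fin n → Derivation ℂ K K) :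
    trForm z (a * b) D = a * trForm z b D := by
  unfold trForm
  ring

/-- **The traces are logarithmic canonical forms.** -/
theorem exists_traceX (hsec : S_SEC) [Algebra.EssFiniteType ℂ K] [Algebra.EssFiniteType ℂ E]
    [IsFF ℂ C] (hE : Algebra.trdeg ℂ E = m) (hK : Algebra.trdeg ℂ K = (m + 1 : ℕ)) {x : Fin m → E}
    (hx : IsTranscendenceBasis ℂ x) (BX : Place ℂ E → Prop) {t : C} (ht : Transcendental ℂ t)
    (hz : IsTranscendenceBasis ℂ (zz K x t)) {D0 : Derivation ℂ C C} (hD0 : D0 t = 1)
    (B : Set (Place ℂ C)) {BL : Place ℂ L → Prop}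
    (hB : ∀ (P : Place ℂ L) (Q : Place ℂ K) (e : ℕ), Over Q P e → BdX BX B Q → BL P) :
    ∃ (y : Fin (m + 1) → L) (G : Fin (m + 1) → Derivation ℂ L L) (h : K),
      IsTranscendenceBasis ℂ y ∧ (∀ i j, G i (y j) = if i = j then 1 else 0) ∧ h ≠ 0 ∧
      (∀ f ∈ HX x BX, ∀ φ ∈ HL D0 B, ∀ P : Place ℂ L, Divisorial (m + 1) P →
        SecAt BL P (trForm y (Algebra.trace L K (h * (algebraMap E K f * algebraMap C K φ))))) ∧
      ∀ (M : IntermediateField L K) (g : K) (D : Fin (m + 1) → Derivation ℂ M M)
        (D' : Fin (m + 1) → Derivation ℂ K K),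
        (∀ i z, D' i (algebraMap M K z) = algebraMap M K (D i z)) →
        ∃ a : M, trForm (zz K x t) g D' = algebraMap M K a * (h * g) := by
  classical
  have hL : Algebra.trdeg ℂ L = (m + 1 : ℕ) := Pool.Agent.Y184.NT.trdeg_below (K := K) hK
  have hessL : Algebra.EssFiniteType ℂ L := Pool.Agent.TH466.QG.ess_below (K := K)
  obtain ⟨y, G, hy, hG⟩ := Pool.Agent.Y172.exists_crd hL
  choose G' hG' using fun i => Pool.Agent.Y172.exists_lift (L := K) hL (G i)
  have hyK : IsTranscendenceBasis ℂ (fun j => algebraMap L K (y j)) := hy.algebraMap_comp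
  have hGK := Pool.Agent.Y172.lift_dual hG hG'
  obtain ⟨h, hdef⟩ : ∃ h, h = (Matrix.of fun i j => G' i (zz K x t j) :
    Matrix (Fin (m + 1)) (Fin (m + 1)) K).det := ⟨_, rfl⟩
  have hval : ∀ g : K, trForm (zz K x t) g G' = h * g := by
    intro g
    rw [trForm, hdef]
  refine ⟨y, G, h, hy, hG, ?_, ?_, ?_⟩
  · intro h0
    -- the dual derivations of the coordinates
    choose Z hZ using fun i : Fin (m + 1) => Pool.Agent.W602.GT.exists_der _ hz
      fun j => if i = j then (1 : K) else 0
    have h1 := Pool.Agent.Y172.pluri_coord hyK hGK (trForm_pluri (zz K x t) (1 : K)) Z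
    rw [hval, h0, zero_mul, mul_zero] at h1
    have h2 : (Matrix.of fun i j => Z i (zz K x t j) : Matrix (Fin (m + 1)) (Fin (m + 1)) K) = 1 := by
      ext i j
      rw [Matrix.of_apply, hZ, Matrix.one_apply]
    rw [trForm, h2, Matrix.det_one, one_mul] at h1
    exact one_ne_zero h1
  · intro f hf φ hφ P hP
    rw [← hval]
    exact Pool.Agent.R882.LT.trForm_sec (BK := BdX BX B) (BL := BL) hL hy hG hG'
      _ (trForm_pluri _ _) hB
      (fun Q hQ => hsec K E C m hE hK x hx BX f hf t ht D0 hD0 B φ hφ Q hQ) P hP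
  · intro M g D D' hD
    rw [Pool.Agent.Y172.pluri_coord hyK hGK (trForm_pluri (zz K x t) g) D', hval, pow_one]
    refine ⟨(Matrix.of fun i j => D i (algebraMap L M (y j)) :
      Matrix (Fin (m + 1)) (Fin (m + 1)) M).det, ?_⟩
    rw [RingHom.map_det]
    congr 2
    ext i j
    rw [RingHom.mapMatrix_apply, Matrix.map_apply, Matrix.of_apply, Matrix.of_apply]
    rw [← hD]
    rfl

end

end Pool.Agent.N145.SX
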